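import Pool.Agent.Lib.MP_c89606_al.Sym

/-! Additivity of the symbol. -/

namespace Pool.Agent.Lib.MP_c89606_al
open Function

variable {B : Type} [CommRing B] [Algebra ℂ B]

def OkI (l : List B) (I : Ideal B) : Prop :=
  ∀ b : B, ∃ q : Polynomial ℂ, q.Monic ∧ Polynomial.aeval b q ∈ I ⊔ Ideal.ofList l

theorem OkI.mono {l l' : List B} {I I' : Ideal B} (h : OkI l I)
    (hle : I ⊔ Ideal.ofList l ≤ I' ⊔ Ideal.ofList l') : OkI l' I' := by
  intro b
  obtain ⟨q, hq, hb⟩ := h b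
  exact ⟨q, hq, hle hb⟩

def Ok (l : List (B × ℂ)) (N : Type) [AddCommGroup N] [Module B N] : Prop :=
  OkI (l.map Prod.fst) (Module.annihilator B N)

section
variable {N : Type} [AddCommGroup N] [Module B N] {N' : Type} [AddCommGroup N'] [Module B N']

omit [Algebra ℂ B] in
theorem ann_le_of_inj (g : N' →ₗ[B] N) (hg : Injective g) :
    Module.annihilator B N ≤ Module.annihilator B N' := g.annihilator_le_of_injective hg

omit [Algebra ℂ B] in
theorem ann_le_of_surj (g : N →ₗ[B] N') (hg : Surjective g) :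
    Module.annihilator B N ≤ Module.annihilator B N' := g.annihilator_le_of_surjective hg

theorem Ok.of_inj {l : List (B × ℂ)} (h : Ok l N) (g : N' →ₗ[B] N) (hg : Injective g) : Ok l N' :=
  OkI.mono h (sup_le_sup_right (ann_le_of_inj g hg) _)

theorem Ok.of_surj {l : List (B × ℂ)} (h : Ok l N) (g : N →ₗ[B] N') (hg : Surjective g) :
    Ok l N' :=
  OkI.mono h (sup_le_sup_right (ann_le_of_surj g hg) _)

theorem Ok.sub {l : List (B × ℂ)} (h : Ok l N) (U : Submodule B N) : Ok l U :=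
  h.of_inj U.subtype U.subtype_injective

theorem Ok.quo {l : List (B × ℂ)} (h : Ok l N) (U : Submodule B N) : Ok l (N ⧸ U) :=
  h.of_surj U.mkQ U.mkQ_surjective

theorem Ok.tail {p : B × ℂ} {l : List (B × ℂ)} (h : Ok (p :: l) N)
    (hx : p.1 ∈ Module.annihilator B N) : Ok l N := by
  refine OkI.mono h ?_
  rw [List.map_cons, Ideal.ofList_cons, ← sup_assoc]
  refine sup_le_sup_right (sup_le le_rfl ?_) _
  rwa [Ideal.span_singleton_le_iff_mem]

omit [Algebra ℂ B] in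
theorem mem_ann_xq (x : B) : x ∈ Module.annihilator B (N ⧸ xq x N) := by
  rw [Module.mem_annihilator]
  intro n
  obtain ⟨m, rfl⟩ := Submodule.Quotient.mk_surjective _ n
  rw [← Submodule.Quotient.mk_smul, Submodule.Quotient.mk_eq_zero]
  exact mem_xq.2 ⟨m, rfl⟩

omit [Algebra ℂ B] in
theorem mem_ann_xk (x : B) : x ∈ Module.annihilator B (xk x N) := by
  rw [Module.mem_annihilator]
  intro n
  exact Subtype.ext (mem_xk.1 n.2)

theorem Ok.hq {p : B × ℂ} {l : List (B × ℂ)} (h : Ok (p :: l) N) : Ok l (N ⧸ xq p.1 N) :=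
  (h.quo _).tail (mem_ann_xq _)

theorem Ok.hk {p : B × ℂ} {l : List (B × ℂ)} (h : Ok (p :: l) N) : Ok l (xk p.1 N) :=
  (h.sub _).tail (mem_ann_xk _)

theorem Ok.fin [Algebra.FiniteType ℂ B] [Module ℂ N] [IsScalarTower ℂ B N] [Module.Finite B N]
    (h : Ok ([] : List (B × ℂ)) N) : Module.Finite ℂ N := by
  let I := Module.annihilator B N
  have hI : Algebra.IsIntegral ℂ (B ⧸ I) := ⟨fun b => by
    obtain ⟨b, rfl⟩ := Ideal.Quotient.mk_surjective b
    obtain ⟨q, hq, hb⟩ := h b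
    refine ⟨q, hq, ?_⟩
    have h1 : Polynomial.aeval b q ∈ I := by simpa using hb
    have h2 := Ideal.Quotient.eq_zero_iff_mem.2 h1
    rw [← Ideal.Quotient.mkₐ_eq_mk ℂ, ← Polynomial.aeval_algHom_apply] at h2
    exact h2⟩
  have hF : Module.Finite ℂ (B ⧸ I) := Algebra.IsIntegral.finite
  have ht := Module.isTorsionBySet_annihilator B N
  let : Module (B ⧸ I) N := ht.module
  have : IsScalarTower B (B ⧸ I) N := ht.isScalarTower
  have : IsScalarTower ℂ (B ⧸ I) N := ht.isScalarTower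
  have : Module.Finite (B ⧸ I) N := Module.Finite.of_restrictScalars_finite B _ _
  exact Module.Finite.trans (B ⧸ I) N

end

theorem trace_add_exact {N1 N2 N3 : Type} [AddCommGroup N1] [Module ℂ N1] [AddCommGroup N2]
    [Module ℂ N2] [AddCommGroup N3] [Module ℂ N3] [Module.Finite ℂ N2]
    (i : N1 →ₗ[ℂ] N2) (g : N2 →ₗ[ℂ] N3) (φ1 : N1 →ₗ[ℂ] N1) (φ2 : N2 →ₗ[ℂ] N2) (φ3 : N3 →ₗ[ℂ] N3)
    (hi : Injective i) (hg : Surjective g) (he : Exact i g) (h1 : ∀ n, φ2 (i n) = i (φ1 n))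
    (h3 : ∀ n, φ3 (g n) = g (φ2 n)) :
    LinearMap.trace ℂ N2 φ2 = LinearMap.trace ℂ N1 φ1 + LinearMap.trace ℂ N3 φ3 := by
  have : Module.Finite ℂ N1 := Module.Finite.of_injective i hi
  have : Module.Finite ℂ N3 := Module.Finite.of_surjective g hg
  obtain ⟨s, hs⟩ := g.exists_rightInverse_of_surjective (LinearMap.range_eq_top.2 hg)
  obtain ⟨r0, hr0⟩ := i.exists_leftInverse_of_injective (LinearMap.ker_eq_bot.2 hi)
  have hs' : ∀ n, g (s n) = n := fun n => congr($hs n)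
  have hr' : ∀ n, r0 (i n) = n := fun n => congr($hr0 n)
  let r : N2 →ₗ[ℂ] N1 := r0 ∘ₗ (LinearMap.id - s ∘ₗ g)
  have hir : ∀ n, i (r n) = n - s (g n) := by
    intro n
    obtain ⟨m, hm⟩ := (he (n - s (g n))).1 (by simp [hs'])
    simp [r, ← hm, hr']
  have e1 : φ2 = (φ2 ∘ₗ i) ∘ₗ r + (φ2 ∘ₗ s) ∘ₗ g := by
    ext n; simp [hir]
  have e2 : r ∘ₗ (φ2 ∘ₗ i) = φ1 := by
    ext n; apply hi; simp [h1, hir, he.apply_apply_eq_zero]
  have e3 : g ∘ₗ (φ2 ∘ₗ s) = φ3 := by
    ext n; simp [← h3, hs']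
  conv_lhs => rw [e1]
  rw [map_add, LinearMap.trace_comp_comm' r, LinearMap.trace_comp_comm' g, e2, e3]

def AddP (l : List (B × ℂ)) : Prop :=
  ∀ (N1 N2 N3 : Type) [AddCommGroup N1] [Module B N1] [Module ℂ N1] [IsScalarTower ℂ B N1]
    [AddCommGroup N2] [Module B N2] [Module ℂ N2] [IsScalarTower ℂ B N2]
    [AddCommGroup N3] [Module B N3] [Module ℂ N3] [IsScalarTower ℂ B N3] [Module.Finite B N2]
    (i : N1 →ₗ[B] N2) (g : N2 →ₗ[B] N3) (φ1 : N1 →ₗ[ℂ] N1) (φ2 : N2 →ₗ[ℂ] N2) (φ3 : N3 →ₗ[ℂ] N3),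
    Injective i → Surjective g → Exact i g → (∀ n, φ2 (i n) = i (φ1 n)) →
    (∀ n, φ3 (g n) = g (φ2 n)) → Cmp l φ2 → Ok l N2 →
    sym l N2 φ2 = sym l N1 φ1 + sym l N3 φ3

noncomputable def symS (l : List (B × ℂ)) {N : Type} [AddCommGroup N] [Module B N] [Module ℂ N]
    [IsScalarTower ℂ B N] (U : Submodule B N) (φ : N →ₗ[ℂ] N) : ℂ := sym l U (smap U U φ)

section
variable {N : Type} [AddCommGroup N] [Module B N] [Module ℂ N] [IsScalarTower ℂ B N]
variable {N' : Type} [AddCommGroup N'] [Module B N'] [Module ℂ N'] [IsScalarTower ℂ B N']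

theorem symS_bot (l : List (B × ℂ)) (φ : N →ₗ[ℂ] N) : symS l (⊥ : Submodule B N) φ = 0 :=
  sym_subsingleton _ _ _

theorem symS_top (l : List (B × ℂ)) (φ : N →ₗ[ℂ] N) (hc : Cmp l φ) :
    symS l (⊤ : Submodule B N) φ = sym l N φ :=
  sym_equiv l Submodule.topEquiv _ _ (fun n => (smap_coe (by simp) n).symm) (hc.sub _ (by simp))

theorem AddP.kr {l : List (B × ℂ)} (h : AddP l) [Module.Finite B N] (d : N →ₗ[B] N')
    (φ : N →ₗ[ℂ] N) (φ' : N' →ₗ[ℂ] N') (hφ : ∀ n, φ' (d n) = d (φ n)) (hc : Cmp l φ)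
    (ho : Ok l N) : sym l N φ = symS l (LinearMap.ker d) φ + symS l (LinearMap.range d) φ' := by
  have s1 : ∀ n ∈ LinearMap.ker d, φ n ∈ LinearMap.ker d := by
    intro n hn
    rw [LinearMap.mem_ker] at hn ⊢
    rw [← hφ, hn, map_zero]
  have s2 : ∀ n ∈ LinearMap.range d, φ' n ∈ LinearMap.range d := by
    rintro _ ⟨n, rfl⟩
    exact ⟨φ n, (hφ n).symm⟩
  refine h _ _ _ (LinearMap.ker d).subtype d.rangeRestrict _ _ _ (Submodule.subtype_injective _)
    d.surjective_rangeRestrict ?_ (fun n => (smap_coe s1 n).symm) ?_ hc ho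
  · rw [LinearMap.exact_iff, LinearMap.ker_rangeRestrict, Submodule.range_subtype]
  · intro n
    apply Subtype.ext
    rw [smap_coe s2]
    exact hφ n

end

omit [Algebra ℂ B] in
theorem xk_map {N N' : Type} [AddCommGroup N] [Module B N] [AddCommGroup N'] [Module B N']
    (x : B) (d : N →ₗ[B] N') : ∀ n ∈ xk x N, d n ∈ xk x N' := by
  intro n hn
  rw [mem_xk] at hn ⊢
  rw [← map_smul, hn, map_zero]

omit [Algebra ℂ B] in
theorem xq_map {N N' : Type} [AddCommGroup N] [Module B N] [AddCommGroup N'] [Module B N']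
    (x : B) (d : N →ₗ[B] N') : xq x N ≤ (xq x N').comap d := by
  intro n hn
  obtain ⟨m, rfl⟩ := mem_xq.1 hn
  exact mem_xq.2 ⟨d m, by simp⟩

theorem addP [Algebra.FiniteType ℂ B] (l : List (B × ℂ)) : AddP l := by
  have : IsNoetherianRing B := Algebra.FiniteType.isNoetherianRing ℂ B
  induction l with
  | nil =>
    intro N1 N2 N3 _ _ _ _ _ _ _ _ _ _ _ _ _ i g φ1 φ2 φ3 hi hg he h1 h3 _ ho
    have := ho.fin
    exact trace_add_exact (i.restrictScalars ℂ) (g.restrictScalars ℂ) φ1 φ2 φ3 hi hg he h1 h3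
  | cons p l ih =>
    intro N1 N2 N3 _ _ _ _ _ _ _ _ _ _ _ _ _ i g φ1 φ2 φ3 hi hg he h1 h3 hc2 ho2
    have : Module.Finite B N1 := Module.Finite.of_injective i hi
    have : Module.Finite B N3 := Module.Finite.of_surjective g hg
    have hc1 : Cmp (p :: l) φ1 := hc2.of_inj i hi h1
    have hc3 : Cmp (p :: l) φ3 := hc2.of_surj g hg h3
    have ho1 : Ok (p :: l) N1 := ho2.of_inj i hi
    have ho3 : Ok (p :: l) N3 := ho2.of_surj g hg
    obtain ⟨x, χ⟩ := p
    have hχ : χ ≠ 0 := (hc2 _ List.mem_cons_self).1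
    let k1 : xk x N1 →ₗ[B] xk x N2 := i.restrict (xk_map x i)
    let k2 : xk x N2 →ₗ[B] xk x N3 := g.restrict (xk_map x g)
    let q1 : (N1 ⧸ xq x N1) →ₗ[B] (N2 ⧸ xq x N2) := (xq x N1).mapQ _ i (xq_map x i)
    let q2 : (N2 ⧸ xq x N2) →ₗ[B] (N3 ⧸ xq x N3) := (xq x N2).mapQ _ g (xq_map x g)
    have c1 : i.comp (LinearMap.lsmul B N1 x) = (LinearMap.lsmul B N2 x).comp i := by
      ext n; simp
    have c2 : g.comp (LinearMap.lsmul B N2 x) = (LinearMap.lsmul B N3 x).comp g := by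
      ext n; simp
    let δ : xk x N3 →ₗ[B] (N1 ⧸ xq x N1) := SnakeLemma.δ' _ _ _ i g he i g he c1 c2
      (xk x N3).subtype (LinearMap.exact_subtype_ker_map _) (xq x N1).mkQ
      (LinearMap.exact_map_mkQ_range _) hg hi
    have hδ : ∀ (a : xk x N3) (y : N2) (z : N1), g y = a → i z = x • y →
        δ a = Submodule.Quotient.mk z := fun a y z hy hz =>
      SnakeLemma.δ'_eq _ _ _ i g he i g he c1 c2 _ _ _ _ hg hi a y hy z hz
    have e1 : LinearMap.ker k1 = ⊥ := by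
      rw [LinearMap.ker_eq_bot]
      intro a b hab
      exact Subtype.ext (hi (congrArg Subtype.val hab))
    have e2 : LinearMap.ker k2 = LinearMap.range k1 := by
      ext a
      constructor
      · intro ha
        obtain ⟨m, hm⟩ := (he a).1 (congrArg Subtype.val ha)
        refine ⟨⟨m, mem_xk.2 (hi ?_)⟩, Subtype.ext hm⟩
        rw [map_smul, hm, map_zero]
        exact mem_xk.1 a.2
      · rintro ⟨m, rfl⟩
        exact Subtype.ext (he.apply_apply_eq_zero m)
    have e3 : LinearMap.ker δ = LinearMap.range k2 :=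
      (SnakeLemma.exact_δ'_right _ _ _ i g he i g he c1 c2 (xk x N2).subtype
        (LinearMap.exact_subtype_ker_map _) _ _ _ _ hg hi k2 (by ext; rfl)
        (Submodule.subtype_injective _)).linearMap_ker_eq
    have e4 : LinearMap.ker q1 = LinearMap.range δ :=
      (SnakeLemma.exact_δ'_left _ _ _ i g he i g he c1 c2 _ _ _ _ (xq x N2).mkQ
        (LinearMap.exact_map_mkQ_range _) hg hi q1 (LinearMap.ext fun _ => rfl)
        (Submodule.mkQ_surjective _)).linearMap_ker_eq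
    have e5 : LinearMap.ker q2 = LinearMap.range q1 := by
      ext a
      obtain ⟨a, rfl⟩ := Submodule.Quotient.mk_surjective _ a
      constructor
      · intro ha
        have ha' : g a ∈ xq x N3 := (Submodule.Quotient.mk_eq_zero _).1 ha
        obtain ⟨m, hm⟩ := mem_xq.1 ha'
        obtain ⟨m, rfl⟩ := hg m
        obtain ⟨c, hc⟩ := (he (a - x • m)).1 (by simp [hm])
        refine ⟨Submodule.Quotient.mk c, ?_⟩
        refine (Submodule.Quotient.eq _).2 (mem_xq.2 ⟨-m, ?_⟩)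
        rw [hc]; simp
      · rintro ⟨m, hm⟩
        obtain ⟨m, rfl⟩ := Submodule.Quotient.mk_surjective _ m
        rw [← hm]
        change Submodule.Quotient.mk (g (i m)) = 0
        rw [he.apply_apply_eq_zero]; rfl
    have e6 : LinearMap.range q2 = ⊤ := by
      rw [LinearMap.range_eq_top]
      intro a
      obtain ⟨a, rfl⟩ := Submodule.Quotient.mk_surjective _ a
      obtain ⟨a, rfl⟩ := hg a
      exact ⟨Submodule.Quotient.mk a, rfl⟩
    have r1 := ih.kr k1 (χ • smap _ _ φ1) (χ • smap _ _ φ2) (fun n => Subtype.ext (by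
      simp [k1, smap_coe hc1.xk_st, smap_coe hc2.xk_st, h1])) (hc1.hk.smul χ) ho1.hk
    have r2 := ih.kr k2 (χ • smap _ _ φ2) (χ • smap _ _ φ3) (fun n => Subtype.ext (by
      simp [k2, smap_coe hc3.xk_st, smap_coe hc2.xk_st, h3])) (hc2.hk.smul χ) ho2.hk
    have r3 := ih.kr δ (χ • smap _ _ φ3) (qmap _ _ φ1) (fun n => by
      obtain ⟨y, hy⟩ := hg n
      obtain ⟨z, hz⟩ := (he (x • y)).1 (by rw [map_smul, hy]; exact mem_xk.1 n.2)
      rw [hδ n y z hy hz, qmap_mk hc1.xq_st, hδ _ (χ • φ2 y) (φ1 z)]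
      · simp [smap_coe hc3.xk_st, ← hy, h3]
      · rw [← h1, hz, (hc2 _ List.mem_cons_self).2, smul_comm]) (hc3.hk.smul χ) ho3.hk
    have r4 := ih.kr q1 (qmap _ _ φ1) (qmap _ _ φ2) (fun n => by
      obtain ⟨n, rfl⟩ := Submodule.Quotient.mk_surjective _ n
      simp [q1, qmap_mk hc1.xq_st, qmap_mk hc2.xq_st, h1]) hc1.hq ho1.hq
    have r5 := ih.kr q2 (qmap _ _ φ2) (qmap _ _ φ3) (fun n => by
      obtain ⟨n, rfl⟩ := Submodule.Quotient.mk_surjective _ n
      simp [q2, qmap_mk hc3.xq_st, qmap_mk hc2.xq_st, h3]) hc2.hq ho2.hq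
    rw [e1, symS_bot, sym_smul _ _ _ _ hc1.hk] at r1
    rw [e2, sym_smul _ _ _ _ hc2.hk] at r2
    rw [e3, sym_smul _ _ _ _ hc3.hk] at r3
    rw [e4] at r4
    rw [e5, e6, symS_top _ _ hc3.hq] at r5
    simp only [sym_cons]
    linear_combination r5 - r2 + r1 + r3 - r4

section
variable [Algebra.FiniteType ℂ B]
variable {N : Type} [AddCommGroup N] [Module B N] [Module ℂ N] [IsScalarTower ℂ B N]
  [Module.Finite B N]

theorem sym_sub_quo (l : List (B × ℂ)) (U : Submodule B N) (φ : N →ₗ[ℂ] N)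
    (hU : ∀ n ∈ U, φ n ∈ U) (hc : Cmp l φ) (ho : Ok l N) :
    sym l N φ = sym l U (smap U U φ) + sym l (N ⧸ U) (qmap U U φ) :=
  addP l _ _ _ U.subtype U.mkQ _ _ _ U.subtype_injective U.mkQ_surjective
    (LinearMap.exact_subtype_mkQ U) (fun n => (smap_coe hU n).symm) (fun n => qmap_mk hU n) hc ho

theorem sym_cons_ok (p : B × ℂ) (l : List (B × ℂ)) (φ : N →ₗ[ℂ] N) (hc : Cmp (p :: l) φ)
    (ho : Ok l N) : sym (p :: l) N φ = (1 - p.2) * sym l N φ := by
  have r1 := (addP l).kr (LinearMap.lsmul B N p.1) (p.2 • φ) φ (fun n => by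
    simp [(hc p List.mem_cons_self).2, smul_comm p.1 p.2]) (hc.tail.smul _) ho
  have r2 := sym_sub_quo l (xq p.1 N) φ hc.xq_st hc.tail ho
  have r3 : symS l (xk p.1 N) (p.2 • φ) = p.2 * sym l (xk p.1 N) (smap _ _ φ) := by
    rw [← sym_smul _ _ _ _ hc.hk, symS]
    congr 1
    ext n
    rw [smap_coe (hc.smul _).xk_st, LinearMap.smul_apply, LinearMap.smul_apply,
      Submodule.coe_smul_of_tower, smap_coe hc.xk_st]
  rw [r3, sym_smul _ _ _ _ hc.tail, symS] at r1
  rw [sym_cons]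
  linear_combination r1 - r2

theorem Ok.append_left {N : Type} [AddCommGroup N] [Module B N] (l : List (B × ℂ))
    {l' : List (B × ℂ)} (h : Ok l' N) : Ok (l ++ l') N := by
  refine OkI.mono h (sup_le_sup_left ?_ _)
  rw [List.map_append, Ideal.ofList_append]
  exact le_sup_right

theorem sym_append_front (l l' : List (B × ℂ)) (φ : N →ₗ[ℂ] N) (hc : Cmp (l ++ l') φ)
    (ho : Ok l' N) : sym (l ++ l') N φ = (l.map fun p => 1 - p.2).prod * sym l' N φ := by
  induction l with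
  | nil => simp
  | cons p l ih =>
    rw [List.cons_append] at hc ⊢
    rw [sym_cons_ok p _ φ hc (ho.append_left l), ih hc.tail]
    simp [mul_assoc]

end

theorem sym_append_back [Algebra.FiniteType ℂ B] (l l' : List (B × ℂ)) :
    ∀ (N : Type) [AddCommGroup N] [Module B N] [Module ℂ N] [IsScalarTower ℂ B N]
      [Module.Finite B N] (φ : N →ₗ[ℂ] N), Cmp (l ++ l') φ → Ok l N →
      sym (l ++ l') N φ = (l'.map fun p => 1 - p.2).prod * sym l N φ := by
  have : IsNoetherianRing B := Algebra.FiniteType.isNoetherianRing ℂ B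
  induction l with
  | nil =>
    intro N _ _ _ _ _ φ hc ho
    have := sym_append_front l' [] φ (by simpa using hc) ho
    simpa using this
  | cons p l ih =>
    intro N _ _ _ _ _ φ hc ho
    rw [List.cons_append] at hc ⊢
    rw [sym_cons, sym_cons, ih _ _ hc.hq ho.hq, ih _ _ hc.hk ho.hk]
    ring

end Pool.Agent.Lib.MP_c89606_al
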