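import Pool.Agent.Lib.MP_c89606_al.Defs

/-! The presentation of the Cherednik algebra in a convenient form. -/

namespace Pool.Agent.Lib.MP_c89606_al
open Module

variable {V : Type} [AddCommGroup V] [Module ℂ V] {W : Subgroup (V ≃ₗ[ℂ] V)}

structure Dt (W : Subgroup (V ≃ₗ[ℂ] V)) : Type 1 extends Dat W where
  A : Type
  [ring : Ring A]
  [alg : Algebra ℂ A]
  G : Gen W A
  hG : G.IsRCA toDat

def Cher (d : Dt W) : Type := d.A

instance ringCher (d : Dt W) : Ring (Cher d) := d.ring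

instance algebraCher (d : Dt W) : Algebra ℂ (Cher d) := d.alg

abbrev Cen (d : Dt W) : Type := Subalgebra.center ℂ (Cher d)

def Dt.gn (d : Dt W) : Gen W (Cher d) := d.G

def gy (d : Dt W) (y : V) : Cher d := d.gn.y y

def gx (d : Dt W) : Dual ℂ V → Cher d := d.gn.x

def gw (d : Dt W) (w : W) : Cher d := d.gn.w w

abbrev Moves (d : Dt W) (g : V ≃ₗ[ℂ] V) (z z' : Cen d) : Prop := d.gn.Moves g z z'

noncomputable abbrev fixIdeal (d : Dt W) (τ : V ≃ₗ[ℂ] V) : Ideal (Cen d) := d.gn.fixIdeal τ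

abbrev BabyVerma (d : Dt W) {E : Type} [AddCommGroup E] [Module ℂ E] (ρ : Representation ℂ W E) :
    Type := d.gn.BabyVerma ρ

abbrev family (d : Dt W) (p : Cen d →ₐ[ℂ] ℂ) : Set (W → ℂ) := d.gn.family p

theorem Dt.hgn (d : Dt W) : d.gn.IsRCA d.toDat := d.hG

theorem mem_fixed {g : V ≃ₗ[ℂ] V} {v : V} : v ∈ fixed g ↔ g v = v := Iff.rfl

theorem inv_eq_symm (g : V ≃ₗ[ℂ] V) : g⁻¹ = g.symm := rfl

abbrev dl (g : V ≃ₗ[ℂ] V) : Dual ℂ V →ₗ[ℂ] Dual ℂ V := g.symm.toLinearMap.dualMap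

noncomputable def cj (g : V ≃ₗ[ℂ] V) (hg : g ∈ Subgroup.normalizer (W : Set (V ≃ₗ[ℂ] V))) :
    W ≃* W := W.normalizerMonoidHom ⟨g, hg⟩

theorem cj_coe (g : V ≃ₗ[ℂ] V) (hg : g ∈ Subgroup.normalizer (W : Set (V ≃ₗ[ℂ] V))) (w : W) :
    (cj g hg w : V ≃ₗ[ℂ] V) = g * w * g⁻¹ := rfl

theorem cj_apply (g : V ≃ₗ[ℂ] V) (hg : g ∈ Subgroup.normalizer (W : Set (V ≃ₗ[ℂ] V))) (w : W)
    (v : V) : (cj g hg w : V ≃ₗ[ℂ] V) (g v) = g ((w : V ≃ₗ[ℂ] V) v) := by
  simp [cj_coe]

theorem hyps_finite [Finite W] : (hyps W).Finite := by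
  refine (Set.finite_range fun w : W => fixed (w : V ≃ₗ[ℂ] V)).subset ?_
  rintro H ⟨s, hs, -, rfl⟩
  exact ⟨⟨s, hs⟩, rfl⟩

theorem ord_ne [Finite W] (H : Submodule ℂ V) : ord W H ≠ 0 :=
  Set.ncard_ne_zero_of_mem (a := 1) (fun _ _ => rfl) (Set.toFinite _)

variable (d : Dt W)

noncomputable def prj (H : Submodule ℂ V) : V →ₗ[ℂ] V :=
  (d.α H (d.β H))⁻¹ • (d.α H).smulRight (d.β H)

noncomputable def coef (H : Submodule ℂ V) (r : W) : ℂ :=
  ∑ j ∈ Finset.range (ord W H), (d.k H j - d.k H ((j + 1) % ord W H)) *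
    LinearMap.det (r : V ≃ₗ[ℂ] V).toLinearMap ^ j

open Classical in
noncomputable def bb [Finite W] (r : W) : V →ₗ[ℂ] V :=
  ∑ H ∈ (hyps_finite (W := W)).toFinset, if r ∈ stab W H then coef d H r • prj d H else 0

theorem brk_eq [Fintype W] (y : V) (x : Dual ℂ V) :
    brk d.toDat y x = ∑ r : W, x (bb d r y) • fw r := by
  classical
  rw [brk, finsum_mem_eq_finite_toFinset_sum _ hyps_finite]
  simp only [bb, LinearMap.sum_apply, map_sum, Finset.sum_smul]
  rw [Finset.sum_comm]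
  refine Finset.sum_congr rfl fun H _ => ?_
  have e1 : ∀ j, eps (W := W) H j = (ord W H : ℂ)⁻¹ • ∑ r : W,
      (if r ∈ stab W H then LinearMap.det (r : V ≃ₗ[ℂ] V).toLinearMap ^ j else 0) • fw r := by
    intro j
    rw [eps, finsum_mem_def, finsum_eq_sum_of_fintype]
    congr 1
    refine Finset.sum_congr rfl fun r _ => ?_
    rw [Set.indicator_apply]
    split_ifs <;> simp
  simp only [e1, Finset.smul_sum, smul_smul]
  rw [Finset.sum_comm]
  refine Finset.sum_congr rfl fun r _ => ?_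
  rw [← Finset.sum_smul]
  congr 1
  have h0 : (ord W H : ℂ) ≠ 0 := by exact_mod_cast ord_ne H
  split_ifs with h
  · simp only [coef, prj, LinearMap.smul_apply, LinearMap.smulRight_apply, map_smul, smul_eq_mul,
      Finset.sum_mul]
    refine Finset.sum_congr rfl fun j _ => ?_
    field_simp
  · simp

theorem coef_one (H : Submodule ℂ V) : coef d H 1 = 0 := by
  have : ((1 : W) : V ≃ₗ[ℂ] V).toLinearMap = LinearMap.id := rfl
  simp only [coef, this, LinearMap.det_id, one_pow, mul_one, Finset.sum_sub_distrib]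
  rcases h : ord W H with _ | n
  · simp
  · rw [Finset.sum_range_succ', Finset.sum_range_succ, Nat.mod_self, sub_eq_zero]
    congr 1
    refine Finset.sum_congr rfl fun j hj => ?_
    rw [Nat.mod_eq_of_lt (by simpa using hj)]

variable [FiniteDimensional ℂ V]

theorem IsRefl.ne_top {s : V ≃ₗ[ℂ] V} (h : IsRefl s) : fixed s ≠ ⊤ := by
  intro e
  rw [IsRefl, e, finrank_top] at h
  omega

variable {d}

omit [FiniteDimensional ℂ V] in
theorem mem_hyp {H : Submodule ℂ V} (hH : H ∈ hyps W) {v : V} : v ∈ H ↔ d.α H v = 0 := by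
  conv_lhs => rw [← d.hα H hH]
  exact LinearMap.mem_ker

theorem ab_ne {H : Submodule ℂ V} (hH : H ∈ hyps W) : d.α H (d.β H) ≠ 0 := by
  intro h
  have h1 : d.β H ∈ H := (mem_hyp hH).2 h
  have := (d.hβ _ hH).1.sup_eq_top
  rw [sup_eq_left.2 ((Submodule.span_singleton_le_iff_mem _ _).2 h1)] at this
  obtain ⟨s, -, hs, rfl⟩ := hH
  exact hs.ne_top this

theorem sub_mem_hyp {H : Submodule ℂ V} (hH : H ∈ hyps W) (y : V) :
    y - (d.α H y / d.α H (d.β H)) • d.β H ∈ H := by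
  rw [mem_hyp (d := d) hH, map_sub, map_smul, smul_eq_mul, div_mul_cancel₀ _ (ab_ne hH), sub_self]

theorem stab_form {H : Submodule ℂ V} (hH : H ∈ hyps W) {r : W} (hr : r ∈ stab W H) :
    ∃ c : ℂ, ∀ y, y - (r : V ≃ₗ[ℂ] V) y = (c * d.α H y) • d.β H := by
  obtain ⟨μ, hμ⟩ := Submodule.mem_span_singleton.1 ((d.hβ H hH).2 r hr)
  refine ⟨(1 - μ) / d.α H (d.β H), fun y => ?_⟩
  have h1 := hr _ (sub_mem_hyp (d := d) hH y)
  rw [map_sub, map_smul, ← hμ, sub_eq_iff_eq_add] at h1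
  rw [h1]
  module

theorem stab_form' {H : Submodule ℂ V} (hH : H ∈ hyps W) {r : W} (hr : r ∈ stab W H) (h1 : r ≠ 1) :
    ∃ c : ℂ, c ≠ 0 ∧ ∀ y, y - (r : V ≃ₗ[ℂ] V) y = (c * d.α H y) • d.β H := by
  obtain ⟨c, hc⟩ := stab_form (d := d) hH hr
  refine ⟨c, ?_, hc⟩
  rintro rfl
  refine h1 (Subtype.ext (LinearEquiv.ext fun y => ?_))
  have := hc y
  rw [zero_mul, zero_smul, sub_eq_zero] at this
  exact this.symm

theorem b_ne {H : Submodule ℂ V} (hH : H ∈ hyps W) : d.β H ≠ 0 := fun h =>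
  ab_ne (d := d) hH (by rw [h, map_zero])

theorem stab_fixed (d : Dt W) {H : Submodule ℂ V} (hH : H ∈ hyps W) {r : W} (hr : r ∈ stab W H)
    (h1 : r ≠ 1) : fixed (r : V ≃ₗ[ℂ] V) = H := by
  obtain ⟨c, hc, h⟩ := stab_form' (d := d) hH hr h1
  ext v
  rw [mem_fixed, mem_hyp (d := d) hH, eq_comm, ← sub_eq_zero, h]
  simp [hc, b_ne hH]

theorem good [Finite W] (d : Dt W) (r : W) : bb d r = 0 ∨ ∃ (α : Dual ℂ V) (β : V) (γ c c' : ℂ),
    α ≠ 0 ∧ β ≠ 0 ∧ c ≠ 0 ∧ c' ≠ 0 ∧ (∀ y, bb d r y = (γ * α y) • β) ∧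
    (∀ y, y - (r : V ≃ₗ[ℂ] V) y = (c * α y) • β) ∧
    (∀ y, y - (r : V ≃ₗ[ℂ] V).symm y = (c' * α y) • β) := by
  classical
  by_cases h1 : r = 1
  · left; simp [bb, h1, coef_one]
  by_cases h2 : ∃ H ∈ hyps W, r ∈ stab W H
  · right
    obtain ⟨H, hH, hr⟩ := h2
    obtain ⟨c, hc, h⟩ := stab_form' (d := d) hH hr h1
    obtain ⟨c', hc', h'⟩ := stab_form' (d := d) (r := r⁻¹) hH (fun v hv => by
      apply (r : V ≃ₗ[ℂ] V).injective
      rw [hr v hv]; simp) (by simpa using h1)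
    refine ⟨d.α H, d.β H, coef d H r * (d.α H (d.β H))⁻¹, c, c', fun e => ab_ne (d := d) hH (by
      rw [e]; rfl), b_ne hH, hc, hc', fun y => ?_, h, h'⟩
    rw [bb, Finset.sum_eq_single H]
    · simp [hr, prj, smul_smul, mul_assoc]
    · intro H' hH' hne
      rw [Set.Finite.mem_toFinset] at hH'
      rw [if_neg fun hr' => hne ((stab_fixed d hH' hr' h1).symm.trans (stab_fixed d hH hr h1))]
    · intro h
      exact (h ((Set.Finite.mem_toFinset _).2 hH)).elim
  · left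
    refine Finset.sum_eq_zero fun H hH => ?_
    rw [Set.Finite.mem_toFinset] at hH
    rw [if_neg fun hr => h2 ⟨H, hH, hr⟩]

section Equivariance
variable {g : V ≃ₗ[ℂ] V} (hg : g ∈ Subgroup.normalizer (W : Set (V ≃ₗ[ℂ] V)))

omit [FiniteDimensional ℂ V] in
theorem cj_stab (H : Submodule ℂ V) (r : W) :
    cj g hg r ∈ stab W (H.map g.toLinearMap) ↔ r ∈ stab W H := by
  constructor
  · intro h v hv
    have := h (g v) ⟨v, hv, rfl⟩
    rw [cj_apply] at this
    exact g.injective this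
  · rintro h _ ⟨v, hv, rfl⟩
    exact (cj_apply g hg r v).trans (congrArg g (h v hv))

omit [FiniteDimensional ℂ V] in
include hg in
theorem ord_map (H : Submodule ℂ V) : ord W (H.map g.toLinearMap) = ord W H := by
  rw [ord, ord, ← Set.ncard_image_of_injective (stab W H) (cj g hg).injective]
  congr 1
  ext r
  obtain ⟨r, rfl⟩ := (cj g hg).surjective r
  rw [cj_stab, (cj g hg).injective.mem_set_image]

omit [FiniteDimensional ℂ V] in
theorem fixed_conj (g s : V ≃ₗ[ℂ] V) : fixed (g * s * g⁻¹) = (fixed s).map g.toLinearMap := by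
  ext v
  obtain ⟨v, rfl⟩ := g.surjective v
  rw [mem_fixed]
  simp [mem_fixed]

omit [FiniteDimensional ℂ V] in
include hg in
theorem hyps_map {H : Submodule ℂ V} (hH : H ∈ hyps W) : H.map g.toLinearMap ∈ hyps W := by
  obtain ⟨s, hs, hr, rfl⟩ := hH
  refine ⟨g * s * g⁻¹, (hg s).1 hs, ?_, fixed_conj g s⟩
  rw [IsRefl, fixed_conj, LinearEquiv.finrank_map_eq]
  exact hr

include hg in
theorem prj_map {H : Submodule ℂ V} (hH : H ∈ hyps W) (y : V) :
    prj d (H.map g.toLinearMap) (g y) = g (prj d H y) := by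
  have hH' := hyps_map hg hH
  set H' := H.map g.toLinearMap with hdef
  obtain ⟨t, ht, hr, hfix⟩ := id hH
  have t1 : (⟨t, ht⟩ : W) ∈ stab W H := fun v hv => by rw [← hfix] at hv; exact hv
  have t2 : (⟨t, ht⟩ : W) ≠ 1 := fun e => hr.ne_top (by
    rw [show t = 1 from congrArg Subtype.val e, eq_top_iff]
    exact fun _ _ => rfl)
  obtain ⟨c, hc, h⟩ := stab_form' (d := d) hH t1 t2
  obtain ⟨c', h'⟩ := stab_form (d := d) hH' ((cj_stab hg H _).2 t1)
  have h1 := h' (g (d.β H))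
  rw [cj_apply, ← map_sub, h, map_smul] at h1
  have h0 := mul_ne_zero hc (ab_ne (d := d) hH)
  obtain ⟨μ, hμ⟩ : ∃ μ : ℂ, g (d.β H) = μ • d.β H' :=
    ⟨(c * d.α H (d.β H))⁻¹ * (c' * d.α H' (g (d.β H))), by
      rw [mul_smul, ← h1, smul_smul, inv_mul_cancel₀ h0, one_smul]⟩
  have h2 : d.α H' (g (y - (d.α H y / d.α H (d.β H)) • d.β H)) = 0 :=
    (mem_hyp hH').1 ⟨_, sub_mem_hyp hH y, rfl⟩
  rw [map_sub, map_sub, map_smul, map_smul, hμ, map_smul, sub_eq_zero] at h2
  simp only [prj, LinearMap.smul_apply, LinearMap.smulRight_apply, map_smul, hμ, h2, smul_smul,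
    smul_eq_mul]
  congr 1
  have := ab_ne (d := d) hH'
  field_simp

variable (hk : ∀ H ∈ hyps W, ∀ j < ord W H, d.k (H.map g.toLinearMap) j = d.k H j)

omit [FiniteDimensional ℂ V] in
include hk in
theorem coef_map [Finite W] {H : Submodule ℂ V} (hH : H ∈ hyps W) (r : W) :
    coef d (H.map g.toLinearMap) (cj g hg r) = coef d H r := by
  rw [coef, coef, ord_map hg]
  refine Finset.sum_congr rfl fun j hj => ?_
  rw [hk H hH j (Finset.mem_range.1 hj), hk H hH _ (Nat.mod_lt _ (Nat.pos_of_ne_zero (ord_ne H)))]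
  congr 2
  exact LinearMap.det_conj (r : V ≃ₗ[ℂ] V).toLinearMap g

include hk in
theorem bb_map [Finite W] (r : W) (y : V) : bb d (cj g hg r) (g y) = g (bb d r y) := by
  classical
  simp only [bb, LinearMap.sum_apply, map_sum]
  symm
  refine Finset.sum_bij (fun H _ => H.map g.toLinearMap) (fun H hH => ?_) (fun H _ H' _ h => ?_)
    (fun H hH => ?_) (fun H hH => ?_)
  · rw [Set.Finite.mem_toFinset] at hH ⊢
    exact hyps_map hg hH
  · exact Submodule.map_injective_of_injective g.injective h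
  · rw [Set.Finite.mem_toFinset] at hH
    refine ⟨H.map (g⁻¹).toLinearMap,
      (Set.Finite.mem_toFinset _).2 (hyps_map (Subgroup.inv_mem _ hg) hH), ?_⟩
    rw [← Submodule.map_comp]
    have : g.toLinearMap ∘ₗ (g⁻¹).toLinearMap = LinearMap.id := by ext; simp
    rw [this, Submodule.map_id]
  · rw [Set.Finite.mem_toFinset] at hH
    simp only [cj_stab]
    split_ifs
    · rw [LinearMap.smul_apply, LinearMap.smul_apply, coef_map hg hk hH, prj_map hg hH, map_smul]
    · simp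

end Equivariance

theorem bb_conj [Finite W] (d : Dt W) (w r : W) (y : V) :
    bb d (w * r * w⁻¹) ((w : V ≃ₗ[ℂ] V) y) = (w : V ≃ₗ[ℂ] V) (bb d r y) :=
  bb_map (W.le_normalizer w.2) (d.hk w w.2) r y

structure Rp [Fintype W] (d : Dt W) (A : Type) [Ring A] [Algebra ℂ A] where
  Y : V →ₗ[ℂ] A
  X : Dual ℂ V →ₗ[ℂ] A
  G : W →* A
  wy : ∀ w y, G w * Y y = Y ((w : V ≃ₗ[ℂ] V) y) * G w
  wx : ∀ w x, G w * X x = X (dl w x) * G w
  xx : ∀ x x', X x * X x' = X x' * X x
  yy : ∀ y y', Y y * Y y' = Y y' * Y y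
  yx : ∀ y x, Y y * X x - X x * Y y = ∑ r : W, x (bb d r y) • G r

noncomputable def mkC (d : Dt W) : Fr W →ₐ[ℂ] Cher d :=
  d.hgn.choose.toAlgHom.comp (RingQuot.mkAlgHom ℂ (Rel d.toDat))

omit [FiniteDimensional ℂ V] in
theorem mkC_rel {d : Dt W} {a b : Fr W} (h : Rel d.toDat a b) : mkC d a = mkC d b :=
  congrArg d.hgn.choose (RingQuot.mkAlgHom_rel ℂ h)

omit [FiniteDimensional ℂ V] in
theorem mkC_surj (d : Dt W) : Function.Surjective (mkC d) :=
  d.hgn.choose.surjective.comp (RingQuot.mkAlgHom_surjective ℂ _)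

omit [FiniteDimensional ℂ V] in
theorem mkC_eq (d : Dt W) (a : Fr W) :
    mkC d a = d.hgn.choose (RingQuot.mkRingHom (Rel d.toDat) a) := by
  exact congrArg d.hgn.choose (DFunLike.congr_fun (RingQuot.mkAlgHom_coe ℂ (Rel d.toDat)) a)

omit [FiniteDimensional ℂ V] in
theorem mkC_y (d : Dt W) (y : V) : mkC d (fy y) = gy d y :=
  (mkC_eq d _).trans (d.hgn.choose_spec.1 y)

omit [FiniteDimensional ℂ V] in
theorem mkC_x (d : Dt W) (y : Dual ℂ V) : mkC d (fx y) = gx d y :=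
  (mkC_eq d _).trans (d.hgn.choose_spec.2.1 y)

omit [FiniteDimensional ℂ V] in
theorem mkC_w (d : Dt W) (y : W) : mkC d (fw y) = gw d y :=
  (mkC_eq d _).trans (d.hgn.choose_spec.2.2 y)

def linOf {L M : Type} [AddCommGroup L] [Module ℂ L] [AddCommGroup M] [Module ℂ M] (f : L → M)
    (h : ∀ (c : ℂ) a b, f (c • a + b) = c • f a + f b) : L →ₗ[ℂ] M where
  toFun := f
  map_add' a b := by simpa using h 1 a b
  map_smul' c a := by
    have h0 : f 0 = 0 := by simpa using h 1 0 0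
    simpa [h0] using h c a 0

noncomputable def cR [Fintype W] (d : Dt W) : Rp d (Cher d) where
  Y := linOf (gy d) fun c y y' => by
    simpa only [map_add, map_smul, mkC_y] using mkC_rel (d := d) (Rel.liny c y y')
  X := linOf (gx d) fun c y y' => by
    simpa only [map_add, map_smul, mkC_x] using mkC_rel (d := d) (Rel.linx c y y')
  G :=
    { toFun := gw d
      map_one' := by simpa only [map_one, mkC_w] using mkC_rel (d := d) Rel.one
      map_mul' := fun a b => by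
        simpa only [map_mul, mkC_w] using (mkC_rel (d := d) (Rel.mul a b)).symm }
  wy w y := by
    have := mkC_rel (d := d) (Rel.wy w y)
    simp only [map_mul, mkC_w, mkC_y] at this
    exact this
  wx w x := by
    have := mkC_rel (d := d) (Rel.wx w x)
    simp only [map_mul, mkC_w, mkC_x] at this
    exact this
  xx x x' := by
    have := mkC_rel (d := d) (Rel.xx x x')
    simp only [map_mul, mkC_x] at this
    exact this
  yy y y' := by
    have := mkC_rel (d := d) (Rel.yy y y')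
    simp only [map_mul, mkC_y] at this
    exact this
  yx y x := by
    have := mkC_rel (d := d) (Rel.yx y x)
    rw [brk_eq, map_sub, map_mul, map_mul, map_sum] at this
    simp only [map_smul, mkC_x, mkC_y, mkC_w] at this
    exact this

variable [Fintype W]

omit [FiniteDimensional ℂ V] in
theorem cR_Y (d : Dt W) (y : V) : (cR d).Y y = gy d y := rfl

omit [FiniteDimensional ℂ V] in
theorem cR_X (d : Dt W) (x : Dual ℂ V) : (cR d).X x = gx d x := rfl

omit [FiniteDimensional ℂ V] in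
theorem cR_G (d : Dt W) (w : W) : (cR d).G w = gw d w := rfl

omit [FiniteDimensional ℂ V] in
theorem Rp.exists_lift {d : Dt W} {A : Type} [Ring A] [Algebra ℂ A] (R : Rp d A) :
    ∃ a : Cher d →ₐ[ℂ] A, (∀ y, a ((cR d).Y y) = R.Y y) ∧ (∀ x, a ((cR d).X x) = R.X x) ∧
      ∀ w, a ((cR d).G w) = R.G w := by
  let f : Fr W →ₐ[ℂ] A := FreeAlgebra.lift ℂ (Sum.elim R.Y (Sum.elim R.X R.G))
  have f1 : ∀ y, f (fy y) = R.Y y := fun y => by simp [f, fy]
  have f2 : ∀ x, f (fx x) = R.X x := fun x => by simp [f, fx]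
  have f3 : ∀ w, f (fw w) = R.G w := fun w => by simp [f, fw]
  have hf : ∀ ⦃a b⦄, Rel d.toDat a b → f a = f b := by
    intro a b h
    induction h with
    | liny c y y' => simp [f1]
    | linx c y y' => simp [f2]
    | one => simp [f3]
    | mul a b => simp [f3]
    | wy w y => simp only [map_mul, f1, f3]; exact R.wy w y
    | wx w x => simp only [map_mul, f2, f3]; exact R.wx w x
    | xx x x' => simp only [map_mul, f2]; exact R.xx x x'
    | yy y y' => simp only [map_mul, f1]; exact R.yy y y'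
    | yx y x =>
      rw [brk_eq]
      simp only [map_sub, map_mul, f1, f2, map_sum, map_smul, f3]
      exact R.yx y x
  have key : ∀ u, (RingQuot.liftAlgHom ℂ ⟨f, hf⟩).comp d.hgn.choose.symm.toAlgHom (mkC d u) = f u :=
    fun u => (congrArg (RingQuot.liftAlgHom ℂ ⟨f, hf⟩) (d.hgn.choose.symm_apply_apply _)).trans
      (RingQuot.liftAlgHom_mkAlgHom_apply ℂ f hf _)
  refine ⟨(RingQuot.liftAlgHom ℂ ⟨f, hf⟩).comp d.hgn.choose.symm.toAlgHom, fun y => ?_, fun x => ?_,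
    fun w => ?_⟩
  · rw [cR_Y, ← mkC_y, key, f1]
  · rw [cR_X, ← mkC_x, key, f2]
  · rw [cR_G, ← mkC_w, key, f3]

omit [FiniteDimensional ℂ V] in
theorem cher_top {d : Dt W} (S : Subalgebra ℂ (Cher d)) (h1 : ∀ y, (cR d).Y y ∈ S)
    (h2 : ∀ x, (cR d).X x ∈ S) (h3 : ∀ w, (cR d).G w ∈ S) (h : Cher d) : h ∈ S := by
  obtain ⟨a, rfl⟩ := mkC_surj d h
  induction a using FreeAlgebra.induction with
  | grade0 r => rw [AlgHom.commutes]; exact S.algebraMap_mem r
  | mul a b ha hb => rw [map_mul]; exact S.mul_mem ha hb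
  | add a b ha hb => rw [map_add]; exact S.add_mem ha hb
  | grade1 m =>
    rcases m with y | x | w
    · exact (mkC_y d y).symm ▸ h1 y
    · exact (mkC_x d x).symm ▸ h2 x
    · exact (mkC_w d w).symm ▸ h3 w

omit [FiniteDimensional ℂ V] in
theorem cher_ext {d : Dt W} {A : Type} [Ring A] [Algebra ℂ A] {a b : Cher d →ₐ[ℂ] A}
    (h1 : ∀ y, a ((cR d).Y y) = b ((cR d).Y y)) (h2 : ∀ x, a ((cR d).X x) = b ((cR d).X x))
    (h3 : ∀ w, a ((cR d).G w) = b ((cR d).G w)) : a = b :=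
  AlgHom.ext (cher_top (AlgHom.equalizer a b) h1 h2 h3)

omit [FiniteDimensional ℂ V] in
theorem cher_comm {d : Dt W} {z : Cher d} (h1 : ∀ y, (cR d).Y y * z = z * (cR d).Y y)
    (h2 : ∀ x, (cR d).X x * z = z * (cR d).X x) (h3 : ∀ w, (cR d).G w * z = z * (cR d).G w) :
    z ∈ Subalgebra.center ℂ (Cher d) := by
  rw [Subalgebra.mem_center_iff]
  intro h
  have := cher_top (Subalgebra.centralizer ℂ {z}) 
    (fun y => by simpa [Subalgebra.mem_centralizer_iff] using (h1 y).symm)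
    (fun y => by simpa [Subalgebra.mem_centralizer_iff] using (h2 y).symm)
    (fun y => by simpa [Subalgebra.mem_centralizer_iff] using (h3 y).symm) h
  simpa using ((Subalgebra.mem_centralizer_iff ℂ).1 this z rfl).symm

def IsAct (d : Dt W) (g : V ≃ₗ[ℂ] V) (hg : g ∈ Subgroup.normalizer (W : Set (V ≃ₗ[ℂ] V)))
    (a : Cher d →ₐ[ℂ] Cher d) : Prop :=
  (∀ y, a ((cR d).Y y) = (cR d).Y (g y)) ∧ (∀ x, a ((cR d).X x) = (cR d).X (dl g x)) ∧
    ∀ w, a ((cR d).G w) = (cR d).G (cj g hg w)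

theorem exists_act (d : Dt W) {g : V ≃ₗ[ℂ] V}
    (hg : g ∈ Subgroup.normalizer (W : Set (V ≃ₗ[ℂ] V)))
    (hk : ∀ H ∈ hyps W, ∀ j < ord W H, d.k (H.map g.toLinearMap) j = d.k H j) :
    ∃ a, IsAct d g hg a := by
  let R : Rp d (Cher d) :=
    { Y := (cR d).Y ∘ₗ g.toLinearMap
      X := (cR d).X ∘ₗ dl g
      G := (cR d).G.comp (cj g hg).toMonoidHom
      wy := fun w y => by
        have := (cR d).wy (cj g hg w) (g y)
        rw [cj_apply] at this
        exact this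
      wx := fun w x => by
        have := (cR d).wx (cj g hg w) (dl g x)
        have e : dl (cj g hg w : V ≃ₗ[ℂ] V) (dl g x) = dl g (dl w x) := by
          ext v; simp [cj_coe, LinearEquiv.mul_eq_trans, inv_eq_symm]
        rw [e] at this
        exact this
      xx := fun _ _ => (cR d).xx _ _
      yy := fun _ _ => (cR d).yy _ _
      yx := fun y x => by
        have := (cR d).yx (g y) (dl g x)
        rw [← Equiv.sum_comp (cj g hg).toEquiv] at this
        refine this.trans (Finset.sum_congr rfl fun r _ => ?_)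
        have e := bb_map hg hk r y
        simp [e] }
  exact R.exists_lift

omit [FiniteDimensional ℂ V] in
theorem IsAct.moves {d : Dt W} {g : V ≃ₗ[ℂ] V}
    {hg : g ∈ Subgroup.normalizer (W : Set (V ≃ₗ[ℂ] V))} {a : Cher d →ₐ[ℂ] Cher d}
    (h : IsAct d g hg a) (z z' : Cen d) : Moves d g z z' ↔ a z = z' := by
  constructor
  · rintro ⟨b, h1, h2, h3, h4⟩
    rw [← h4, cher_ext (a := a) (b := b) (fun y => (h.1 y).trans (h1 y).symm)
      (fun y => (h.2.1 y).trans (h2 y).symm) (fun w => (h.2.2 w).trans (h3 w _ rfl).symm)]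
  · intro e
    refine ⟨a, h.1, h.2.1, fun w w' hw => ?_, e⟩
    rw [show w' = cj g hg w from Subtype.ext hw]
    exact h.2.2 w

omit [FiniteDimensional ℂ V] in
theorem IsAct.surj {d : Dt W} {g : V ≃ₗ[ℂ] V}
    {hg : g ∈ Subgroup.normalizer (W : Set (V ≃ₗ[ℂ] V))} {a : Cher d →ₐ[ℂ] Cher d}
    (h : IsAct d g hg a) : Function.Surjective a := by
  refine cher_top a.range (fun y => ⟨(cR d).Y (g.symm y), ?_⟩)
    (fun x => ⟨(cR d).X (dl g.symm x), ?_⟩) (fun w => ⟨(cR d).G ((cj g hg).symm w), ?_⟩)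
  · exact (h.1 _).trans (by simp)
  · refine (h.2.1 _).trans (congrArg _ ?_)
    ext v; simp
  · exact (h.2.2 _).trans (by simp)

omit [FiniteDimensional ℂ V] in
theorem IsAct.comp_eq {d : Dt W} {g : V ≃ₗ[ℂ] V}
    {hg : g ∈ Subgroup.normalizer (W : Set (V ≃ₗ[ℂ] V))} {a b : Cher d →ₐ[ℂ] Cher d}
    (h : IsAct d g hg a) (h' : IsAct d g⁻¹ (Subgroup.inv_mem _ hg) b) (z : Cher d) :
    b (a z) = z := by
  have : b.comp a = AlgHom.id ℂ _ := by
    refine cher_ext (fun y => ?_) (fun x => ?_) (fun w => ?_)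
    · simp [h.1, h'.1]
    · rw [AlgHom.comp_apply, h.2.1, h'.2.1]
      refine congrArg _ ?_
      ext v; simp [inv_eq_symm]
    · rw [AlgHom.comp_apply, h.2.2, h'.2.2]
      refine congrArg _ (Subtype.ext ?_)
      simp [cj_coe, mul_assoc]
  exact congr($this z)

omit [FiniteDimensional ℂ V] in
theorem IsAct.pow_eq {d : Dt W} {g : V ≃ₗ[ℂ] V}
    {hg : g ∈ Subgroup.normalizer (W : Set (V ≃ₗ[ℂ] V))} {a : Cher d →ₐ[ℂ] Cher d}
    (h : IsAct d g hg a) (n : ℕ) : IsAct d (g ^ n) (Subgroup.pow_mem _ hg n) (a ^ n) := by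
  induction n with
  | zero =>
    refine ⟨fun y => rfl, fun x => rfl, fun w => congrArg (cR d).G (Subtype.ext ?_)⟩
    simp [cj_coe]
  | succ n ih =>
    refine ⟨fun y => ?_, fun x => ?_, fun w => ?_⟩
    · rw [pow_succ a, AlgHom.mul_apply, h.1, ih.1, pow_succ]; rfl
    · rw [pow_succ a, AlgHom.mul_apply, h.2.1, ih.2.1, pow_succ]; rfl
    · rw [pow_succ a, AlgHom.mul_apply, h.2.2, ih.2.2]
      refine congrArg _ (Subtype.ext ?_)
      simp [cj_coe, pow_succ, mul_assoc]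

noncomputable def cenMap {H : Type} [Ring H] [Algebra ℂ H] (a : H →ₐ[ℂ] H)
    (ha : Function.Surjective a) : Subalgebra.center ℂ H →ₐ[ℂ] Subalgebra.center ℂ H :=
  (a.comp (Subalgebra.center ℂ H).val).codRestrict _ fun z => by
    rw [Subalgebra.mem_center_iff]
    intro h
    obtain ⟨h, rfl⟩ := ha h
    simp only [AlgHom.comp_apply, Subalgebra.coe_val, ← map_mul]
    rw [Subalgebra.mem_center_iff.1 z.2 h]

@[simp] theorem cenMap_coe {H : Type} [Ring H] [Algebra ℂ H] (a : H →ₐ[ℂ] H)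
    (ha : Function.Surjective a) (z : Subalgebra.center ℂ H) : (cenMap a ha z : H) = a z := rfl

end Pool.Agent.Lib.MP_c89606_al
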