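import Pool.Agent.Lib.MP_c89606_al.Dev

/-! Character theory of finite groups. -/

namespace Pool.Agent.Lib.MP_c89606_al
open Function Representation

variable {G : Type} [Group G]

def Irr (G : Type) [Group G] : Set (G → ℂ) :=
  {χ | ∃ (E : Type) (_ : AddCommGroup E) (_ : Module ℂ E) (_ : FiniteDimensional ℂ E)
    (ρ : Representation ℂ G E), ρ.IsIrreducible ∧ ρ.character = χ}

section
variable {E : Type} [AddCommGroup E] [Module ℂ E] [FiniteDimensional ℂ E]

theorem schur (ρ : Representation ℂ G E) [ρ.IsIrreducible] (A : Module.End ℂ E)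
    (h : ∀ g, A * ρ g = ρ g * A) : ∃ c : ℂ, A = c • 1 := by
  obtain ⟨c, hc⟩ := (IsIrreducible.algebraMap_intertwiningMap_bijective_of_isAlgClosed
    (ρ := ρ)).2 ⟨A, h⟩
  refine ⟨c, ?_⟩
  have := congrArg IntertwiningMap.toLinearMap hc
  rw [Algebra.algebraMap_eq_smul_one] at this
  exact this.symm

omit [FiniteDimensional ℂ E] in
theorem irr_nontrivial (ρ : Representation ℂ G E) [h : ρ.IsIrreducible] : Nontrivial E := by
  by_contra hn
  rw [not_nontrivial_iff_subsingleton] at hn
  obtain ⟨a, b, hab⟩ := h.toNontrivial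
  exact hab (Subrepresentation.toSubmodule_injective (Subsingleton.elim _ _))

theorem char_one_ne (ρ : Representation ℂ G E) [ρ.IsIrreducible] : ρ.character 1 ≠ 0 := by
  have := irr_nontrivial ρ
  rw [char_one]
  exact_mod_cast Module.finrank_pos.ne'

theorem trace_inv_conj (T T' : Module.End ℂ E) (n : ℕ) (hn : 0 < n) (hT : T ^ n = 1)
    (h : T' * T = 1) :
    LinearMap.trace ℂ E T' = (starRingEnd ℂ) (LinearMap.trace ℂ E T) := by
  classical
  obtain ⟨F, -, hF⟩ := exists_roots n hn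
  have htop : ⨆ μ, T.eigenspace μ = ⊤ := by
    rw [eq_top_iff]
    intro v _
    refine eig_induction T _ F (fun c _ w hw => ?_) v (by rw [hF T hT]; rfl)
    exact Submodule.mem_iSup_of_mem c (Module.End.mem_eigenspace_iff.2 hw)
  have hi := T.eigenspaces_iSupIndep
  have hds := DirectSum.isInternal_submodule_of_iSupIndep_of_iSup_eq_top hi htop
  have hfin := Submodule.finite_ne_bot_of_iSupIndep hi
  have key : ∀ μ v, T v = μ • v → T' v = (starRingEnd ℂ) μ • v := by
    intro μ v hv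
    by_cases h0 : v = 0
    · simp [h0]
    have h1 : μ ^ n = 1 := by
      have := (Module.End.HasEigenvector.pow_apply
        ⟨Module.End.mem_eigenspace_iff.2 hv, h0⟩ n : (T ^ n) v = μ ^ n • v)
      rw [hT] at this
      exact (smul_left_injective ℂ h0 (by simpa using this)).symm
    have h2 := Complex.norm_eq_one_of_pow_eq_one h1 hn.ne'
    have h3 : μ ≠ 0 := by rintro rfl; simp at h2
    have h4 := congr($h v)
    rw [Module.End.mul_apply, hv, map_smul, Module.End.one_apply] at h4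
    rw [← Complex.inv_eq_conj h2, eq_inv_smul_iff₀ h3, h4]
  have m1 : ∀ μ, Set.MapsTo T (T.eigenspace μ) (T.eigenspace μ) := fun μ v hv => by
    rw [Module.End.mem_eigenspace_iff.1 hv]
    exact Submodule.smul_mem _ _ hv
  have m2 : ∀ μ, Set.MapsTo T' (T.eigenspace μ) (T.eigenspace μ) := fun μ v hv => by
    rw [key μ v (Module.End.mem_eigenspace_iff.1 hv)]
    exact Submodule.smul_mem _ _ hv
  rw [LinearMap.trace_eq_sum_trace_restrict' hds hfin m1,
    LinearMap.trace_eq_sum_trace_restrict' hds hfin m2, map_sum]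
  refine Finset.sum_congr rfl fun μ _ => ?_
  have e1 : T.restrict (m1 μ) = μ • LinearMap.id := by
    ext v; simp [Module.End.mem_eigenspace_iff.1 v.2]
  have e2 : T'.restrict (m2 μ) = (starRingEnd ℂ) μ • LinearMap.id := by
    ext v; simp [key μ v (Module.End.mem_eigenspace_iff.1 v.2)]
  rw [e1, e2]
  simp

end

variable [Fintype G]

theorem card_ne : (Fintype.card G : ℂ) ≠ 0 := by exact_mod_cast Fintype.card_ne_zero

open Classical in
theorem irr_orth {χ ψ : G → ℂ} (hχ : χ ∈ Irr G) (hψ : ψ ∈ Irr G) :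
    ∑ g, χ g * ψ g⁻¹ = if χ = ψ then (Fintype.card G : ℂ) else 0 := by
  obtain ⟨E, _, _, _, ρ, hρ, rfl⟩ := hχ
  obtain ⟨E', _, _, _, σ, hσ, rfl⟩ := hψ
  have hc : (Nat.card G : ℂ) ≠ 0 := by rw [Nat.card_eq_fintype_card]; exact card_ne
  let : Invertible (Nat.card G : ℂ) := invertibleOfNonzero hc
  split_ifs with h
  · have := char_orthonormal ρ ρ
    rw [if_pos ⟨Representation.Equiv.refl ρ⟩, inv_mul_eq_iff_eq_mul₀ hc] at this
    rw [← h, this]; simp
  · have := char_orthonormal ρ σ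
    rw [if_neg (fun ⟨e⟩ => h (char_iso e).symm)] at this
    simpa [card_ne] using this

theorem irr_finite : (Irr G).Finite := by
  have : LinearIndependent ℂ (fun χ : Irr G => (χ : G → ℂ)) := by
    rw [linearIndependent_iff']
    intro s a ha i hi
    have h1 : ∑ g, (∑ j ∈ s, a j • (j : G → ℂ)) g * (i : G → ℂ) g⁻¹ = 0 := by
      rw [ha]; simp
    simp only [Finset.sum_apply, Pi.smul_apply, smul_eq_mul, Finset.sum_mul, mul_assoc] at h1
    rw [Finset.sum_comm] at h1
    simp only [← Finset.mul_sum] at h1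
    rw [Finset.sum_eq_single i] at h1
    · rw [irr_orth i.2 i.2, if_pos rfl] at h1
      exact (mul_eq_zero.1 h1).resolve_right card_ne
    · intro j _ hj
      rw [irr_orth j.2 i.2, if_neg (fun e => hj (Subtype.ext e)), mul_zero]
    · exact fun h => (h hi).elim
  exact Set.finite_coe_iff.1 this.finite_of_isNoetherian

theorem eq_zero_of_irr (u : G → ℂ)
    (h : ∀ (E : Type) [AddCommGroup E] [Module ℂ E] [FiniteDimensional ℂ E]
      (ρ : Representation ℂ G E), ρ.IsIrreducible → ∑ g, u g • ρ g = 0) : u = 0 := by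
  have : NeZero (Nat.card G : ℂ) := ⟨by rw [Nat.card_eq_fintype_card]; exact card_ne⟩
  have key : ∀ n, ∀ (E : Type) [AddCommGroup E] [Module ℂ E] [FiniteDimensional ℂ E]
      (ρ : Representation ℂ G E), Module.finrank ℂ E = n → ∑ g, u g • ρ g = 0 := by
    intro n
    induction n using Nat.strong_induction_on with
    | _ n ih =>
      intro E _ _ _ ρ hn
      by_cases hi : ρ.IsIrreducible
      · exact h E ρ hi
      by_cases hb : (⊥ : Subrepresentation ρ) = ⊤
      · have : (⊥ : Submodule ℂ E) = ⊤ := congrArg Subrepresentation.toSubmodule hb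
        have := Submodule.subsingleton_iff ℂ |>.1 (subsingleton_of_bot_eq_top this)
        exact Subsingleton.elim _ _
      obtain ⟨σ, h1, h2⟩ : ∃ σ : Subrepresentation ρ, σ ≠ ⊥ ∧ σ ≠ ⊤ := by
        by_contra hc
        push Not at hc
        have : Nontrivial (Subrepresentation ρ) := ⟨_, _, hb⟩
        exact hi ⟨fun σ => or_iff_not_imp_left.2 (hc σ)⟩
      obtain ⟨σ', hσ⟩ := exists_isCompl σ
      have h3 : σ' ≠ ⊤ := by
        rintro rfl
        exact h1 (by simpa using hσ.inf_eq_bot)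
      have h4 : ∀ τ : Subrepresentation ρ, τ ≠ ⊤ → ∀ v ∈ τ.toSubmodule,
          (∑ g, u g • ρ g) v = 0 := by
        intro τ hτ v hv
        have := ih _ (hn ▸ Submodule.finrank_lt (s := τ.toSubmodule)
          (fun e => hτ (Subrepresentation.toSubmodule_injective e))) _ τ.toRepresentation rfl
        have := congrArg Subtype.val (congr($this ⟨v, hv⟩))
        simpa [LinearMap.sum_apply, Subrepresentation.toRepresentation] using this
      have h5 : σ.toSubmodule ⊔ σ'.toSubmodule = ⊤ :=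
        congrArg Subrepresentation.toSubmodule hσ.sup_eq_top
      ext v
      obtain ⟨a, ha, b, hb, rfl⟩ := Submodule.mem_sup.1 (h5 ▸ Submodule.mem_top (x := v))
      rw [map_add, h4 σ h2 a ha, h4 σ' h3 b hb]; simp
  classical
  have := key _ _ (leftRegular ℂ G) rfl
  funext g
  have := congrArg (fun f : MonoidAlgebra ℂ G => f.coeff g)
    (congr($this (MonoidAlgebra.single 1 1)))
  simpa [LinearMap.sum_apply, Finsupp.single_apply] using this

noncomputable def irrF (G : Type) [Group G] [Fintype G] : Finset (G → ℂ) :=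
  (irr_finite (G := G)).toFinset

theorem mem_irrF {χ : G → ℂ} : χ ∈ irrF G ↔ χ ∈ Irr G := Set.Finite.mem_toFinset _

noncomputable def omg (χ z : G → ℂ) : ℂ := (χ 1)⁻¹ * ∑ g, z g * χ g

theorem class_scalar {E : Type} [AddCommGroup E] [Module ℂ E] [FiniteDimensional ℂ E]
    (ρ : Representation ℂ G E) [ρ.IsIrreducible] (z : G → ℂ) (hz : ∀ g h, z (h * g * h⁻¹) = z g) :
    ∑ g, z g • ρ g = omg ρ.character z • (1 : Module.End ℂ E) := by
  obtain ⟨c, hc⟩ := schur ρ (∑ g, z g • ρ g) (fun h => by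
    rw [Finset.sum_mul, Finset.mul_sum,
      ← Equiv.sum_comp (MulAut.conj h).toEquiv (fun g => (z g • ρ g) * ρ h)]
    refine Finset.sum_congr rfl fun g _ => ?_
    simp [hz, ← map_mul])
  have h1 := congrArg (LinearMap.trace ℂ E) hc
  simp only [map_sum, map_smul, smul_eq_mul, LinearMap.trace_one] at h1
  have h2 := char_one_ne ρ
  rw [hc, omg, show ∑ g, z g * ρ.character g = c * ρ.character 1 by rw [char_one]; exact h1]
  congr 1
  field_simp

theorem irr_class {χ : G → ℂ} (hχ : χ ∈ Irr G) (g h : G) : χ (h * g * h⁻¹) = χ g := by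
  obtain ⟨E, _, _, _, ρ, hρ, rfl⟩ := hχ
  exact char_conj ρ g h

theorem irr_one_ne {χ : G → ℂ} (hχ : χ ∈ Irr G) : χ 1 ≠ 0 := by
  obtain ⟨E, _, _, _, ρ, hρ, rfl⟩ := hχ
  exact char_one_ne ρ

theorem expansion (z : G → ℂ) (hz : ∀ g h, z (h * g * h⁻¹) = z g) (g : G) :
    z g = ∑ χ ∈ irrF G, omg χ z * (χ 1 / Fintype.card G) * χ g⁻¹ := by
  classical
  have := eq_zero_of_irr
    (fun g => z g - ∑ χ ∈ irrF G, omg χ z * (χ 1 / Fintype.card G) * χ g⁻¹) ?_
  · exact sub_eq_zero.1 (congrFun this g)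
  intro E _ _ _ ρ hρ
  have hm : ρ.character ∈ Irr G := ⟨E, _, _, ‹_›, ρ, hρ, rfl⟩
  rw [class_scalar ρ _ (fun g h => ?_)]
  · rw [smul_eq_zero]
    left
    rw [omg, mul_eq_zero]
    right
    simp only [sub_mul, Finset.sum_sub_distrib, Finset.sum_mul]
    rw [Finset.sum_comm, Finset.sum_eq_single ρ.character]
    · have h1 := irr_orth hm hm
      rw [if_pos rfl] at h1
      simp only [mul_assoc, ← Finset.mul_sum, mul_comm (ρ.character _⁻¹), h1, omg]
      have := char_one_ne ρ
      have := card_ne (G := G)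
      field_simp
      simp
    · intro χ hχ hne
      have h1 := irr_orth hm (mem_irrF.1 hχ)
      rw [if_neg hne.symm] at h1
      simp only [mul_assoc, ← Finset.mul_sum, mul_comm (χ _⁻¹), h1, mul_zero]
    · exact fun h => (h (mem_irrF.2 hm)).elim
  · rw [hz]
    congr 1
    refine Finset.sum_congr rfl fun χ hχ => ?_
    rw [show (h * g * h⁻¹)⁻¹ = h * g⁻¹ * h⁻¹ by group, irr_class (mem_irrF.1 hχ)]

noncomputable def cval (s : G → G) (χ : G → ℂ) : ℂ :=
  χ 1 / Fintype.card G * ∑ w, χ (s w * w⁻¹)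

theorem trace_formula (s : G → G) (z : G → ℂ) (hz : ∀ g h, z (h * g * h⁻¹) = z g) :
    ∑ w, z (w * (s w)⁻¹) = ∑ χ ∈ irrF G, omg χ z * cval s χ := by
  simp only [fun w => expansion z hz (w * (s w)⁻¹)]
  rw [Finset.sum_comm]
  refine Finset.sum_congr rfl fun χ _ => ?_
  simp [cval, Finset.mul_sum, mul_assoc]

theorem cval_id (χ : G → ℂ) : cval (fun w => w) χ = χ 1 ^ 2 := by
  have := card_ne (G := G)
  simp only [cval, mul_inv_cancel, Finset.sum_const, Finset.card_univ, nsmul_eq_mul]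
  field_simp

theorem cval_unstable (s : G →* G) {χ : G → ℂ} (hχ : χ ∈ Irr G) (h : ¬ ∀ w, χ (s w) = χ w) :
    cval s χ = 0 := by
  obtain ⟨E, _, _, _, ρ, hρ, rfl⟩ := hχ
  let A : Module.End ℂ E := ∑ w, ρ (s w) * ρ w⁻¹
  have hA : ∀ g, A * ρ g = ρ (s g) * A := by
    intro g
    rw [Finset.sum_mul, Finset.mul_sum,
      ← Equiv.sum_comp (Equiv.mulLeft g) (fun w => ρ (s w) * ρ w⁻¹ * ρ g)]
    refine Finset.sum_congr rfl fun w _ => ?_
    simp only [Equiv.coe_mulLeft, mul_assoc, ← map_mul, mul_inv_rev, inv_mul_cancel, mul_one]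
    rw [← mul_assoc, ← map_mul]
  rcases IsIrreducible.injective_or_eq_zero
    (⟨A, hA⟩ : IntertwiningMap ρ (ρ.comp s : Representation ℂ G E)) with hi | h0
  · exfalso
    refine h fun w => ?_
    have hb : Bijective A := ⟨hi, LinearMap.injective_iff_surjective.1 hi⟩
    have := char_iso (IntertwiningMap.ofBijective
      (⟨A, hA⟩ : IntertwiningMap ρ (ρ.comp s : Representation ℂ G E)) hb)
    exact (congrFun this w).symm
  · have h1 : A = 0 := congrArg IntertwiningMap.toLinearMap h0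
    have h2 := congrArg (LinearMap.trace ℂ E) h1
    simp only [A, map_sum, ← map_mul, map_zero] at h2
    rw [cval, show ∑ w, ρ.character (s w * w⁻¹) = 0 from h2, mul_zero]

theorem cval_ext {E : Type} [AddCommGroup E] [Module ℂ E] [FiniteDimensional ℂ E]
    (ρ : Representation ℂ G E) [ρ.IsIrreducible] (s : G → G) (T T' : Module.End ℂ E)
    (h : ∀ w, ρ (s w) = T * ρ w * T') :
    cval s ρ.character = LinearMap.trace ℂ E T * LinearMap.trace ℂ E T' := by
  obtain ⟨c, hc⟩ := schur ρ (∑ w, ρ w * T' * ρ w⁻¹) (fun g => by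
    rw [Finset.sum_mul, Finset.mul_sum,
      ← Equiv.sum_comp (Equiv.mulLeft g) (fun w => ρ w * T' * ρ w⁻¹ * ρ g)]
    refine Finset.sum_congr rfl fun w _ => ?_
    simp only [Equiv.coe_mulLeft, mul_assoc, ← map_mul, mul_inv_rev, inv_mul_cancel, mul_one]
    rw [map_mul, mul_assoc])
  have h1 := congrArg (LinearMap.trace ℂ E) hc
  have h2 : ∀ w, LinearMap.trace ℂ E (ρ w * T' * ρ w⁻¹) = LinearMap.trace ℂ E T' := by
    intro w
    rw [LinearMap.trace_mul_comm, ← mul_assoc, ← map_mul]; simp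
  simp only [map_sum, h2, map_smul, smul_eq_mul, LinearMap.trace_one, Finset.sum_const,
    Finset.card_univ, nsmul_eq_mul] at h1
  have h3 : ∑ w, ρ.character (s w * w⁻¹) = c * LinearMap.trace ℂ E T := by
    have : ∑ w, ρ.character (s w * w⁻¹) = LinearMap.trace ℂ E (T * ∑ w, ρ w * T' * ρ w⁻¹) := by
      simp [character, h, Finset.mul_sum, mul_assoc]
    rw [this, hc]; simp
  have := card_ne (G := G)
  rw [cval, h3, char_one]
  field_simp
  linear_combination (-LinearMap.trace ℂ E T) * h1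

theorem fibre_sum {Z : Type} [CommRing Z] [Algebra ℂ Z] {ι κ : Type} (s : Finset ι) (t : Finset κ)
    (f : ι → Z →ₐ[ℂ] ℂ) (g : κ → Z →ₐ[ℂ] ℂ) (a : ι → ℂ) (b : κ → ℂ)
    (h : ∀ z, ∑ i ∈ s, f i z * a i = ∑ j ∈ t, g j z * b j) (p : Z →ₐ[ℂ] ℂ)
    [DecidablePred fun i => f i = p] [DecidablePred fun j => g j = p] :
    ∑ i ∈ s with f i = p, a i = ∑ j ∈ t with g j = p, b j := by
  classical
  have hl := linearIndependent_algHom_toLinearMap ℂ Z ℂ
  rw [linearIndependent_iff] at hl
  have := hl (∑ i ∈ s, Finsupp.single (f i) (a i) - ∑ j ∈ t, Finsupp.single (g j) (b j)) (by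
    ext z
    simpa [map_sum, LinearMap.sum_apply, mul_comm, sub_eq_zero] using h z)
  have := congr($this p)
  simp only [Finsupp.coe_sub, Finsupp.coe_finsetSum, Pi.sub_apply, Finset.sum_apply,
    Finsupp.single_apply, Finsupp.coe_zero, Pi.zero_apply, sub_eq_zero] at this
  rw [Finset.sum_filter, Finset.sum_filter]
  simpa using this

end Pool.Agent.Lib.MP_c89606_al
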