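import Pool.Agent.Lib.MP_c89606_al.Family

/-! The symbol of the restricted regular module. -/

namespace Pool.Agent.Lib.MP_c89606_al
open Module Function

theorem sym_iso_par {B B' : Type} [CommRing B] [Algebra ℂ B] [CommRing B'] [Algebra ℂ B'] {m : ℕ}
    (x : Fin m → B) (y : Fin m → B')
    {N : Type} [AddCommGroup N] [Module B N] [Module ℂ N] [IsScalarTower ℂ B N]
    {N' : Type} [AddCommGroup N'] [Module B' N'] [Module ℂ N'] [IsScalarTower ℂ B' N']
    (e : N ≃ₗ[ℂ] N') (φ : N →ₗ[ℂ] N) (φ' : N' →ₗ[ℂ] N') (h : ∀ i n, e (x i • n) = y i • e n)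
    (hφ : ∀ n, φ' (e n) = e (φ n)) (hc : Cmp (unt x) φ) : sym (unt x) N φ = sym (unt y) N' φ' := by
  refine sym_iso _ _ N N' e φ φ' ?_ hφ hc
  clear hc
  induction m with
  | zero => exact List.Forall₂.nil
  | succ m ih =>
    rw [unt, unt, par_succ, par_succ]
    exact List.Forall₂.cons ⟨rfl, h 0⟩ (ih _ _ fun i => h i.succ)

theorem exists_quot_equiv {B : Type} [CommRing B] [Algebra ℂ B]
    {N : Type} [AddCommGroup N] [Module B N] [Module ℂ N] [IsScalarTower ℂ B N]
    {N' : Type} [AddCommGroup N'] [Module ℂ N'] (K : Submodule B N) (ρ : N →ₗ[ℂ] N')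
    (hK : ∀ n, n ∈ K ↔ ρ n = 0) (hs : Surjective ρ) :
    ∃ e : (N ⧸ K) ≃ₗ[ℂ] N', ∀ n, e (Submodule.Quotient.mk n) = ρ n :=
  ⟨(Submodule.Quotient.restrictScalarsEquiv ℂ K).symm.trans
    ((Submodule.quotEquivOfEq _ _ (Submodule.ext hK)).trans (ρ.quotKerEquivOfSurjective hs)),
    fun _ => rfl⟩

theorem core0 {B C N W : Type} [CommRing B] [Algebra ℂ B] [Algebra.FiniteType ℂ B] [CommRing C]
    [Algebra ℂ C] [Algebra.FiniteType ℂ C] [AddCommGroup N] [Module B N] [Module ℂ N]
    [IsScalarTower ℂ B N] [Module.Finite B N] [Fintype W] [DecidableEq W]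
    (ρ : N →ₗ[ℂ] (W → C)) (hρ : Surjective ρ) (σ : B →ₐ[ℂ] B) (t : Module.End ℂ N)
    (ht : ∀ (z : B) h, t (z • h) = σ z • t h) (n : ℕ) (hn : 0 < n) (hσ : σ ^ n = 1) (htn : t ^ n = 1)
    (Φ Φ0 : B → (W → C) →ₗ[C] (W → C)) (hΦ : ∀ b h, Φ b (ρ h) = ρ (b • t h))
    (hΦ0 : ∀ b h, Φ0 b (ρ h) = ρ (b • h)) {m : ℕ} (x : Fin m → B) (y : Fin m → C)
    (xA : ∀ i h, ρ (x i • h) = y i • ρ h) (xB : ∀ i h, ρ (σ (x i) • h) = y i • ρ h)
    (ε : C →ₐ[ℂ] ℂ) (hy : IntF y ⊥) (hε : ∀ c, ε c = 0 → ∃ k, c ^ k ∈ Ideal.span (Set.range y)) :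
    ∃ I : Ideal B, IntF x I ∧ ∀ P : Submodule ℂ (B → ℂ),
      (∀ p : Ideal B, p.IsPrime → I ≤ p → (∀ z, z - σ z ∈ p) →
        (fun b => sym (unt x) (B ⧸ p) (mulB _ b)) ∈ P) →
      (fun b : B => (∑ w, ε (Φ b (Pi.single w 1) w)) * sym (unt y) C LinearMap.id) ∈ P := by
  let K : Submodule B N :=
    { carrier := {h | ρ h = 0}
      add_mem' := fun {u v} hu hv => by
        simp only [Set.mem_ofPred_eq] at hu hv ⊢
        rw [map_add, hu, hv, add_zero]
      zero_mem' := map_zero ρ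
      smul_mem' := fun z h hh => by
        simp only [Set.mem_ofPred_eq] at hh ⊢
        rw [← hΦ0, hh, map_zero] }
  have hK : ∀ h, h ∈ K ↔ ρ h = 0 := fun _ => Iff.rfl
  have hKa : ∀ h ∈ K, t h ∈ K := fun h hh => by
    have := hΦ 1 h
    rw [(hK h).1 hh, map_zero, one_smul] at this
    exact this.symm
  obtain ⟨e, he⟩ := exists_quot_equiv K ρ hK hρ
  have ann : ∀ z : B, (∀ h, ρ (z • h) = 0) → z ∈ Module.annihilator B (N ⧸ K) := by
    intro z hz
    rw [Module.mem_annihilator]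
    intro u
    obtain ⟨u, rfl⟩ := Submodule.Quotient.mk_surjective _ u
    rw [← Submodule.Quotient.mk_smul, Submodule.Quotient.mk_eq_zero]
    exact hz u
  have hI : IntF x (Module.annihilator B (N ⧸ K)) := by
    intro b
    let : Algebra (PR m) C := (ev y : PR m →+* C).toAlgebra
    have : IsScalarTower ℂ (PR m) C :=
      IsScalarTower.of_algebraMap_eq fun c => ((ev y).commutes c).symm
    have : Algebra.IsIntegral (PR m) C := ⟨hy⟩
    have : Algebra.FiniteType (PR m) C := Algebra.FiniteType.of_restrictScalars_finiteType ℂ _ _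
    have : Module.Finite (PR m) C := Algebra.IsIntegral.finite
    obtain ⟨Q, hQ, hQ'⟩ := LinearMap.exists_monic_and_aeval_eq_zero (PR m)
      ((Φ0 b).restrictScalars (PR m))
    refine ⟨Q, hQ, ann _ fun h => ?_⟩
    have k1 : ∀ (r : PR m) h, ρ (ev x r • h) = r • ρ h := by
      intro r
      induction r using MvPolynomial.induction_on with
      | C c =>
        intro h
        rw [MvPolynomial.algHom_C, algebraMap_smul, map_smul, MvPolynomial.C_eq_algebraMap,
          algebraMap_smul]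
      | add p q hp hq => intro h; simp only [map_add, hp, hq, add_smul]
      | mul_X p i hp =>
        intro h
        rw [map_mul (ev x), MvPolynomial.aeval_X, mul_smul, hp, xA, mul_smul]
        congr 1
        rw [← algebraMap_smul C (MvPolynomial.X i : PR m)]
        congr 1
        exact (MvPolynomial.aeval_X y i).symm
    have k2 : ∀ (k : ℕ) h, ρ (b ^ k • h) = (((Φ0 b).restrictScalars (PR m)) ^ k) (ρ h) := by
      intro k
      induction k with
      | zero => simp
      | succ k ih =>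
        intro h
        rw [pow_succ', mul_smul, ← hΦ0, ih, pow_succ']
        rfl
    have k3 : ∀ (Q : Polynomial (PR m)), ρ (Q.eval₂ (ev x : PR m →+* B) b • h) =
        Polynomial.aeval ((Φ0 b).restrictScalars (PR m)) Q (ρ h) := by
      intro Q
      induction Q using Polynomial.induction_on' with
      | add p q hp hq =>
        rw [Polynomial.eval₂_add, add_smul, map_add, hp, hq, map_add, LinearMap.add_apply]
      | monomial k r =>
        rw [Polynomial.eval₂_monomial, mul_smul, Polynomial.aeval_monomial,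
          Module.End.mul_apply, ← k2, Module.algebraMap_end_apply]
        exact k1 r _
    rw [k3, hQ', LinearMap.zero_apply]
  refine ⟨_, hI, fun P hP => ?_⟩
  have key := dev_tw x _ hI.okF σ n hn hσ (fun i => ann _ fun h => by
      rw [sub_smul, map_sub, xA, xB, sub_self]) P hP ⊥
    (N ⧸ K) (qmap K K t) (fun z u => by
      obtain ⟨u, rfl⟩ := Submodule.Quotient.mk_surjective _ u
      rw [← Submodule.Quotient.mk_smul, qmap_mk hKa, qmap_mk hKa, ← Submodule.Quotient.mk_smul, ht])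
    le_rfl bot_le (by
      refine LinearMap.ext fun u => ?_
      obtain ⟨u, rfl⟩ := Submodule.Quotient.mk_surjective _ u
      have := aeval_intertwine (K.mkQ.restrictScalars ℂ) t (qmap K K t)
        (fun m => qmap_mk hKa m) (Polynomial.X ^ n) u
      simp only [map_pow, Polynomial.aeval_X, htn] at this
      exact this)
  have e1 : ∀ b : B, sym (unt x) (N ⧸ K) (mulB _ b * qmap K K t : Module.End ℂ _) =
      (∑ w, ε (Φ b (Pi.single w 1) w)) * sym (unt y) C LinearMap.id := by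
    intro b
    have e2 : ∀ u, e ((mulB _ b * qmap K K t : Module.End ℂ _) u) = Φ b (e u) := by
      intro u
      obtain ⟨u, rfl⟩ := Submodule.Quotient.mk_surjective _ u
      rw [Module.End.mul_apply, qmap_mk hKa, mulB_apply, ← Submodule.Quotient.mk_smul, he, he, hΦ]
    have e3 : ∀ i u, e (x i • u) = y i • e u := by
      intro i u
      obtain ⟨u, rfl⟩ := Submodule.Quotient.mk_surjective _ u
      rw [← Submodule.Quotient.mk_smul, he, he]
      exact xA i u
    rw [sym_iso_par x y e _ ((Φ b).restrictScalars ℂ) e3 (fun u => (e2 u).symm)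
      (cmp_unt _ _ fun i u => e.injective (by rw [e2, e3, e3, e2, map_smul])),
      sym_matrix y hy.okF ε hε]
  simpa only [e1] using key

variable {V : Type} [AddCommGroup V] [Module ℂ V] {W : Subgroup (V ≃ₗ[ℂ] V)} [Fintype W]
  (d : Dt W) [FiniteDimensional ℂ V]

theorem cen_finite {r r' m : ℕ} (f : Fin r → Sy (Dual ℂ V)) (g : Fin r' → Sy V) (hf : IntF f ⊥)
    (hg : IntF g ⊥) (x : Fin m → Cen d) (xf : ∀ i, ∃ j, (x j : Cher d) = XS d (f i))
    (xg : ∀ i, ∃ j, (x j : Cher d) = YT d (g i)) :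
    Algebra.FiniteType ℂ (Cen d) ∧ Module.Finite (Cen d) (Cher d) ∧ IntF x ⊥ := by
  classical
  let : Algebra (PR m) (Cen d) := (ev x : PR m →+* Cen d).toAlgebra
  have : IsScalarTower ℂ (PR m) (Cen d) :=
    IsScalarTower.of_algebraMap_eq fun c => ((ev x).commutes c).symm
  let : Module (PR m) (Cher d) := Module.compHom _ (algebraMap (PR m) (Cen d))
  have : IsScalarTower (PR m) (Cen d) (Cher d) := IsScalarTower.of_algebraMap_smul fun _ _ => rfl
  have : IsScalarTower ℂ (PR m) (Cher d) := IsScalarTower.of_algebraMap_smul fun c h => by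
    change (ev x (algebraMap ℂ _ c)) • h = _
    rw [AlgHom.commutes, algebraMap_smul]
  have hX : ∀ j (h : Cher d), (MvPolynomial.X j : PR m) • h = (x j : Cher d) * h := fun j h => by
    change (ev x (MvPolynomial.X j)) • h = _
    rw [MvPolynomial.aeval_X]; rfl
  obtain ⟨s, hs⟩ := exists_gens hf
  obtain ⟨t, ht⟩ := exists_gens hg
  let F : Finset (Cher d) := (s ×ˢ (Finset.univ : Finset W) ×ˢ t).image
    fun p => XS d p.1 * (cR d).G p.2.1 * YT d p.2.2
  have hfin : Module.Finite (PR m) (Cher d) := by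
    refine ⟨F, eq_top_iff.2 fun h _ => ?_⟩
    set U := Submodule.span (PR m) (F : Set (Cher d))
    refine cher_span d (U.restrictScalars ℂ) (fun a w b => ?_) h
    refine hs ((U.restrictScalars ℂ).comap (LinearMap.mulRight ℂ (YT d b) ∘ₗ
      LinearMap.mulRight ℂ ((cR d).G w) ∘ₗ (XS d).toLinearMap)) (fun a ha => ?_) (fun i u hu => ?_) a
    · refine ht ((U.restrictScalars ℂ).comap (LinearMap.mulLeft ℂ (XS d a * (cR d).G w) ∘ₗ
        (YT d).toLinearMap)) (fun b hb => ?_) (fun i u hu => ?_) b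
      · exact Submodule.subset_span (Finset.mem_coe.2
          (Finset.mem_image.2 ⟨(a, w, b), by simp [ha, hb], rfl⟩))
      · obtain ⟨j, hj⟩ := xg i
        have := U.smul_mem (MvPolynomial.X j) hu
        rw [hX, ← Subalgebra.mem_center_iff.1 (x j).2, hj] at this
        change XS d a * (cR d).G w * YT d (g i * u) ∈ U
        rw [mul_comm (g i), map_mul, ← mul_assoc]
        exact this
    · obtain ⟨j, hj⟩ := xf i
      have := U.smul_mem (MvPolynomial.X j) hu
      rw [hX, hj] at this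
      change XS d (f i * u) * (cR d).G w * YT d b ∈ U
      rw [map_mul, mul_assoc (XS d (f i)), mul_assoc (XS d (f i))]
      exact this
  let j : Cen d →ₗ[PR m] Cher d :=
    { toFun := Subtype.val
      map_add' := fun _ _ => rfl
      map_smul' := fun _ _ => rfl }
  have h2 : Module.Finite (PR m) (Cen d) := Module.Finite.of_injective j Subtype.val_injective
  exact ⟨Algebra.FiniteType.trans (S := PR m) inferInstance inferInstance,
    Module.Finite.of_restrictScalars_finite (PR m) _ _,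
    (Algebra.IsIntegral.of_finite (PR m) (Cen d)).1⟩

variable [DecidableEq W] {C : Type} [CommRing C] [Algebra ℂ C] (rS : Sy (Dual ℂ V) →ₐ[ℂ] C)
  (rT : Sy V →ₐ[ℂ] C)

theorem exists_Phi (a : Cher d →ₐ[ℂ] Cher d) (hS : ∀ s, ∃ s', a (XS d s) = XS d s' ∧ rS s' = rS s)
    (hT : ∀ t, ∃ t', a (YT d t) = YT d t' ∧ rT t' = rT t) (b : Cen d) :
    ∃ Φ : (W → C) →ₗ[C] (W → C), ∀ h, Φ (rho d rS rT h) = rho d rS rT (b * a h) := by
  let Φ : (W → C) →ₗ[C] (W → C) :=
    ∑ w, (LinearMap.proj w).smulRight (rho d rS rT (b * a ((cR d).G w)))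
  refine ⟨Φ, cher_lin d (f := Φ.restrictScalars ℂ ∘ₗ rho d rS rT)
    (g := rho d rS rT ∘ₗ LinearMap.mulLeft ℂ (b : Cher d) ∘ₗ a.toLinearMap) fun s w t => ?_⟩
  obtain ⟨s', h1, h2⟩ := hS s
  obtain ⟨t', h3, h4⟩ := hT t
  change Φ (rho d rS rT _) = rho d rS rT (b * a _)
  rw [rho_apply, map_mul a, map_mul a, h1, h3, ← mul_assoc, ← mul_assoc,
    ← Subalgebra.mem_center_iff.1 b.2, mul_assoc (XS d s'), rho_XY, h2, h4]
  simp [Φ, LinearMap.sum_apply, Pi.single_apply]

theorem rho_surj (hsurj : ∀ U : Submodule ℂ C, (∀ s t, rS s * rT t ∈ U) → ∀ c, c ∈ U) :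
    Surjective (rho d rS rT) := by
  intro u
  rw [← Finset.univ_sum_single u]
  refine Submodule.sum_mem (LinearMap.range (rho d rS rT)) fun w _ => ?_
  exact hsurj ((LinearMap.range (rho d rS rT)).comap (LinearMap.single ℂ (fun _ => C) w))
    (fun s t => ⟨_, rho_apply d rS rT s w t⟩) (u w)

theorem core {g : V ≃ₗ[ℂ] V} {hg : g ∈ Subgroup.normalizer (W : Set (V ≃ₗ[ℂ] V))}
    {a : Cher d →ₐ[ℂ] Cher d} (ha : IsAct d g hg a) (n : ℕ) (hn : 0 < n) (hgn : g ^ n = 1)
    [Algebra.FiniteType ℂ (Cen d)] [Module.Finite (Cen d) (Cher d)] [Algebra.FiniteType ℂ C]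
    (ε : C →ₐ[ℂ] ℂ) (h1 : ∀ s, ε (rS s) = aug s) (h2 : ∀ s, ε (rT s) = aug s)
    (hS : ∀ s, rS (smp (dl g) s) = rS s) (hT : ∀ t, rT (smp g.toLinearMap t) = rT t)
    (hsurj : ∀ U : Submodule ℂ C, (∀ s t, rS s * rT t ∈ U) → ∀ c, c ∈ U)
    {m : ℕ} (x : Fin m → Cen d) (y : Fin m → C)
    (hxy : ∀ i, (∃ s, (x i : Cher d) = XS d s ∧ y i = rS s) ∨
      ∃ t, (x i : Cher d) = YT d t ∧ y i = rT t)
    (hy : IntF y ⊥) (hε : ∀ c, ε c = 0 → ∃ k, c ^ k ∈ Ideal.span (Set.range y)) :
    ∃ I : Ideal (Cen d), IntF x I ∧ ∀ P : Submodule ℂ (Cen d → ℂ),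
      (∀ p : Ideal (Cen d), p.IsPrime → I ≤ p → (∀ z, z - cenMap a ha.surj z ∈ p) →
        (fun b => sym (unt x) (Cen d ⧸ p) (mulB _ b)) ∈ P) →
      (fun b : Cen d => (∑ w, Om d b (w * (cj g hg w)⁻¹)) * sym (unt y) C LinearMap.id) ∈ P := by
  set ρ := rho d rS rT with hρ
  have aS : ∀ s, a (XS d s) = XS d (smp (dl g) s) := fun s =>
    congr($(sy_ext (f := a.comp (XS d)) (g := (XS d).comp (smp (dl g)))
      fun x => by simp [ha.2.1]) s)
  have aT : ∀ t, a (YT d t) = YT d (smp g.toLinearMap t) := fun t =>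
    congr($(sy_ext (f := a.comp (YT d)) (g := (YT d).comp (smp g.toLinearMap))
      fun x => by simp [ha.1]) t)
  choose Φ hΦ using exists_Phi d rS rT a (fun s => ⟨_, aS s, hS s⟩) (fun t => ⟨_, aT t, hT t⟩)
  choose Φ0 hΦ0 using exists_Phi d rS rT (AlgHom.id ℂ _) (fun s => ⟨_, rfl, rfl⟩)
    (fun t => ⟨_, rfl, rfl⟩)
  simp only [AlgHom.id_apply, ← hρ] at hΦ hΦ0
  have xA : ∀ i h, ρ (x i * h) = y i • ρ h := by
    intro i h
    rcases hxy i with ⟨s, e1, e2⟩ | ⟨t, e1, e2⟩
    · simpa [e1, e2] using rho_XY d rS rT s 1 h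
    · rw [← Subalgebra.mem_center_iff.1 (x i).2]
      simpa [e1, e2] using rho_XY d rS rT 1 t h
  have xB : ∀ i h, ρ (a (x i) * h) = y i • ρ h := by
    intro i h
    rcases hxy i with ⟨s, e1, e2⟩ | ⟨t, e1, e2⟩
    · simpa [e1, e2, aS, hS] using rho_XY d rS rT (smp (dl g) s) 1 h
    · rw [← cenMap_coe a ha.surj, ← Subalgebra.mem_center_iff.1 (cenMap a ha.surj (x i)).2]
      simpa [e1, e2, aT, hT] using rho_XY d rS rT 1 (smp g.toLinearMap t) h
  have han : a ^ n = 1 := by
    have := ha.pow_eq n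
    refine cher_ext (fun y => ?_) (fun x => ?_) (fun w => ?_)
    · rw [this.1, hgn]; rfl
    · rw [this.2.1, hgn]; rfl
    · rw [this.2.2]
      refine congrArg (cR d).G (Subtype.ext ?_)
      simp [cj_coe, hgn]
  obtain ⟨I, hI, key⟩ := core0 (B := Cen d) (N := Cher d) ρ (rho_surj d rS rT hsurj)
    (cenMap a ha.surj) a.toLinearMap (fun z h => map_mul a (z : Cher d) h) n hn (by
      ext z
      have : ∀ k, (((cenMap a ha.surj ^ k) z : Cen d) : Cher d) = (a ^ k) z := by
        intro k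
        induction k with
        | zero => rfl
        | succ k ih => rw [pow_succ', pow_succ', AlgHom.mul_apply, AlgHom.mul_apply, cenMap_coe, ih]
      rw [this, han]; rfl) (by
      ext u
      have h3 := congr($han u)
      rw [AlgHom.coe_pow] at h3
      rw [Module.End.coe_pow]
      exact h3) Φ Φ0 hΦ hΦ0 x y xA xB ε hy hε
  refine ⟨I, hI, fun P hP => ?_⟩
  have e1 : ∀ (b : Cen d) w, ε (Φ b (Pi.single w 1) w) = Om d b (w * (cj g hg w)⁻¹) := by
    intro b w
    rw [← rho_G d rS rT, hΦ, ha.2.2, eps_rho d rS rT ε h1 h2, Om_right]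
  simpa only [e1] using key P hP

end Pool.Agent.Lib.MP_c89606_al
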