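import Mathlib

/-! Rational Cherednik algebras at t = 0, Calogero-Moser spaces and families. -/

namespace Pool.Agent.Lib.MP_c89606_al
open Module TensorProduct

variable {V : Type} [AddCommGroup V] [Module ℂ V]

/-- The subspace of vectors fixed by `g`. -/
def fixed (g : V ≃ₗ[ℂ] V) : Submodule ℂ V := LinearMap.eqLocus g.toLinearMap LinearMap.id

/-- A reflection: the fixed subspace is a hyperplane. -/
def IsRefl (s : V ≃ₗ[ℂ] V) : Prop := finrank ℂ (fixed s) + 1 = finrank ℂ V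

/-- The reflecting hyperplanes of `W`. -/
def hyps (W : Subgroup (V ≃ₗ[ℂ] V)) : Set (Submodule ℂ V) :=
  {H | ∃ s ∈ W, IsRefl s ∧ fixed s = H}

/-- The pointwise stabiliser `W_H`. -/
def stab (W : Subgroup (V ≃ₗ[ℂ] V)) (H : Submodule ℂ V) : Set W :=
  {w | ∀ v ∈ H, (w : V ≃ₗ[ℂ] V) v = v}

/-- The order `e_H` of `W_H`. -/
noncomputable def ord (W : Subgroup (V ≃ₗ[ℂ] V)) (H : Submodule ℂ V) : ℕ := (stab W H).ncard

/-- Roots `α_H`, coroots `β_H` and a parameter `k`. -/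
structure Dat (W : Subgroup (V ≃ₗ[ℂ] V)) : Type where
  α : Submodule ℂ V → Dual ℂ V
  β : Submodule ℂ V → V
  k : Submodule ℂ V → ℕ → ℂ
  hα : ∀ H ∈ hyps W, LinearMap.ker (α H) = H
  hβ : ∀ H ∈ hyps W, IsCompl H (ℂ ∙ β H) ∧ ∀ w ∈ stab W H, (w : V ≃ₗ[ℂ] V) (β H) ∈ ℂ ∙ β H
  hk : ∀ w ∈ W, ∀ H ∈ hyps W, ∀ j < ord W H, k (H.map w.toLinearMap) j = k H j

/-- The free algebra on the symbols `y ∈ V`, `x ∈ V*`, `w ∈ W`. -/
abbrev Fr (W : Subgroup (V ≃ₗ[ℂ] V)) : Type := FreeAlgebra ℂ (V ⊕ Dual ℂ V ⊕ W)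

variable {W : Subgroup (V ≃ₗ[ℂ] V)}

noncomputable def fy (y : V) : Fr W := FreeAlgebra.ι ℂ (Sum.inl y)

noncomputable def fx (x : Dual ℂ V) : Fr W := FreeAlgebra.ι ℂ (Sum.inr (Sum.inl x))

noncomputable def fw (w : W) : Fr W := FreeAlgebra.ι ℂ (Sum.inr (Sum.inr w))

/-- The idempotent `ε_{H,j}`. -/
noncomputable def eps (H : Submodule ℂ V) (j : ℕ) : Fr W :=
  (ord W H : ℂ)⁻¹ • ∑ᶠ w ∈ stab W H, LinearMap.det (w : V ≃ₗ[ℂ] V).toLinearMap ^ j • fw w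

/-- The right-hand side of the commutation relation `[y,x] = ...`. -/
noncomputable def brk (d : Dat W) (y : V) (x : Dual ℂ V) : Fr W :=
  ∑ᶠ H ∈ hyps W, ∑ j ∈ Finset.range (ord W H),
    ((ord W H : ℂ) * (d.k H j - d.k H ((j + 1) % ord W H)) *
      (d.α H y * x (d.β H) / d.α H (d.β H))) • eps H j

/-- The defining relations of the rational Cherednik algebra at `t = 0`. -/
inductive Rel (d : Dat W) : Fr W → Fr W → Prop
  | liny (c : ℂ) (y y' : V) : Rel d (fy (c • y + y')) (c • fy y + fy y')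
  | linx (c : ℂ) (x x' : Dual ℂ V) : Rel d (fx (c • x + x')) (c • fx x + fx x')
  | one : Rel d (fw 1) 1
  | mul (a b : W) : Rel d (fw a * fw b) (fw (a * b))
  | wy (w : W) (y : V) : Rel d (fw w * fy y) (fy ((w : V ≃ₗ[ℂ] V) y) * fw w)
  | wx (w : W) (x : Dual ℂ V) :
      Rel d (fw w * fx x) (fx (x ∘ₗ (w : V ≃ₗ[ℂ] V).symm.toLinearMap) * fw w)
  | xx (x x' : Dual ℂ V) : Rel d (fx x * fx x') (fx x' * fx x)
  | yy (y y' : V) : Rel d (fy y * fy y') (fy y' * fy y)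
  | yx (y : V) (x : Dual ℂ V) : Rel d (fy y * fx x - fx x * fy y) (brk d y x)

/-- The rational Cherednik algebra `H_k`. -/
abbrev RCA (d : Dat W) : Type := RingQuot (Rel d)

/-- The centre; for `H_k` this is the coordinate ring of the Calogero-Moser space. -/
abbrev Ctr (A : Type) [Ring A] [Algebra ℂ A] : Type := Subalgebra.center ℂ A

/-- Elements of an algebra indexed by `V`, `V*` and `W`. -/
structure Gen (W : Subgroup (V ≃ₗ[ℂ] V)) (A : Type) : Type where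
  y : V → A
  x : Dual ℂ V → A
  w : W → A

section
variable {A : Type} [Ring A] [Algebra ℂ A] (G : Gen W A)

/-- `A` is the rational Cherednik algebra `H_k` and `G` are its generators. -/
def Gen.IsRCA (d : Dat W) : Prop :=
  ∃ e : RCA d ≃ₐ[ℂ] A, (∀ y, e (RingQuot.mkRingHom (Rel d) (fy y)) = G.y y) ∧
    (∀ x, e (RingQuot.mkRingHom (Rel d) (fx x)) = G.x x) ∧
    ∀ w, e (RingQuot.mkRingHom (Rel d) (fw w)) = G.w w

/-- `z'` is the image of `z` under the automorphism of `H_k` induced by `g ∈ GL(V)`. -/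
def Gen.Moves (g : V ≃ₗ[ℂ] V) (z z' : Ctr A) : Prop :=
  ∃ a : A →ₐ[ℂ] A, (∀ y, a (G.y y) = G.y (g y)) ∧
    (∀ x, a (G.x x) = G.x (x ∘ₗ g.symm.toLinearMap)) ∧
    (∀ w w' : W, (w' : V ≃ₗ[ℂ] V) = g * w * g⁻¹ → a (G.w w) = G.w w') ∧ a z = z'

/-- The ideal of the fixed point locus of `τ` on the Calogero-Moser space. -/
noncomputable def Gen.fixIdeal (τ : V ≃ₗ[ℂ] V) : Ideal (Ctr A) :=
  Ideal.span {u | ∃ z z', G.Moves τ z z' ∧ u = z - z'}

/-- The baby Verma module of the representation `ρ`. -/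
abbrev Gen.BabyVerma {E : Type} [AddCommGroup E] [Module ℂ E] (ρ : Representation ℂ W E) : Type :=
  (A ⊗[ℂ] E) ⧸ Submodule.span A
    ({m | ∃ w v, m = G.w w ⊗ₜ v - 1 ⊗ₜ ρ w v} ∪ {m | ∃ y v, m = G.y y ⊗ₜ v} ∪
      {m | ∃ f v, f ∈ NonUnitalAlgebra.adjoin ℂ (Set.range G.x) ∧
        (∀ w, G.w w * f = f * G.w w) ∧ m = f ⊗ₜ v} : Set (A ⊗[ℂ] E))

/-- The Calogero-Moser family over the point `p`. -/
def Gen.family (p : Ctr A →ₐ[ℂ] ℂ) : Set (W → ℂ) :=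
  {χ | ∃ (E : Type) (_ : AddCommGroup E) (_ : Module ℂ E) (_ : FiniteDimensional ℂ E)
    (ρ : Representation ℂ W E), ρ.IsIrreducible ∧ ρ.character = χ ∧
      ∀ z : Ctr A, ∃ n : ℕ, ∀ m : G.BabyVerma ρ,
        ((z : A) - algebraMap ℂ A (p z)) ^ n • m = 0}

/-- The sum of the squares of the degrees over the family of `p`. -/
noncomputable def Gen.degSq (p : Ctr A →ₐ[ℂ] ℂ) : ℂ := ∑ᶠ ψ ∈ G.family p, ψ 1 ^ 2

end

/-- The centraliser of `τ` in `W`, acting on the fixed space of `τ`. -/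
def centr (W : Subgroup (V ≃ₗ[ℂ] V)) (τ : V ≃ₗ[ℂ] V) : Subgroup (fixed τ ≃ₗ[ℂ] fixed τ) where
  carrier := {u | ∃ w ∈ W, w * τ = τ * w ∧ ∀ v : fixed τ, (u v : V) = w v}
  one_mem' := ⟨1, W.one_mem, by simp, fun _ => rfl⟩
  mul_mem' := by
    rintro a b ⟨w, hw, h1, h2⟩ ⟨w', hw', h1', h2'⟩
    exact ⟨w * w', W.mul_mem hw hw', by rw [mul_assoc, h1', ← mul_assoc, h1, mul_assoc],
      fun v => by simp [h2, h2']⟩
  inv_mem' := by
    rintro a ⟨w, hw, h1, h2⟩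
    refine ⟨w⁻¹, W.inv_mem hw, (Commute.inv_left h1).eq, fun v => ?_⟩
    apply w.injective
    rw [← h2]
    simp

/-- `χ` is stable under `τ`. -/
def Stable (τ : V ≃ₗ[ℂ] V) (χ : W → ℂ) : Prop :=
  ∀ w w' : W, (w' : V ≃ₗ[ℂ] V) = τ * w * τ⁻¹ → χ w' = χ w

/-- `c` is the value at `τ` of the character of an extension to `W⟨τ⟩` of a simple module
affording `χ`. -/
def IsExtValue (τ : V ≃ₗ[ℂ] V) (χ : W → ℂ) (c : ℂ) : Prop :=
  ∃ (E : Type) (_ : AddCommGroup E) (_ : Module ℂ E) (_ : FiniteDimensional ℂ E)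
    (ρ : Representation ℂ (W ⊔ Subgroup.zpowers τ : Subgroup (V ≃ₗ[ℂ] V)) E),
    Representation.IsIrreducible (ρ.comp (Subgroup.inclusion le_sup_left)) ∧
      Representation.character (ρ.comp (Subgroup.inclusion le_sup_left)) = χ ∧
      c = ρ.character ⟨τ, Subgroup.mem_sup_right (Subgroup.mem_zpowers τ)⟩

end Pool.Agent.Lib.MP_c89606_al
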