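import Pool.Agent.Lib.MP_c89606_al.Tools

/-! Devissage. -/

namespace Pool.Agent.Lib.MP_c89606_al
open Function Polynomial

variable {B : Type} [CommRing B] [Algebra ℂ B]

abbrev PR (d : ℕ) : Type := MvPolynomial (Fin d) ℂ

noncomputable abbrev ev {d : ℕ} (x : Fin d → B) : PR d →ₐ[ℂ] B := MvPolynomial.aeval x

def DevP {d : ℕ} (x : Fin d → B) (I : Ideal B) (P : AddSubmonoid (B → ℂ)) (N : Type)
    [AddCommGroup N] [Module B N] : Prop :=
  ∀ (_ : Module ℂ N) (_ : IsScalarTower ℂ B N),
    I ≤ Module.annihilator B N → (fun b => sym (unt x) N (mulB N b)) ∈ P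

theorem dev [Algebra.FiniteType ℂ B] {d : ℕ} (x : Fin d → B) (I : Ideal B) (hI : OkF x I)
    (P : AddSubmonoid (B → ℂ))
    (hP : ∀ p : Ideal B, p.IsPrime → I ≤ p → (fun b => sym (unt x) (B ⧸ p) (mulB _ b)) ∈ P)
    (N : Type) [AddCommGroup N] [Module B N] [Module ℂ N] [IsScalarTower ℂ B N]
    [hN : Module.Finite B N] (h : I ≤ Module.annihilator B N) :
    (fun b => sym (unt x) N (mulB N b)) ∈ P := by
  have : IsNoetherianRing B := Algebra.FiniteType.isNoetherianRing ℂ B
  suffices key : DevP x I P N from key _ _ h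
  refine IsNoetherianRing.induction_on_isQuotientEquivQuotientPrime B hN
    (motive := fun N _ _ _ => DevP x I P N) ?_ ?_ ?_
  · intro N _ _ _ _ _ _ _
    simp only [sym_subsingleton]
    exact P.zero_mem
  · intro N _ _ _ p e _ _ h
    have h1 : I ≤ p.1 := by
      have := h.trans (ann_le_of_surj e.toLinearMap e.surjective)
      rwa [Ideal.annihilator_quotient] at this
    have h2 : ∀ b, sym (unt x) N (mulB N b) = sym (unt x) (B ⧸ p.1) (mulB _ b) := fun b =>
      sym_equiv _ e _ _ (fun n => by simp) (cmp_mulB _ _)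
    simp only [h2]
    exact hP _ p.2 h1
  · intro N1 _ _ _ N2 _ _ _ N3 _ _ _ f g hf hg he h1 h3 _ _ h
    let : Module ℂ N1 := Module.compHom N1 (algebraMap ℂ B)
    let : Module ℂ N3 := Module.compHom N3 (algebraMap ℂ B)
    have : IsScalarTower ℂ B N1 := IsScalarTower.of_algebraMap_smul fun _ _ => rfl
    have : IsScalarTower ℂ B N3 := IsScalarTower.of_algebraMap_smul fun _ _ => rfl
    have h2 : ∀ b, sym (unt x) N2 (mulB N2 b) =
        sym (unt x) N1 (mulB N1 b) + sym (unt x) N3 (mulB N3 b) := fun b =>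
      addP _ _ _ _ f g _ _ _ hf hg he (fun n => by simp) (fun n => by simp) (cmp_mulB _ _)
        (hI.ok _ h)
    simp only [h2]
    exact P.add_mem (h1 _ _ (h.trans (ann_le_of_inj f hf)))
      (h3 _ _ (h.trans (ann_le_of_surj g hg)))

noncomputable abbrev killX (d : ℕ) : PR (d + 1) →ₐ[ℂ] PR d :=
  MvPolynomial.aeval (Fin.cons 0 MvPolynomial.X)

theorem sub_killX {d : ℕ} (x : Fin (d + 1) → B) (r : PR (d + 1)) :
    ev x r - ev (fun i => x i.succ) (killX d r) ∈ Ideal.span {x 0} := by
  rw [← Ideal.Quotient.eq]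
  have : (Ideal.Quotient.mkₐ ℂ (Ideal.span {x 0})).comp (ev x) =
      (Ideal.Quotient.mkₐ ℂ (Ideal.span {x 0})).comp
        ((ev fun i : Fin d => x i.succ).comp (killX d)) := by
    refine MvPolynomial.algHom_ext fun i => ?_
    refine Fin.cases ?_ (fun i => ?_) i
    · simp [Ideal.Quotient.eq_zero_iff_mem]
    · simp
  exact congr($this r)

theorem dvd_of_killX {d : ℕ} {r : PR (d + 1)} (h : killX d r = 0) : MvPolynomial.X 0 ∣ r := by
  have := sub_killX (MvPolynomial.X : Fin (d + 1) → PR (d + 1)) r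
  rw [h, map_zero, sub_zero, Ideal.mem_span_singleton] at this
  simpa using this

theorem sym_torsion [Algebra.FiniteType ℂ B] (d : ℕ) : ∀ (x : Fin d → B) (r : PR d), r ≠ 0 →
    ∀ (N : Type) [AddCommGroup N] [Module B N] [Module ℂ N] [IsScalarTower ℂ B N]
    [Module.Finite B N], Ok (unt x) N → ev x r ∈ Module.annihilator B N →
    ∀ b : B, sym (unt x) N (mulB N b) = 0 := by
  have : IsNoetherianRing B := Algebra.FiniteType.isNoetherianRing ℂ B
  induction d with
  | zero =>
    intro x r hr N _ _ _ _ _ _ h b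
    obtain ⟨c, rfl⟩ : ∃ c, r = MvPolynomial.C c := ⟨_, MvPolynomial.eq_C_of_isEmpty r⟩
    have hc : c ≠ 0 := by rintro rfl; simp at hr
    have : Subsingleton N := subsingleton_of_forall_eq 0 fun n => by
      have := Module.mem_annihilator.1 h n
      simpa [hc] using this
    exact sym_subsingleton _ _ _
  | succ d ih =>
    intro x r hr N _ _ _ _ _ ho h b
    have := dev x _ ho.okF ⊥ (fun p hp hle => ?_) N le_rfl
    · exact congrFun (AddSubmonoid.mem_bot.1 this) b
    rw [AddSubmonoid.mem_bot]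
    funext b
    have hop : Ok (unt x) (B ⧸ p) := ho.okF.ok _ (by rwa [Ideal.annihilator_quotient])
    have hc := cmp_mulB (N := B ⧸ p) x b
    rw [unt, par_succ] at hop hc
    rw [unt, par_succ]
    by_cases h0 : x 0 ∈ p
    · rw [sym_cons_ok _ _ _ hc (hop.tail (by rwa [Ideal.annihilator_quotient]))]
      simp
    · obtain ⟨j, r', hnd, hr'⟩ := WfDvdMonoid.max_power_factor' hr
        (MvPolynomial.X_prime (i := (0 : Fin (d + 1))) (R := ℂ)).not_isUnit
      have h1 : ev x r' ∈ p := by
        have h2 := hle h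
        rw [hr', map_mul, map_pow, MvPolynomial.aeval_X] at h2
        exact (hp.mem_or_mem h2).resolve_left fun h3 => h0 (hp.mem_of_pow_mem _ h3)
      have : Subsingleton (xk (x 0) (B ⧸ p)) := subsingleton_of_forall_eq 0 fun n => by
        obtain ⟨n, hn⟩ := n
        obtain ⟨n, rfl⟩ := Ideal.Quotient.mk_surjective n
        apply Subtype.ext
        have h2 : x 0 * n ∈ p := Ideal.Quotient.eq_zero_iff_mem.1 (mem_xk.1 hn)
        exact Ideal.Quotient.eq_zero_iff_mem.2 ((hp.mem_or_mem h2).resolve_left h0)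
      rw [sym_cons, sym_subsingleton _ (xk _ _), qmap_mulB,
        ih _ (killX d r') (fun h2 => hnd (dvd_of_killX h2)) _ hop.hq]
      · simp
      · have h2 : ev x r' ∈ Module.annihilator B ((B ⧸ p) ⧸ xq (x 0) (B ⧸ p)) :=
          ann_le_of_surj _ (Submodule.mkQ_surjective _) (by rwa [Ideal.annihilator_quotient])
        have h3 := (Ideal.span_singleton_le_iff_mem _).2 (mem_ann_xq (N := B ⧸ p) (x 0))
          (sub_killX x r')
        simpa using Ideal.sub_mem _ h2 h3

theorem sym_poly (d : ℕ) : sym (unt (MvPolynomial.X : Fin d → PR d)) (PR d) LinearMap.id = 1 := by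
  induction d with
  | zero =>
    have : sym (unt (MvPolynomial.X : Fin 0 → PR 0)) (PR 0) LinearMap.id =
      LinearMap.trace ℂ (PR 0) LinearMap.id := rfl
    have e := (MvPolynomial.isEmptyAlgEquiv ℂ (Fin 0)).toLinearEquiv
    have := Module.Finite.equiv e.symm
    rw [‹sym _ _ _ = _›, LinearMap.trace_id, e.finrank_eq]
    simp
  | succ d ih =>
    have : Subsingleton (xk (MvPolynomial.X 0 : PR (d + 1)) (PR (d + 1))) :=
      subsingleton_of_forall_eq 0 fun n => by
        apply Subtype.ext
        have h2 := mem_xk.1 n.2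
        simpa using h2
    rw [unt, par_succ, sym_cons, sym_subsingleton _ (xk _ _), mul_zero, sub_zero]
    refine Eq.trans ?_ ih
    have hs : Surjective (killX d) := by
      intro r
      refine ⟨MvPolynomial.rename Fin.succ r, ?_⟩
      rw [MvPolynomial.aeval_rename]
      simp [Function.comp_def]
    let g : (PR (d + 1) ⧸ xq (MvPolynomial.X 0 : PR (d + 1)) (PR (d + 1))) →ₗ[ℂ]
        (PR d ⧸ (⊥ : Submodule (PR d) (PR d))) := qmap _ _ (killX d).toLinearMap
    have hg : ∀ r, g (Submodule.Quotient.mk r) = Submodule.Quotient.mk (killX d r) := by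
      intro r
      refine qmap_mk (fun n hn => ?_) r
      obtain ⟨m, rfl⟩ := mem_xq.1 hn
      simp
    have hb : Bijective g := by
      constructor
      · rw [injective_iff_map_eq_zero]
        intro n hn
        obtain ⟨n, rfl⟩ := Submodule.Quotient.mk_surjective _ n
        rw [hg, Submodule.Quotient.mk_eq_zero, Submodule.mem_bot] at hn
        obtain ⟨m, rfl⟩ := dvd_of_killX hn
        exact (Submodule.Quotient.mk_eq_zero _).2 (mem_xq.2 ⟨m, rfl⟩)
      · intro n
        obtain ⟨n, rfl⟩ := Submodule.Quotient.mk_surjective _ n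
        obtain ⟨n, rfl⟩ := hs n
        exact ⟨_, hg n⟩
    let e := (LinearEquiv.ofBijective g hb).trans
      ((Submodule.quotEquivOfEqBot (⊥ : Submodule (PR d) (PR d)) rfl).restrictScalars ℂ)
    have he : ∀ r, e (Submodule.Quotient.mk r) = killX d r := by
      intro r
      change Submodule.quotEquivOfEqBot (⊥ : Submodule (PR d) (PR d)) rfl (g _) = _
      rw [hg]; rfl
    have hq : ∀ r, qmap (xq (MvPolynomial.X 0 : PR (d + 1)) (PR (d + 1)))
        (xq (MvPolynomial.X 0 : PR (d + 1)) (PR (d + 1))) (LinearMap.id (R := ℂ)) r = r := by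
      intro r
      obtain ⟨r, rfl⟩ := Submodule.Quotient.mk_surjective _ r
      exact qmap_mk (fun n hn => hn) r
    rw [sym_iso_map _ (killX d) e _ LinearMap.id, par_map]
    · simp [unt]
    · intro p _ n
      obtain ⟨n, rfl⟩ := Submodule.Quotient.mk_surjective _ n
      rw [← Submodule.Quotient.mk_smul, he, he]
      simp
    · intro n
      rw [hq]; rfl
    · exact cmp_unt _ _ fun i n => by rw [hq, hq]

def IntF {d : ℕ} (x : Fin d → B) (I : Ideal B) : Prop :=
  ∀ b : B, ∃ Q : (PR d)[X], Q.Monic ∧ Q.eval₂ (ev x : PR d →+* B) b ∈ I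

theorem IntF.okF {d : ℕ} {x : Fin d → B} {I : Ideal B} (h : IntF x I) : OkF x I := by
  intro b
  obtain ⟨Q, hQ, hb⟩ := h b
  refine ⟨Q.map MvPolynomial.constantCoeff, hQ.map _, ?_⟩
  set J := I ⊔ Ideal.span (Set.range x)
  have h1 := Ideal.Quotient.eq_zero_iff_mem.2 ((le_sup_left : I ≤ J) hb)
  have h2 : (Ideal.Quotient.mk J).comp (ev x : PR d →+* B) =
      (algebraMap ℂ (B ⧸ J)).comp MvPolynomial.constantCoeff := by
    refine MvPolynomial.ringHom_ext (fun c => by simp) fun i => ?_
    simp only [RingHom.coe_comp, RingHom.coe_coe, comp_apply, MvPolynomial.aeval_X,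
      MvPolynomial.constantCoeff_X, map_zero]
    exact Ideal.Quotient.eq_zero_iff_mem.2
      ((le_sup_right : _ ≤ J) (Ideal.subset_span ⟨i, rfl⟩))
  rw [hom_eval₂, h2, ← eval₂_map] at h1
  rw [← Ideal.Quotient.eq_zero_iff_mem, ← Ideal.Quotient.mkₐ_eq_mk ℂ, ← aeval_algHom_apply]
  exact h1

theorem IntF.mono {d : ℕ} {x : Fin d → B} {I J : Ideal B} (h : IntF x I) (hIJ : I ≤ J) :
    IntF x J := fun b => let ⟨Q, hQ, hb⟩ := h b; ⟨Q, hQ, hIJ hb⟩

theorem IntF.isIntegral {d : ℕ} {x : Fin d → B} {I : Ideal B} (h : IntF x I) :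
    ((Ideal.Quotient.mk I).comp (ev x : PR d →+* B)).IsIntegral := by
  intro b
  obtain ⟨b, rfl⟩ := Ideal.Quotient.mk_surjective b
  obtain ⟨Q, hQ, hb⟩ := h b
  exact ⟨Q, hQ, by rw [← hom_eval₂]; exact Ideal.Quotient.eq_zero_iff_mem.2 hb⟩

theorem intF_bot {d : ℕ} {x : Fin d → B} : IntF x ⊥ ↔ (ev x : PR d →+* B).IsIntegral := Iff.rfl

theorem IntF.map {A : Type} [CommRing A] [Algebra ℂ A] {d : ℕ} {x : Fin d → B} {I : Ideal B}
    (h : IntF x I) (π : B →ₐ[ℂ] A) (hπ : Surjective π) (hI : ∀ a ∈ I, π a = 0) :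
    IntF (fun i => π (x i)) ⊥ := by
  intro b
  obtain ⟨b, rfl⟩ := hπ b
  obtain ⟨Q, hQ, hb⟩ := h b
  refine ⟨Q, hQ, ?_⟩
  have h1 := hI _ hb
  have h2 : (π : B →+* A).comp (ev x : PR d →+* B) = (ev fun i => π (x i) : PR d →+* A) :=
    MvPolynomial.ringHom_ext (fun c => by simp) fun i => by simp
  change (π : B →+* A) _ = 0 at h1
  rw [hom_eval₂, h2] at h1
  exact h1

theorem sym_rank [Algebra.FiniteType ℂ B] {d : ℕ} (x : Fin d → B) (hx : IntF x ⊥)
    (hi : Injective (ev x)) : sym (unt x) B LinearMap.id ≠ 0 := by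
  let : Algebra (PR d) B := (ev x : PR d →+* B).toAlgebra
  have : IsScalarTower ℂ (PR d) B := IsScalarTower.of_algebraMap_eq fun c => ((ev x).commutes c).symm
  have : Algebra.IsIntegral (PR d) B := ⟨hx⟩
  have : Algebra.FiniteType (PR d) B := Algebra.FiniteType.of_restrictScalars_finiteType ℂ _ _
  have : Module.Finite (PR d) B := Algebra.IsIntegral.finite
  have c1 : ∀ (N : Type) [AddCommGroup N] [Module (PR d) N] [Module ℂ N]
      [IsScalarTower ℂ (PR d) N], Cmp (unt (MvPolynomial.X : Fin d → PR d))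
      (LinearMap.id : N →ₗ[ℂ] N) := fun N _ _ _ _ => cmp_unt _ _ fun _ _ => rfl
  have e1 : sym (unt (MvPolynomial.X : Fin d → PR d)) B LinearMap.id =
      sym (unt x) B LinearMap.id := by
    rw [sym_iso_map _ (ev x) (LinearEquiv.refl ℂ B) LinearMap.id LinearMap.id (fun _ _ _ => rfl)
      (fun _ => rfl) (c1 _), par_map]
    simp [unt]
  have hX : IntF (MvPolynomial.X : Fin d → PR d) ⊥ := fun b =>
    ⟨X - C b, monic_X_sub_C b, by simp⟩
  let P : AddSubmonoid (PR d → ℂ) :=
    { carrier := {f | ∃ n : ℕ, f 1 = n}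
      add_mem' := by
        rintro f g ⟨n, hn⟩ ⟨m, hm⟩
        exact ⟨n + m, by simp [hn, hm]⟩
      zero_mem' := ⟨0, by simp⟩ }
  have m1 : ∀ (N : Type) [AddCommGroup N] [Module (PR d) N] [Module ℂ N]
      [IsScalarTower ℂ (PR d) N], mulB N (1 : PR d) = LinearMap.id := by
    intro N _ _ _ _; ext; simp
  let i := Algebra.linearMap (PR d) B
  obtain ⟨n, hn⟩ := dev MvPolynomial.X ⊥ hX.okF P (fun p hp _ => by
    by_cases h0 : p = ⊥
    · subst h0
      refine ⟨1, ?_⟩
      have := sym_equiv (unt (MvPolynomial.X : Fin d → PR d))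
        (Submodule.quotEquivOfEqBot (⊥ : Submodule (PR d) (PR d)) rfl) LinearMap.id LinearMap.id
        (fun _ => rfl) (c1 _)
      simp only [m1, Nat.cast_one]
      exact this.trans (sym_poly d)
    · obtain ⟨r, hr, hr0⟩ := Submodule.exists_mem_ne_zero_of_ne_bot h0
      refine ⟨0, ?_⟩
      simp only [Nat.cast_zero]
      refine sym_torsion d _ r hr0 _ (hX.okF.ok _ bot_le) ?_ 1
      rw [Ideal.annihilator_quotient]
      simpa using hr) (B ⧸ LinearMap.range i) bot_le
  simp only [m1] at hn
  have h2 := addP (unt (MvPolynomial.X : Fin d → PR d)) _ _ _ i (LinearMap.range i).mkQ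
    LinearMap.id LinearMap.id LinearMap.id hi (Submodule.mkQ_surjective _)
    (LinearMap.exact_map_mkQ_range i) (fun _ => rfl) (fun _ => rfl) (c1 _) (hX.okF.ok _ bot_le)
  rw [← e1, h2, hn, sym_poly]
  norm_cast
  omega

theorem eig_induction {M : Type} [AddCommGroup M] [Module ℂ M] (T : Module.End ℂ M)
    (S : Submodule ℂ M) (F : Finset ℂ) (h : ∀ c ∈ F, ∀ v, T v = c • v → v ∈ S) :
    ∀ v, aeval T (∏ c ∈ F, (X - C c)) v = 0 → v ∈ S := by
  classical
  induction F using Finset.induction_on with
  | empty => intro v hv; have : v = 0 := by simpa using hv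
             rw [this]; exact S.zero_mem
  | insert c F hc ih =>
    intro v hv
    rw [Finset.prod_insert hc] at hv
    set P := ∏ c ∈ F, (X - C c) with hP
    have h0 : P.eval c ≠ 0 := by
      rw [hP, eval_prod]
      refine Finset.prod_ne_zero_iff.2 fun a ha => ?_
      simp only [eval_sub, eval_X, eval_C]
      exact sub_ne_zero.2 fun e => hc (e ▸ ha)
    obtain ⟨Q, hQ⟩ := X_sub_C_dvd_sub_C_eval (a := c) (p := P)
    have h1 : aeval T P v ∈ S := by
      refine h c (Finset.mem_insert_self _ _) _ ?_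
      rw [map_mul, Module.End.mul_apply] at hv
      simpa [sub_eq_zero, Algebra.algebraMap_eq_smul_one] using hv
    have h2 : aeval T ((X - C c) * Q) v ∈ S := by
      refine ih (fun a ha => h a (Finset.mem_insert_of_mem ha)) _ ?_
      rw [← Module.End.mul_apply, ← map_mul,
        show P * ((X - C c) * Q) = Q * ((X - C c) * P) by ring, map_mul, Module.End.mul_apply, hv,
        map_zero]
    rw [← hQ, map_sub, LinearMap.sub_apply] at h2
    have h3 := S.sub_mem h1 h2
    simp only [sub_sub_cancel, aeval_C, Module.algebraMap_end_apply] at h3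
    exact (S.smul_mem_iff h0).1 h3

theorem exists_roots (n : ℕ) (hn : 0 < n) : ∃ F : Finset ℂ, (∀ c ∈ F, c ^ n = 1) ∧
    ∀ {M : Type} [AddCommGroup M] [Module ℂ M] (T : Module.End ℂ M), T ^ n = 1 →
      aeval T (∏ c ∈ F, (X - C c)) = 0 := by
  refine ⟨nthRootsFinset n 1, fun c hc => (mem_nthRootsFinset hn 1).1 hc, fun T hT => ?_⟩
  rw [← X_pow_sub_one_eq_prod hn (Complex.isPrimitiveRoot_exp n hn.ne')]
  simp [hT]

theorem dev_lin [Algebra.FiniteType ℂ B] {d : ℕ} (x : Fin d → B) (I : Ideal B) (hI : OkF x I)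
    (P : Submodule ℂ (B → ℂ))
    (hP : ∀ p : Ideal B, p.IsPrime → I ≤ p → (fun b => sym (unt x) (B ⧸ p) (mulB _ b)) ∈ P)
    (F : Finset ℂ) : ∀ (N : Type) [AddCommGroup N] [Module B N] [Module ℂ N] [IsScalarTower ℂ B N]
    [Module.Finite B N] (t : Module.End ℂ N), (∀ (z : B) n, t (z • n) = z • t n) →
    I ≤ Module.annihilator B N → aeval t (∏ c ∈ F, (X - C c)) = 0 →
    (fun b : B => sym (unt x) N (mulB N b * t : Module.End ℂ N)) ∈ P := by
  classical
  have : IsNoetherianRing B := Algebra.FiniteType.isNoetherianRing ℂ B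
  induction F using Finset.induction_on with
  | empty =>
    intro N _ _ _ _ _ t _ _ h
    have : Subsingleton N := subsingleton_of_forall_eq 0 fun n => by simpa using congr($h n)
    simp only [sym_subsingleton]
    exact P.zero_mem
  | insert c F hc ih =>
    intro N _ _ _ _ _ t ht h hF
    let U : Submodule B N :=
      { carrier := {n | t n = c • n}
        add_mem' := fun {a b} ha hb => by
          simp only [Set.mem_ofPred_eq] at ha hb ⊢
          rw [map_add, ha, hb, smul_add]
        zero_mem' := by simp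
        smul_mem' := fun z n hn => by
          simp only [Set.mem_ofPred_eq] at hn ⊢
          rw [ht, hn, smul_comm] }
    have hU : ∀ n ∈ U, t n ∈ U := fun n hn => by
      rw [show t n = c • n from hn]
      exact U.smul_of_tower_mem c hn
    have hU' : ∀ b : B, ∀ n ∈ U, (mulB N b * t : Module.End ℂ N) n ∈ U :=
      fun b n hn => U.smul_mem b (hU n hn)
    have e1 : ∀ b : B, sym (unt x) N (mulB N b * t : Module.End ℂ N) =
        c * sym (unt x) U (mulB U b) +
        sym (unt x) (N ⧸ U) (mulB (N ⧸ U) b * qmap U U t : Module.End ℂ _) := by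
      intro b
      rw [sym_sub_quo _ U _ (hU' b) (cmp_unt _ _ fun i n => by simp [ht, smul_comm b])
        (hI.ok _ h), ← sym_smul _ _ _ _ (cmp_mulB _ _)]
      congr 2
      · ext n
        rw [smap_coe (hU' b)]
        simp [show t n = c • (n : N) from n.2, smul_comm b]
      · refine LinearMap.ext fun n => ?_
        obtain ⟨n, rfl⟩ := Submodule.Quotient.mk_surjective _ n
        rw [qmap_mk (hU' b), Module.End.mul_apply, Module.End.mul_apply, qmap_mk hU]
        rfl
    simp only [e1]
    refine P.add_mem (P.smul_mem c (dev x I hI P.toAddSubmonoid hP U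
      (h.trans (ann_le_of_inj _ U.subtype_injective)))) (ih _ _ (fun z n => ?_)
      (h.trans (ann_le_of_surj _ U.mkQ_surjective)) ?_)
    · obtain ⟨n, rfl⟩ := Submodule.Quotient.mk_surjective _ n
      rw [← Submodule.Quotient.mk_smul, qmap_mk hU, qmap_mk hU, ht, Submodule.Quotient.mk_smul]
    · refine LinearMap.ext fun n => ?_
      obtain ⟨n, rfl⟩ := Submodule.Quotient.mk_surjective _ n
      have := aeval_intertwine (U.mkQ.restrictScalars ℂ) t (qmap U U t) (fun n => qmap_mk hU n)
        (∏ c ∈ F, (X - C c)) n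
      refine this.trans ((Submodule.Quotient.mk_eq_zero _).2 ?_)
      rw [Finset.prod_insert hc, map_mul] at hF
      have h2 := congr($hF n)
      change t _ = c • _
      simpa [sub_eq_zero, Algebra.algebraMap_eq_smul_one] using h2

theorem dev_tw [Algebra.FiniteType ℂ B] {d : ℕ} (x : Fin d → B) (I : Ideal B) (hI : OkF x I)
    (σ : B →ₐ[ℂ] B) (n : ℕ) (hn : 0 < n) (hσ : σ ^ n = 1) (hx : ∀ i, σ (x i) - x i ∈ I)
    (P : Submodule ℂ (B → ℂ))
    (hP : ∀ p : Ideal B, p.IsPrime → I ≤ p → (∀ z, z - σ z ∈ p) →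
      (fun b => sym (unt x) (B ⧸ p) (mulB _ b)) ∈ P) (J : Ideal B) :
    ∀ (N : Type) [AddCommGroup N] [Module B N] [Module ℂ N] [IsScalarTower ℂ B N]
    [Module.Finite B N] (t : Module.End ℂ N), (∀ (z : B) m, t (z • m) = σ z • t m) →
    I ≤ Module.annihilator B N → J ≤ Module.annihilator B N → t ^ n = 1 →
    (fun b : B => sym (unt x) N (mulB N b * t : Module.End ℂ N)) ∈ P := by
  have : IsNoetherianRing B := Algebra.FiniteType.isNoetherianRing ℂ B
  obtain ⟨F, hF, hF'⟩ := exists_roots n hn
  induction J using WellFoundedGT.induction with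
  | ind J ih =>
    intro N _ _ _ _ _ t ht h hJ htn
    by_cases hz : ∀ z, z - σ z ∈ J
    · refine dev_lin x (I ⊔ J) (fun b => ?_) P
        (fun p hp hle => hP p hp (le_sup_left.trans hle) fun z => hle (Ideal.mem_sup_right (hz z)))
        F N t (fun z m => ?_) (sup_le h hJ) (hF' t htn)
      · obtain ⟨q, hq, hb⟩ := hI b
        exact ⟨q, hq, (sup_le_sup_right (le_sup_left : I ≤ I ⊔ J) _) hb⟩
      · have := Module.mem_annihilator.1 (hJ (hz z)) (t m)
        rw [sub_smul, sub_eq_zero] at this
        rw [ht, this]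
    · have : ∃ c ∈ F, c ≠ 1 ∧ ∃ y, σ y = c • y ∧ y ∉ J := by
        by_contra hcon
        push Not at hcon
        refine hz fun z => ?_
        refine eig_induction σ.toLinearMap
          ((J.restrictScalars ℂ).comap (LinearMap.id - σ.toLinearMap)) F (fun c hc v hv => ?_) z ?_
        · change v - σ v ∈ J
          have hv' : σ v = c • v := hv
          by_cases h1 : c = 1
          · rw [hv', h1]; simp
          · have := hcon c hc h1 v hv'
            rw [hv']
            exact J.sub_mem this (J.smul_of_tower_mem c this)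
        · rw [hF' σ.toLinearMap]
          · rfl
          · ext a
            have := congr($hσ a)
            rw [AlgHom.coe_pow] at this
            rw [Module.End.coe_pow]
            exact this
      obtain ⟨c, hc, hc1, y, hy, hyJ⟩ := this
      have hc0 : c ≠ 0 := by
        rintro rfl
        have := hF 0 hc
        simp [hn.ne'] at this
      have hlt : J < J ⊔ Ideal.span {y} := by
        refine lt_of_le_of_ne le_sup_left fun e => hyJ ?_
        rw [e]
        exact Ideal.mem_sup_right (Ideal.mem_span_singleton_self y)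
      have ct : Cmp [(y, c)] t := by
        intro p hp
        rw [List.mem_singleton] at hp
        subst hp
        exact ⟨hc0, fun m => by rw [ht, hy, smul_assoc]⟩
      have cb : ∀ b : B, Cmp ((y, c) :: unt x) (mulB N b * t : Module.End ℂ N) := by
        intro b p hp
        rcases List.mem_cons.1 hp with rfl | hp
        · exact ⟨hc0, fun m => by simp [ht, hy, smul_comm b]⟩
        · refine cmp_unt x _ (fun i m => ?_) p hp
          have := Module.mem_annihilator.1 (h (hx i)) (t m)
          rw [sub_smul, sub_eq_zero] at this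
          simp [ht, this, smul_comm b]
      have e1 : ∀ b : B, sym (unt x) N (mulB N b * t : Module.End ℂ N) = (1 - c)⁻¹ *
          (sym (unt x) (N ⧸ xq y N) (mulB _ b * qmap (xq y N) (xq y N) t : Module.End ℂ _) -
            c * sym (unt x) (xk y N) (mulB _ b * smap (xk y N) (xk y N) t : Module.End ℂ _)) := by
        intro b
        have h1 := sym_cons_ok _ _ _ (cb b) (hI.ok _ h)
        have e2 : qmap (xq y N) (xq y N) (mulB N b * t : Module.End ℂ N) =
            (mulB _ b * qmap (xq y N) (xq y N) t : Module.End ℂ _) := by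
          refine LinearMap.ext fun m => ?_
          obtain ⟨m, rfl⟩ := Submodule.Quotient.mk_surjective _ m
          rw [qmap_mk (cb b).xq_st, Module.End.mul_apply, Module.End.mul_apply, qmap_mk ct.xq_st]
          rfl
        have e3 : smap (xk y N) (xk y N) (mulB N b * t : Module.End ℂ N) =
            (mulB _ b * smap (xk y N) (xk y N) t : Module.End ℂ _) := by
          ext m
          rw [smap_coe (cb b).xk_st, Module.End.mul_apply, Module.End.mul_apply, mulB_apply,
            mulB_apply, Submodule.coe_smul, smap_coe ct.xk_st]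
        rw [sym_cons, e2, e3] at h1
        rw [h1, ← mul_assoc, inv_mul_cancel₀ (sub_ne_zero.2 hc1.symm), one_mul]
      simp only [e1]
      refine P.smul_mem _ (P.sub_mem (ih _ hlt _ _ (fun z m => ?_)
        (h.trans (ann_le_of_surj _ (xq y N).mkQ_surjective))
        (sup_le (hJ.trans (ann_le_of_surj _ (xq y N).mkQ_surjective)) ?_) ?_)
        (P.smul_mem c (ih _ hlt _ _ (fun z m => ?_)
        (h.trans (ann_le_of_inj _ (xk y N).subtype_injective))
        (sup_le (hJ.trans (ann_le_of_inj _ (xk y N).subtype_injective)) ?_) ?_)))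
      · obtain ⟨m, rfl⟩ := Submodule.Quotient.mk_surjective _ m
        rw [← Submodule.Quotient.mk_smul, qmap_mk ct.xq_st, qmap_mk ct.xq_st, ht,
          Submodule.Quotient.mk_smul]
      · rw [Ideal.span_singleton_le_iff_mem]; exact mem_ann_xq _
      · refine LinearMap.ext fun m => ?_
        obtain ⟨m, rfl⟩ := Submodule.Quotient.mk_surjective _ m
        have := aeval_intertwine ((xq y N).mkQ.restrictScalars ℂ) t (qmap _ _ t)
          (fun m => qmap_mk ct.xq_st m) (X ^ n) m
        simp only [map_pow, aeval_X, htn] at this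
        exact this
      · apply Subtype.ext
        rw [smap_coe ct.xk_st, Submodule.coe_smul, Submodule.coe_smul, smap_coe ct.xk_st, ht]
      · rw [Ideal.span_singleton_le_iff_mem]; exact mem_ann_xk _
      · ext m
        have := aeval_intertwine ((xk y N).subtype.restrictScalars ℂ) (smap _ _ t) t
          (fun m => (smap_coe ct.xk_st m).symm) (X ^ n) m
        simp only [map_pow, aeval_X, htn] at this
        exact this.symm

theorem dim_le_of_integral {R S : Type} [CommRing R] [CommRing S] (f : R →+* S)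
    (hf : f.IsIntegral) : ringKrullDim S ≤ ringKrullDim R := by
  let := f.toAlgebra
  have : Algebra.IsIntegral R S := ⟨hf⟩
  refine Order.krullDim_le_of_strictMono (PrimeSpectrum.comap f) fun p q hpq => ?_
  exact Ideal.IsIntegral.comap_lt_comap (R := R) (I := p.asIdeal) (J := q.asIdeal) hpq

theorem dim_ge_of_integral {R S : Type} [CommRing R] [CommRing S] (f : R →+* S)
    (hf : f.IsIntegral) (hi : Injective f) : ringKrullDim R ≤ ringKrullDim S := by
  let := f.toAlgebra
  have : Algebra.IsIntegral R S := ⟨hf⟩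
  refine iSup_le fun l => ?_
  obtain ⟨Q, -, hQ, hQ'⟩ := Ideal.exists_ideal_over_prime_of_isIntegral (S := S) l.head.asIdeal ⊥
    (by rw [show Ideal.comap (algebraMap R S) ⊥ = ⊥ from (RingHom.injective_iff_ker_eq_bot f).1 hi]
        exact bot_le)
  have : Q.LiesOver l.head.asIdeal := ⟨hQ'.symm⟩
  obtain ⟨L, hL, -⟩ := Ideal.exists_ltSeries_of_hasGoingUp l Q
  rw [← hL]
  exact Order.LTSeries.length_le_krullDim L

theorem dim_PR (d : ℕ) : ringKrullDim (PR d) = d := by
  rw [MvPolynomial.ringKrullDim_of_isNoetherianRing, ringKrullDim_eq_zero_of_field]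
  simp

theorem prime_dichotomy {d : ℕ} (x : Fin d → B) (I q p : Ideal B) (hq : q ∈ I.minimalPrimes)
    (hmax : ∀ q' ∈ I.minimalPrimes, q' ≠ q → ringKrullDim (B ⧸ q') < ringKrullDim (B ⧸ q))
    (hd : ringKrullDim (B ⧸ q) ≤ d) (hp : p.IsPrime) (hx : IntF x p) (hI : I ≤ p) :
    (∃ r : PR d, r ≠ 0 ∧ ev x r ∈ p) ∨ p = q := by
  by_contra hcon
  push Not at hcon
  obtain ⟨h1, h2⟩ := hcon
  have h3 : (d : WithBot ℕ∞) ≤ ringKrullDim (B ⧸ p) := by
    rw [← dim_PR]
    refine dim_ge_of_integral _ hx.isIntegral ?_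
    rw [injective_iff_map_eq_zero]
    intro r hr
    by_contra h0
    exact h1 r h0 (Ideal.Quotient.eq_zero_iff_mem.1 hr)
  obtain ⟨q', hq', hle⟩ := Ideal.exists_minimalPrimes_le hI
  by_cases e : q' = q
  · subst e
    have := hq.1.1
    obtain ⟨a, ha, ha'⟩ := SetLike.exists_of_lt (lt_of_le_of_ne hle h2.symm)
    have h4 := ringKrullDim_succ_le_of_surjective (Ideal.Quotient.factor hle)
      (Ideal.Quotient.factor_surjective hle) (r := Ideal.Quotient.mk q' a)
      (mem_nonZeroDivisors_of_ne_zero (mt Ideal.Quotient.eq_zero_iff_mem.1 ha'))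
      (Ideal.Quotient.eq_zero_iff_mem.2 ha)
    have h5 : (d : WithBot ℕ∞) + 1 ≤ d := (add_le_add_left h3 1).trans (h4.trans hd)
    norm_cast at h5
    omega
  · exact lt_irrefl _ (((h3.trans (ringKrullDim_le_of_surjective (Ideal.Quotient.factor hle)
      (Ideal.Quotient.factor_surjective hle))).trans_lt (hmax q' hq' e)).trans_le hd)

end Pool.Agent.Lib.MP_c89606_al
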