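import Pool.Agent.Lib.MP_c89606_al.Rho

/-! Calogero-Moser families through central characters. -/

namespace Pool.Agent.Lib.MP_c89606_al
open Module Function TensorProduct

variable {V : Type} [AddCommGroup V] [Module ℂ V] {W : Subgroup (V ≃ₗ[ℂ] V)} [Fintype W]
  (d : Dt W) [FiniteDimensional ℂ V] [DecidableEq W]

omit [FiniteDimensional ℂ V] [DecidableEq W] in
theorem XS_mem_adjoin {s : Sy (Dual ℂ V)} (hs : aug s = 0) :
    XS d s ∈ NonUnitalAlgebra.adjoin ℂ (Set.range (gx d)) := by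
  set J := NonUnitalAlgebra.adjoin ℂ (Set.range (gx d))
  have := sy_ind (J.toSubmodule.comap ((XS d).toLinearMap -
    (Algebra.linearMap ℂ (Cher d)) ∘ₗ aug.toLinearMap)) (by simp) (fun x s hs => ?_) s
  · simpa [hs] using this
  have h1 : gx d x ∈ J := NonUnitalAlgebra.subset_adjoin ℂ ⟨x, rfl⟩
  have h2 : XS d s - algebraMap ℂ _ (aug s) ∈ J := hs
  have h3 := J.add_mem (J.mul_mem h1 h2) (J.smul_mem (aug s) h1)
  rw [mul_sub, ← Algebra.commutes, ← Algebra.smul_def, sub_add_cancel] at h3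
  simpa [cR_X] using h3

omit [FiniteDimensional ℂ V] [DecidableEq W] in
theorem exists_of_mem_adjoin {f : Cher d} (hf : f ∈ NonUnitalAlgebra.adjoin ℂ (Set.range (gx d))) :
    ∃ s, aug s = 0 ∧ XS d s = f := by
  induction hf using NonUnitalAlgebra.adjoin_induction with
  | mem x hx => obtain ⟨x, rfl⟩ := hx; exact ⟨sι x, by simp, by simp [cR_X]⟩
  | add x y _ _ hx hy =>
    obtain ⟨s, h1, rfl⟩ := hx
    obtain ⟨t, h2, rfl⟩ := hy
    exact ⟨s + t, by simp [h1, h2], by simp⟩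
  | zero => exact ⟨0, by simp, by simp⟩
  | mul x y _ _ hx hy =>
    obtain ⟨s, h1, rfl⟩ := hx
    obtain ⟨t, h2, rfl⟩ := hy
    exact ⟨s * t, by simp [h1], by simp⟩
  | smul c x _ hx =>
    obtain ⟨s, h1, rfl⟩ := hx
    exact ⟨c • s, by simp [h1], by simp⟩

variable {E : Type} [AddCommGroup E] [Module ℂ E] (ρ : Representation ℂ W E)

noncomputable abbrev vRel : Submodule (Cher d) (Cher d ⊗[ℂ] E) := Submodule.span (Cher d)
  ({m | ∃ w v, m = gw d w ⊗ₜ v - 1 ⊗ₜ ρ w v} ∪ {m | ∃ y v, m = gy d y ⊗ₜ v} ∪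
    {m | ∃ f v, f ∈ NonUnitalAlgebra.adjoin ℂ (Set.range (gx d)) ∧
      (∀ w, gw d w * f = f * gw d w) ∧ m = f ⊗ₜ v} : Set (Cher d ⊗[ℂ] E))

theorem pt_of_nilp [FiniteDimensional ℂ E] [ρ.IsIrreducible] (z : Cen d) (c : ℂ) (n : ℕ)
    (h : ∀ m : BabyVerma d ρ, ((z : Cher d) - algebraMap ℂ (Cher d) c) ^ n • m = 0) :
    c = omg ρ.character (Om d z) := by
  let pr : Cher d ⊗[ℂ] E →ₗ[ℂ] E := TensorProduct.lift (Ev d ρ)
  have hpr : ∀ h v, pr (h ⊗ₜ v) = Ev d ρ h v := fun _ _ => rfl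
  let N : Submodule (Cher d) (Cher d ⊗[ℂ] E) :=
    { carrier := {m | ∀ h : Cher d, pr (h • m) = 0}
      add_mem' := fun ha hb h => by rw [smul_add, map_add, ha, hb, add_zero]
      zero_mem' := fun h => by simp
      smul_mem' := fun a m hm h => by rw [smul_smul]; exact hm _ }
  have hN : vRel d ρ ≤ N := by
    refine Submodule.span_le.2 ?_
    rintro _ ((⟨w, v, rfl⟩ | ⟨y, v, rfl⟩) | ⟨f, v, hf, hw, rfl⟩) h
    · rw [smul_sub, map_sub, smul_tmul', smul_tmul', hpr, hpr, smul_eq_mul, smul_eq_mul, ← cR_G,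
        Ev_right, mul_one, Module.End.mul_apply, sub_self]
    · have := Ev_XY d ρ 1 (sι y) h
      rw [map_one, one_mul, YT_ι, aug_ι, mul_zero, zero_smul] at this
      rw [smul_tmul', hpr, smul_eq_mul, ← cR_Y, this]; rfl
    · obtain ⟨s, hs, rfl⟩ := exists_of_mem_adjoin d hf
      have hc : XS d s ∈ Subalgebra.center ℂ (Cher d) := XS_central d fun w => XS_injective d (by
        have := (G_XS d w s).symm.trans (hw w)
        have := congrArg (· * (cR d).G w⁻¹) this
        change XS d (smp (dl w) s) = _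
        simpa [← cR_G, mul_assoc, ← map_mul] using this)
      have := Ev_XY d ρ s 1 h
      rw [map_one, mul_one, hs, zero_mul, zero_smul] at this
      rw [smul_tmul', hpr, smul_eq_mul, Subalgebra.mem_center_iff.1 hc, this]; rfl
  have := irr_nontrivial ρ
  obtain ⟨v, hv⟩ := exists_ne (0 : E)
  have h1 := h (Submodule.Quotient.mk (1 ⊗ₜ v))
  rw [← Submodule.Quotient.mk_smul, Submodule.Quotient.mk_eq_zero] at h1
  have h2 := hN h1 1
  rw [one_smul, smul_tmul', hpr, smul_eq_mul, mul_one] at h2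
  have h3 : ∀ k, Ev d ρ (((z : Cher d) - algebraMap ℂ (Cher d) c) ^ k) =
      (omg ρ.character (Om d z) - c) ^ k • 1 := by
    intro k
    induction k with
    | zero => simp [Ev_one]
    | succ k ih =>
      rw [pow_succ', sub_mul, map_sub, Ev_cen_mul, ← Algebra.smul_def, map_smul, ih, ← sub_smul,
        smul_smul, pow_succ']
  rw [h3] at h2
  have h4 : (omg ρ.character (Om d z) - c) ^ n = 0 := by simpa [hv] using h2
  exact (sub_eq_zero.1 (eq_zero_of_pow_eq_zero h4)).symm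

theorem nilp_of_range {S M : Type} [CommRing S] [IsNoetherianRing S] [AddCommGroup M] [Module S M]
    (I : Ideal S) (h : I ≤ (Module.annihilator S M).radical) (ψ : Module.End S M)
    (hψ : ∀ m, ψ m ∈ I • (⊤ : Submodule S M)) : ∃ n, ∀ m, (ψ ^ n) m = 0 := by
  obtain ⟨n, hn⟩ := Ideal.exists_pow_le_of_le_radical_of_fg h (IsNoetherian.noetherian I)
  have key : ∀ k m, (ψ ^ k) m ∈ I ^ k • (⊤ : Submodule S M) := by
    intro k
    induction k with
    | zero => simp
    | succ k ih =>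
      intro m
      rw [pow_succ' ψ, Module.End.mul_apply, pow_succ I, mul_smul]
      have h1 := Submodule.mem_map_of_mem (f := ψ) (ih m)
      rw [Submodule.map_smul''] at h1
      refine Submodule.smul_mono le_rfl ?_ h1
      rintro _ ⟨a, -, rfl⟩
      exact hψ a
  refine ⟨n, fun m => ?_⟩
  have : I ^ n • (⊤ : Submodule S M) ≤ ⊥ := Submodule.smul_le.2 fun r hr a _ =>
    Module.mem_annihilator.1 (hn hr) a
  exact this (key n m)

theorem nilp_of_pt [FiniteDimensional ℂ E] [ρ.IsIrreducible] (z : Cen d) :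
    ∃ n : ℕ, ∀ m : BabyVerma d ρ,
      ((z : Cher d) - algebraMap ℂ (Cher d) (omg ρ.character (Om d z))) ^ n • m = 0 := by
  let : Module (Sy (Dual ℂ V)) (BabyVerma d ρ) :=
    Module.compHom _ (XS d : Sy (Dual ℂ V) →+* Cher d)
  have hs : ∀ (s : Sy (Dual ℂ V)) (m : BabyVerma d ρ), s • m = XS d s • m := fun _ _ => rfl
  have : IsScalarTower ℂ (Sy (Dual ℂ V)) (BabyVerma d ρ) :=
    IsScalarTower.of_algebraMap_smul fun c m => by rw [hs, AlgHom.commutes, algebraMap_smul]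
  have : IsNoetherianRing (Sy (Dual ℂ V)) := Algebra.FiniteType.isNoetherianRing ℂ _
  let mk : Cher d ⊗[ℂ] E →ₗ[Cher d] BabyVerma d ρ := (vRel d ρ).mkQ
  have mk0 : ∀ m ∈ vRel d ρ, mk m = 0 := fun m hm => (Submodule.Quotient.mk_eq_zero _).2 hm
  have mks : Surjective mk := Submodule.mkQ_surjective _
  have mul : ∀ a h v, mk ((a * h) ⊗ₜ v) = a • mk (h ⊗ₜ v) := fun a h v => by
    rw [← map_smul]; rfl
  have r1 : ∀ w v, mk ((cR d).G w ⊗ₜ v) = mk (1 ⊗ₜ ρ w v) := fun w v => by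
    rw [← sub_eq_zero, ← map_sub]
    exact mk0 _ (Submodule.subset_span (Or.inl (Or.inl ⟨w, v, rfl⟩)))
  have r2 : ∀ t v, mk (YT d t ⊗ₜ v) = aug t • mk (1 ⊗ₜ v) := fun t v => by
    refine sy_lin (f := mk.restrictScalars ℂ ∘ₗ (TensorProduct.mk ℂ _ E).flip v ∘ₗ (YT d).toLinearMap)
      (g := aug.toLinearMap.smulRight (mk (1 ⊗ₜ v))) (by simp) (fun y t _ => ?_) t
    change mk (YT d (sι y * t) ⊗ₜ v) = aug (sι y * t) • _
    rw [mul_comm, map_mul, map_mul, mul, YT_ι, aug_ι, mul_zero, zero_smul, cR_Y,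
      mk0 _ (Submodule.subset_span (Or.inl (Or.inr ⟨y, v, rfl⟩))), smul_zero]
  let I : Ideal (Sy (Dual ℂ V)) := RingHom.ker (aug (L := Dual ℂ V))
  have r3 : ∀ h v, mk (h ⊗ₜ v) - mk (1 ⊗ₜ Ev d ρ h v) ∈
      I • (⊤ : Submodule (Sy (Dual ℂ V)) (BabyVerma d ρ)) := by
    intro h v
    refine cher_span d (((I • (⊤ : Submodule (Sy (Dual ℂ V)) (BabyVerma d ρ))).restrictScalars
      ℂ).comap (mk.restrictScalars ℂ ∘ₗ ((TensorProduct.mk ℂ _ E).flip v -
        TensorProduct.mk ℂ _ E 1 ∘ₗ LinearMap.applyₗ v ∘ₗ Ev d ρ))) (fun s w t => ?_) h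
    change mk ((XS d s * (cR d).G w * YT d t) ⊗ₜ v -
      1 ⊗ₜ Ev d ρ (XS d s * (cR d).G w * YT d t) v) ∈ I • (⊤ : Submodule (Sy (Dual ℂ V)) _)
    have e : Ev d ρ ((cR d).G w) = ρ w := by
      rw [← one_mul ((cR d).G w), Ev_right, Ev_one, one_mul]
    rw [map_sub, Ev_XY, e, mul, r2, smul_comm, ← mul, mul_one, mul, r1, LinearMap.smul_apply,
      tmul_smul, LinearMap.map_smul_of_tower, mul_comm, mul_smul, ← smul_sub, ← hs,
      ← algebraMap_smul (Sy (Dual ℂ V)) (aug s), ← sub_smul]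
    refine Submodule.smul_of_tower_mem _ _ (Submodule.smul_mem_smul ?_ Submodule.mem_top)
    simp [I, RingHom.mem_ker]
  set z' : Cher d := (z : Cher d) - algebraMap ℂ (Cher d) (omg ρ.character (Om d z)) with hz'
  have hc : ∀ a, a * z' = z' * a := fun a => by
    rw [hz', mul_sub, sub_mul, Subalgebra.mem_center_iff.1 z.2, Algebra.commutes]
  let ψ : Module.End (Sy (Dual ℂ V)) (BabyVerma d ρ) :=
    { toFun := fun m => z' • m
      map_add' := fun a b => smul_add _ _ _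
      map_smul' := fun s m => by rw [RingHom.id_apply, hs, hs, smul_smul, smul_smul, hc] }
  suffices hh : ∃ n, ∀ m, (ψ ^ n) m = 0 by
    obtain ⟨n, hn⟩ := hh
    refine ⟨n, fun m => ?_⟩
    have : ∀ k m, (ψ ^ k) m = z' ^ k • m := by
      intro k
      induction k with
      | zero => simp
      | succ k ih => intro m; rw [pow_succ', pow_succ', Module.End.mul_apply, ih, mul_smul]; rfl
    rw [← this, hn]
  refine nilp_of_range I ?_ ψ ?_
  · intro s hs0
    have := sub_aug_mem (Module.annihilator (Sy (Dual ℂ V)) (BabyVerma d ρ)).radical (fun x => ?_) s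
    · rwa [show aug s = 0 from hs0, map_zero, sub_zero] at this
    obtain ⟨P, p1, p2, p3, p4⟩ := orbit_poly (dlM W) x
    refine ⟨Fintype.card W, ?_⟩
    rw [Polynomial.eval_eq_sum_range, Finset.sum_range_succ, p1.coeff_natDegree, one_mul, p2,
      add_eq_zero_iff_eq_neg'] at p3
    rw [p3]
    refine Submodule.neg_mem _ (Ideal.sum_mem _ fun i hi => Ideal.mul_mem_right _ _ ?_)
    have hcen := XS_central d (p4 i).1
    have h0 := IH.aug (Nat.sub_ne_zero_of_lt (Finset.mem_range.1 hi)) (p4 i)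
    rw [Module.mem_annihilator]
    intro m
    obtain ⟨m, rfl⟩ := mks m
    induction m using TensorProduct.induction_on with
    | zero => simp
    | add a b ha hb => rw [map_add, smul_add, ha, hb, add_zero]
    | tmul h v =>
      rw [hs, ← mul, ← Subalgebra.mem_center_iff.1 hcen, mul, mk0 _ (Submodule.subset_span
        (Or.inr ⟨_, v, XS_mem_adjoin d h0, fun w => Subalgebra.mem_center_iff.1 hcen _, rfl⟩)),
        smul_zero]
  · intro m
    obtain ⟨m, rfl⟩ := mks m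
    induction m using TensorProduct.induction_on with
    | zero => simp
    | add a b ha hb => rw [map_add, map_add]; exact Submodule.add_mem _ ha hb
    | tmul h v =>
      have := r3 (z' * h) v
      rw [mul, hz', sub_mul, map_sub, Ev_cen_mul, ← Algebra.smul_def, map_smul, sub_self] at this
      simpa [ψ] using this

theorem mem_family_iff (p : Cen d →ₐ[ℂ] ℂ) (χ : W → ℂ) :
    χ ∈ family d p ↔ χ ∈ Irr W ∧ ∀ z, p z = omg χ (Om d z) := by
  constructor
  · rintro ⟨E, _, _, _, ρ, hρ, rfl, h⟩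
    refine ⟨⟨E, _, _, ‹_›, ρ, hρ, rfl⟩, fun z => ?_⟩
    obtain ⟨n, hn⟩ := h z
    exact pt_of_nilp d ρ z _ n hn
  · rintro ⟨⟨E, _, _, _, ρ, hρ, rfl⟩, h⟩
    refine ⟨E, _, _, ‹_›, ρ, hρ, rfl, fun z => ?_⟩
    rw [h z]
    exact nilp_of_pt d ρ z

end Pool.Agent.Lib.MP_c89606_al
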