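import Pool.Agent.Lib.MP_c89606_al.Core

/-! Comparison of the two traces. -/

namespace Pool.Agent.Lib.MP_c89606_al
open Module Function

theorem half {B A : Type} [CommRing B] [Algebra ℂ B] [Algebra.FiniteType ℂ B] [CommRing A]
    [Algebra ℂ A] (J q : Ideal B) (ι : (B ⧸ q) ≃ₐ[ℂ] A) (hq : q ∈ J.minimalPrimes)
    (hmax : ∀ q' ∈ J.minimalPrimes, q' ≠ q → ringKrullDim (B ⧸ q') < ringKrullDim (B ⧸ q))
    {m : ℕ} (hd : ringKrullDim A ≤ m) (x : Fin m → B) (F : B → ℂ) (hF : F 1 ≠ 0) (I : Ideal B)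
    (hI : IntF x I) (h : ∀ P : Submodule ℂ (B → ℂ), (∀ p : Ideal B, p.IsPrime → I ≤ p → J ≤ p →
      (fun b => sym (unt x) (B ⧸ p) (mulB _ b)) ∈ P) → F ∈ P) :
    IntF (fun i => ι (Ideal.Quotient.mk q (x i))) ⊥ ∧ ∃ μ : ℂ, ∀ b, F b =
      μ * sym (unt fun i => ι (Ideal.Quotient.mk q (x i))) A (mulB A (ι (Ideal.Quotient.mk q b))) := by
  have hd' : ringKrullDim (B ⧸ q) ≤ m := by
    rw [ringKrullDim_eq_of_ringEquiv ι.toRingEquiv]; exact hd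
  have tor : ∀ p : Ideal B, p.IsPrime → I ≤ p → J ≤ p → p ≠ q →
      (fun b : B => sym (unt x) (B ⧸ p) (mulB _ b)) = 0 := by
    intro p hp h1 h2 h3
    obtain ⟨r, hr, hr'⟩ := (prime_dichotomy x J q p hq hmax hd' hp (hI.mono h1) h2).resolve_right h3
    funext b
    exact sym_torsion m x r hr _ (hI.okF.ok _ (by rwa [Ideal.annihilator_quotient]))
      (by rwa [Ideal.annihilator_quotient]) b
  have hIq : I ≤ q := by
    by_contra hc
    have := h ⊥ fun p hp h1 h2 => tor p hp h1 h2 (by rintro rfl; exact hc h1)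
    exact hF (congrFun this 1)
  refine ⟨hI.map (ι.toAlgHom.comp (Ideal.Quotient.mkₐ ℂ q))
    (ι.surjective.comp Ideal.Quotient.mk_surjective) fun a ha => ?_, ?_⟩
  · change ι (Ideal.Quotient.mk q a) = 0
    rw [Ideal.Quotient.eq_zero_iff_mem.2 (hIq ha), map_zero]
  · have := h (ℂ ∙ fun b => sym (unt fun i => ι (Ideal.Quotient.mk q (x i))) A
      (mulB A (ι (Ideal.Quotient.mk q b)))) fun p hp h1 h2 => ?_
    · obtain ⟨μ, hμ⟩ := Submodule.mem_span_singleton.1 this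
      exact ⟨μ, fun b => (congrFun hμ b).symm⟩
    by_cases h3 : p = q
    · subst h3
      have : ∀ b, sym (unt x) (B ⧸ p) (mulB _ b) = sym (unt fun i => ι (Ideal.Quotient.mk p (x i))) A
          (mulB A (ι (Ideal.Quotient.mk p b))) := fun b =>
        sym_iso_par _ _ ι.toLinearEquiv _ _
          (fun i n => by
            rw [Algebra.smul_def]
            exact map_mul ι (Ideal.Quotient.mk p (x i)) n)
          (fun n => by
            rw [mulB_apply, mulB_apply, Algebra.smul_def b]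
            exact (map_mul ι (Ideal.Quotient.mk p b) n).symm) (cmp_mulB _ _)
      simp only [this]
      exact Submodule.mem_span_singleton_self _
    · rw [tor p hp h1 h2 h3]
      exact Submodule.zero_mem _

theorem glue {B A : Type} [CommRing B] [Algebra ℂ B] [Algebra.FiniteType ℂ B] [CommRing A]
    [Algebra ℂ A] [Algebra.FiniteType ℂ A] (J q : Ideal B) (ι : (B ⧸ q) ≃ₐ[ℂ] A)
    (hq : q ∈ J.minimalPrimes)
    (hmax : ∀ q' ∈ J.minimalPrimes, q' ≠ q → ringKrullDim (B ⧸ q') < ringKrullDim (B ⧸ q))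
    {m : ℕ} (x : Fin m → B) (x' : Fin m → A) (hx' : IntF x' ⊥) (θ : A →ₐ[ℂ] A) (hθ : Bijective θ)
    (χ : Fin m → ℂ) (h0 : ∀ i, χ i ≠ 0) (h1 : ∀ i k, χ i ^ (k + 1) ≠ 1)
    (wx : ∀ i, θ (ι (Ideal.Quotient.mk q (x i))) = χ i • ι (Ideal.Quotient.mk q (x i)))
    (wx' : ∀ i, θ (x' i) = χ i • x' i) (F : B → ℂ) (F' : A → ℂ) (hF : F 1 ≠ 0) (hFF : F 1 = F' 1)
    (I : Ideal B) (hI : IntF x I)
    (h : ∀ P : Submodule ℂ (B → ℂ), (∀ p : Ideal B, p.IsPrime → I ≤ p → J ≤ p →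
      (fun b => sym (unt x) (B ⧸ p) (mulB _ b)) ∈ P) → F ∈ P)
    (h' : ∀ P : Submodule ℂ (A → ℂ), (∀ p : Ideal A, p.IsPrime →
      (fun b => sym (unt x') (A ⧸ p) (mulB _ b)) ∈ P) → F' ∈ P) (b : B) :
    F b = F' (ι (Ideal.Quotient.mk q b)) := by
  have hd : ringKrullDim A ≤ m := by
    rw [← dim_PR]; exact dim_le_of_integral _ (intF_bot.1 hx')
  have := hq.1.1
  have : IsDomain A := ι.symm.toMulEquiv.isDomain _
  obtain ⟨a1, μ, a2⟩ := half J q ι hq hmax hd x F hF I hI h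
  obtain ⟨-, μ', a3⟩ := half ⊥ ⊥ (AlgEquiv.quotientBot ℂ A)
    (by rw [Ideal.minimalPrimes_eq_subsingleton_self]; rfl)
    (fun q' hq' hne => by
      rw [Ideal.minimalPrimes_eq_subsingleton_self] at hq'
      exact (hne hq').elim) hd x' F' (hFF ▸ hF) ⊥ hx'
    (fun P hP => h' P fun p hp => hP p hp bot_le bot_le)
  have a4 : ∀ b, F' b = μ' * sym (unt x') A (mulB A b) := a3
  simp only [sym_intrinsic θ hθ _ x' χ h0 h1 wx wx' a1.okF hx'.okF] at a2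
  have a5 := a2 1
  rw [map_one, map_one] at a5
  have a6 : μ = μ' := by
    refine mul_right_cancel₀ (b := sym (unt x') A (mulB A (1 : A))) ?_ ?_
    · intro e
      rw [e, mul_zero] at a5
      exact hF a5
    · rw [← a5, ← a4, hFF]
  rw [a2, a4, a6]

variable {V : Type} [AddCommGroup V] [Module ℂ V]

theorem exists_avg (τ : V ≃ₗ[ℂ] V) (n : ℕ) (hn : 0 < n) (hτ : τ ^ n = 1) :
    ∃ p : V →ₗ[ℂ] fixed τ, (∀ u : fixed τ, p u = u) ∧ (∀ v, p (τ v) = p v) ∧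
      ∀ w : V ≃ₗ[ℂ] V, w * τ = τ * w → ∀ v, (p (w v) : V) = w (p v) := by
  let s : V →ₗ[ℂ] V := (n : ℂ)⁻¹ • ∑ j ∈ Finset.range n, (τ ^ j : V ≃ₗ[ℂ] V).toLinearMap
  have hs : ∀ v, s v = (n : ℂ)⁻¹ • ∑ j ∈ Finset.range n, (τ ^ j) v := fun v => by
    simp [s, LinearMap.sum_apply]
  have h1 : ∀ v, s (τ v) = s v := fun v => by
    rw [hs, hs]
    congr 1
    have := Finset.sum_range_succ' (fun j => (τ ^ j) v) n
    rw [Finset.sum_range_succ, hτ, pow_zero] at this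
    simpa [pow_succ] using (add_right_cancel this).symm
  have h2 : ∀ w : V ≃ₗ[ℂ] V, w * τ = τ * w → ∀ v, s (w v) = w (s v) := fun w hw v => by
    rw [hs, hs, map_smul, map_sum]
    congr 1
    refine Finset.sum_congr rfl fun j _ => ?_
    exact congr($((Commute.pow_right hw j).eq.symm) v)
  refine ⟨s.codRestrict (fixed τ) fun v => mem_fixed.2 ((h2 τ rfl v).symm.trans (h1 v)),
    fun u => Subtype.ext ?_, fun v => Subtype.ext (h1 v), h2⟩
  have : ∀ j, (τ ^ j) (u : V) = u := by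
    intro j
    induction j with
    | zero => rfl
    | succ j ih => rw [pow_succ, LinearEquiv.mul_apply, mem_fixed.1 u.2, ih]
  change s u = u
  have h0 : (n : ℂ) ≠ 0 := by exact_mod_cast hn.ne'
  simp [hs, this, ← Nat.cast_smul_eq_nsmul ℂ, smul_smul, h0]

theorem card_centr (W : Subgroup (V ≃ₗ[ℂ] V)) (τ : V ≃ₗ[ℂ] V)
    (hreg : ∃ v, τ v = v ∧ ∀ w ∈ W, w v = v → w = 1) :
    Nonempty ({w : W // (w : V ≃ₗ[ℂ] V) * τ = τ * w} ≃ centr W τ) := by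
  have key : ∀ w : V ≃ₗ[ℂ] V, w * τ = τ * w → (fixed τ).map w.toLinearMap = fixed τ := by
    intro w hw
    rw [← fixed_conj, hw, mul_inv_cancel_right]
  let f : {w : W // (w : V ≃ₗ[ℂ] V) * τ = τ * w} → centr W τ := fun w =>
    ⟨(w.1 : V ≃ₗ[ℂ] V).ofSubmodules _ _ (key _ w.2), w.1, w.1.2, w.2, fun _ => rfl⟩
  refine ⟨Equiv.ofBijective f ⟨fun a b hab => ?_, ?_⟩⟩
  · obtain ⟨v, hv, h⟩ := hreg
    have h1 : (a.1 : V ≃ₗ[ℂ] V) v = (b.1 : V ≃ₗ[ℂ] V) v :=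
      congrArg (fun u : centr W τ => ((u : fixed τ ≃ₗ[ℂ] fixed τ) ⟨v, hv⟩ : V)) hab
    have := h _ (W.mul_mem (W.inv_mem b.1.2) a.1.2) (by simp [h1])
    exact Subtype.ext (Subtype.ext (inv_mul_eq_one.1 this).symm)
  · rintro ⟨u, w, hw, h1, h2⟩
    exact ⟨⟨⟨w, hw⟩, h1⟩, Subtype.ext (LinearEquiv.ext fun v => Subtype.ext (h2 v).symm)⟩

variable {W : Subgroup (V ≃ₗ[ℂ] V)}

theorem scal_norm (ξ : ℂˣ) :
    (LinearEquiv.smulOfUnit ξ : V ≃ₗ[ℂ] V) ∈ Subgroup.normalizer (W : Set (V ≃ₗ[ℂ] V)) := by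
  intro w
  have : (LinearEquiv.smulOfUnit ξ : V ≃ₗ[ℂ] V) * w * (LinearEquiv.smulOfUnit ξ)⁻¹ = w := by
    rw [mul_inv_eq_iff_eq_mul]
    ext v
    simp [LinearEquiv.smulOfUnit, Units.smul_def]
  rw [this]

theorem scal_map (ξ : ℂˣ) (H : Submodule ℂ V) :
    H.map (LinearEquiv.smulOfUnit ξ : V ≃ₗ[ℂ] V).toLinearMap = H := by
  ext v
  constructor
  · rintro ⟨u, hu, rfl⟩
    exact H.smul_mem (ξ : ℂ) hu
  · intro hv
    exact ⟨(ξ⁻¹ : ℂˣ) • v, H.smul_mem (ξ⁻¹ : ℂˣ) hv, by simp [LinearEquiv.smulOfUnit]⟩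

variable [Fintype W] [FiniteDimensional ℂ V] (d : Dt W)

omit [FiniteDimensional ℂ V] in
theorem IsAct.XS {g : V ≃ₗ[ℂ] V} {hg : g ∈ Subgroup.normalizer (W : Set (V ≃ₗ[ℂ] V))}
    {a : Cher d →ₐ[ℂ] Cher d} (ha : IsAct d g hg a) (s) : a (XS d s) = XS d (smp (dl g) s) :=
  congr($(sy_ext (f := a.comp (Pool.Agent.Lib.MP_c89606_al.XS d))
    (g := (Pool.Agent.Lib.MP_c89606_al.XS d).comp (smp (dl g))) fun x => by simp [ha.2.1]) s)

omit [FiniteDimensional ℂ V] in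
theorem IsAct.YT {g : V ≃ₗ[ℂ] V} {hg : g ∈ Subgroup.normalizer (W : Set (V ≃ₗ[ℂ] V))}
    {a : Cher d →ₐ[ℂ] Cher d} (ha : IsAct d g hg a) (t) :
    a (YT d t) = YT d (smp g.toLinearMap t) :=
  congr($(sy_ext (f := a.comp (Pool.Agent.Lib.MP_c89606_al.YT d))
    (g := (Pool.Agent.Lib.MP_c89606_al.YT d).comp (smp g.toLinearMap)) fun x => by simp [ha.1]) t)

noncomputable def apar {r r' : ℕ} (f : Fin r → Sy (Dual ℂ V)) (g : Fin r' → Sy V)
    (hf : ∀ i w, smp (dlM W w) (f i) = f i) (hg : ∀ i w, smp (vM W w) (g i) = g i) :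
    Fin (r + r') → Cen d :=
  Fin.append (fun i => ⟨XS d (f i), XS_central d (hf i)⟩) (fun i => ⟨YT d (g i), YT_central d (hg i)⟩)

theorem apar_finite {r r' : ℕ} (f : Fin r → Sy (Dual ℂ V)) (g : Fin r' → Sy V)
    (hf : ∀ i w, smp (dlM W w) (f i) = f i) (hg : ∀ i w, smp (vM W w) (g i) = g i)
    (hf' : IntF f ⊥) (hg' : IntF g ⊥) :
    Algebra.FiniteType ℂ (Cen d) ∧ Module.Finite (Cen d) (Cher d) ∧ IntF (apar d f g hf hg) ⊥ :=
  cen_finite d f g hf' hg' _ (fun i => ⟨Fin.castAdd r' i, by simp [apar]⟩)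
    (fun i => ⟨Fin.natAdd r i, by simp [apar]⟩)

theorem exists_scal (ξ : ℂˣ) : ∃ (a : Cher d →ₐ[ℂ] Cher d) (ha : Surjective a),
    Bijective (cenMap a ha) ∧ (∀ z z', Moves d (LinearEquiv.smulOfUnit ξ⁻¹) z z' ↔ a z = z') ∧
    ∀ {r r' : ℕ} (f : Fin r → Sy (Dual ℂ V)) (g : Fin r' → Sy V) hf hg (D : ℕ),
      (∀ i (t : ℂ), smp (t • LinearMap.id) (f i) = t ^ D • f i) →
      (∀ i (t : ℂ), smp (t • LinearMap.id) (g i) = t ^ D • g i) → ∀ i,
      cenMap a ha (apar d f g hf hg i) = Fin.append (fun _ : Fin r => (ξ : ℂ) ^ D)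
        (fun _ : Fin r' => ((ξ⁻¹ : ℂˣ) : ℂ) ^ D) i • apar d f g hf hg i := by
  obtain ⟨a, ha⟩ := exists_act d (scal_norm ξ⁻¹) (fun H _ j _ => by rw [scal_map])
  obtain ⟨b, hb⟩ := exists_act d (Subgroup.inv_mem _ (scal_norm ξ⁻¹))
    (fun H _ j _ => congrArg (fun H => d.k H j) (scal_map ξ⁻¹⁻¹ H))
  refine ⟨a, ha.surj, ⟨fun z z' h => Subtype.ext ?_, fun z => ⟨cenMap b hb.surj z, Subtype.ext ?_⟩⟩,
    ha.moves, fun f g hf hg D h1 h2 i => ?_⟩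
  · rw [← ha.comp_eq hb z, ← ha.comp_eq hb z']
    exact congrArg (fun u : Cen d => b u) h
  · exact hb.comp_eq (b := a) ha z
  · refine Fin.addCases (fun i => Subtype.ext ?_) (fun i => Subtype.ext ?_) i
    · have : dl (LinearEquiv.smulOfUnit ξ⁻¹ : V ≃ₗ[ℂ] V) = (ξ : ℂ) • LinearMap.id := by
        ext x v; simp [LinearEquiv.smulOfUnit, Units.smul_def]
      simp only [apar, Fin.append_left, cenMap_coe, ha.XS, this, h1, map_smul]
      rfl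
    · have : (LinearEquiv.smulOfUnit ξ⁻¹ : V ≃ₗ[ℂ] V).toLinearMap =
          ((ξ⁻¹ : ℂˣ) : ℂ) • LinearMap.id := rfl
      simp only [apar, Fin.append_right, cenMap_coe, ha.YT, this, h2, map_smul]
      rfl

end Pool.Agent.Lib.MP_c89606_al
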