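import Pool.Agent.Lib.MP_c89606_al.Side

/-! The main identity. -/

namespace Pool.Agent.Lib.MP_c89606_al
open Module Function

variable {V : Type} [AddCommGroup V] [Module ℂ V] {W : Subgroup (V ≃ₗ[ℂ] V)} [Fintype W]
  [FiniteDimensional ℂ V] [DecidableEq W] (d : Dt W)

theorem Om_one (w : W) : Om d (1 : Cen d) w = if w = 1 then 1 else 0 := by
  have := rho_G d aug aug (1 : W)
  rw [map_one] at this
  change rho d aug aug 1 w = _
  rw [this, Pi.single_apply]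

omit [FiniteDimensional ℂ V] [DecidableEq W] in
theorem isAct_one : IsAct d 1 (Subgroup.one_mem _) (AlgHom.id ℂ _) :=
  ⟨fun _ => rfl, fun _ => rfl, fun w => congrArg (cR d).G (Subtype.ext (by simp [cj_coe]))⟩

theorem smp_scal {L L' : Type} [AddCommGroup L] [Module ℂ L] [AddCommGroup L'] [Module ℂ L']
    (π : L →ₗ[ℂ] L') (s : Sy L) (t c : ℂ) (h : smp (t • LinearMap.id) s = c • s) :
    smp (t • LinearMap.id) (smp π s) = c • smp π s := by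
  rw [← map_smul, ← h, smp_smp, smp_smp]
  congr 2
  ext; simp

theorem trace_eq (τ : V ≃ₗ[ℂ] V) (hτ : τ ∈ Subgroup.normalizer (W : Set (V ≃ₗ[ℂ] V)))
    (hfin : IsOfFinOrder τ)
    (hk : ∀ H ∈ hyps W, ∀ j < ord W H, d.k (H.map τ.toLinearMap) j = d.k H j)
    (hreg : ∃ v, τ v = v ∧ ∀ w ∈ W, w v = v → w = 1)
    (q : Ideal (Cen d)) (hq : q ∈ (fixIdeal d τ).minimalPrimes)
    (hmax : ∀ q' ∈ (fixIdeal d τ).minimalPrimes, q' ≠ q →
      ringKrullDim (Cen d ⧸ q') < ringKrullDim (Cen d ⧸ q))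
    [Fintype (centr W τ)] [DecidableEq (centr W τ)]
    (d' : Dt (centr W τ)) (ι : (Cen d ⧸ q) ≃ₐ[ℂ] Cen d')
    (hι : ∀ (ξ : ℂˣ) (z z' : Cen d), Moves d (LinearEquiv.smulOfUnit ξ⁻¹) z z' →
      Moves d' (LinearEquiv.smulOfUnit ξ⁻¹) (ι (Ideal.Quotient.mk q z))
        (ι (Ideal.Quotient.mk q z'))) (b : Cen d) :
    ∑ w, Om d b (w * (cj τ hτ w)⁻¹) = ∑ w, Om d' (ι (Ideal.Quotient.mk q b)) (w * w⁻¹) := by
  obtain ⟨n, hn, hτn⟩ := isOfFinOrder_iff_pow_eq_one.1 hfin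
  obtain ⟨π', p1, p2, p3⟩ := exists_avg τ n hn hτn
  obtain ⟨π, hπ⟩ : ∃ π : Dual ℂ V →ₗ[ℂ] Dual ℂ (fixed τ), ∀ x u, π x u = x u :=
    ⟨(fixed τ).subtype.dualMap, fun _ _ => rfl⟩
  have s1 : Surjective π := by
    have : π = (fixed τ).subtype.dualMap := by ext x u; exact hπ x u
    rw [this]
    exact LinearMap.dualMap_surjective_of_injective (fixed τ).injective_subtype
  have s2 : Surjective π' := fun u => ⟨u, p1 u⟩
  obtain ⟨r, hr, f, f1, f2⟩ := exists_params (dlM W) π s1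
  obtain ⟨r', hr', g, g1, g2⟩ := exists_params (vM W) π' s2
  set D := (Fintype.card W).factorial
  obtain ⟨f', hf'⟩ : ∃ f' : Fin r → Sy (Dual ℂ (fixed τ)), ∀ i, smp π (f i) = f' i :=
    ⟨_, fun _ => rfl⟩
  obtain ⟨g', hg'⟩ : ∃ g' : Fin r' → Sy (fixed τ), ∀ i, smp π' (g i) = g' i := ⟨_, fun _ => rfl⟩
  simp only [hf'] at f2
  simp only [hg'] at g2
  have f3 : ∀ i (t : ℂ), smp (t • LinearMap.id) (f' i) = t ^ D • f' i := fun i t => by
    rw [← hf']; exact smp_scal _ _ _ _ ((f1 i).2 t)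
  have g3 : ∀ i (t : ℂ), smp (t • LinearMap.id) (g' i) = t ^ D • g' i := fun i t => by
    rw [← hg']; exact smp_scal _ _ _ _ ((g1 i).2 t)
  have f4 : ∀ i w, smp (dlM (centr W τ) w) (f' i) = f' i := by
    rintro i ⟨u, w, hw, h1, h2⟩
    rw [← hf', smp_smp]
    conv_rhs => rw [← (f1 i).1 ⟨w, hw⟩, smp_smp]
    congr 2
    ext x v
    change π x (u.symm v) = π (dl w x) v
    rw [hπ, hπ]
    change _ = x (w.symm v)
    rw [w.symm_apply_eq.2 ((congrArg Subtype.val (u.apply_symm_apply v)).symm.trans (h2 _))]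
  have g4 : ∀ i w, smp (vM (centr W τ) w) (g' i) = g' i := by
    rintro i ⟨u, w, hw, h1, h2⟩
    rw [← hg', smp_smp]
    conv_rhs => rw [← (g1 i).1 ⟨w, hw⟩, smp_smp]
    congr 2
    ext v
    exact (h2 _).trans (p3 w h1 v).symm
  obtain ⟨m1, m2, m3⟩ := model f' g' f2 g2 hr hr' D f3 g3
  obtain ⟨a, ha⟩ := exists_act d hτ hk
  obtain ⟨I, hI, key⟩ := side d ha n hn hτn π s1 π' s2
    (by
      ext x v
      change π (dl τ x) v = π x v
      rw [hπ, hπ]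
      change x (τ.symm v) = _
      rw [τ.symm_apply_eq.2 (mem_fixed.1 v.2).symm])
    (LinearMap.ext p2) f g (fun i => (f1 i).1) (fun i => (g1 i).1) f' g' hf' hg' m1 m3
  obtain ⟨I', -, key'⟩ := side d' (isAct_one d') 1 one_pos (one_pow _) LinearMap.id surjective_id
    LinearMap.id surjective_id rfl rfl f' g' f4 g4 f' g' (fun _ => smp_id _) (fun _ => smp_id _) m1 m3
  obtain ⟨r1, f0, a1, a2⟩ := exists_initial (dlM W)
  obtain ⟨r2, g0, a3, a4⟩ := exists_initial (vM W)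
  obtain ⟨i1, -, -⟩ := apar_finite d f0 g0 (fun i => (a1 i).1) (fun i => (a3 i).1) a2 a4
  obtain ⟨i2, -, i3⟩ := apar_finite d' f' g' f4 g4 f2 g2
  obtain ⟨ξ, hξ⟩ : ∃ ξ : ℂˣ, (ξ : ℂ) = 2 := ⟨Units.mk0 2 two_ne_zero, rfl⟩
  obtain ⟨θ0, t0, -, t2, t3⟩ := exists_scal d ξ
  obtain ⟨θ, u0, u1, u2, u3⟩ := exists_scal d' ξ
  have hD : 0 < D := Nat.factorial_pos _
  have c1 : ∀ k : ℕ, ((2 : ℂ) ^ D) ^ (k + 1) ≠ 1 := fun k e => by
    have : ((2 : ℕ) ^ D) ^ (k + 1) = 1 := by exact_mod_cast e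
    simp [hD.ne'] at this
  have e1 : ∑ w, Om d (1 : Cen d) (w * (cj τ hτ w)⁻¹) =
      ∑ w, Om d' (1 : Cen d') (w * (cj 1 (Subgroup.one_mem _) w)⁻¹) := by
    obtain ⟨e⟩ := card_centr W τ hreg
    simp only [Om_one, Finset.sum_boole]
    congr 1
    rw [← Fintype.card_subtype, ← Fintype.card_subtype]
    refine Fintype.card_congr (((Equiv.subtypeEquivRight fun w => ?_).trans e).trans
      (Equiv.subtypeUnivEquiv fun w => ?_).symm)
    · rw [mul_inv_eq_one, Subtype.ext_iff, cj_coe, eq_mul_inv_iff_mul_eq]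
    · rw [mul_inv_eq_one, Subtype.ext_iff, cj_coe]; simp
  have e2 : ∑ w, Om d (1 : Cen d) (w * (cj τ hτ w)⁻¹) ≠ 0 := by
    simp only [Om_one, Finset.sum_boole]
    exact_mod_cast Finset.card_ne_zero.2 ⟨1, by simp⟩
  have := glue (fixIdeal d τ) q ι hq hmax (apar d f g (fun i => (f1 i).1) (fun i => (g1 i).1))
    (apar d' f' g' f4 g4) i3 (cenMap θ u0) u1
    (Fin.append (fun _ : Fin r => (ξ : ℂ) ^ D) (fun _ : Fin r' => ((ξ⁻¹ : ℂˣ) : ℂ) ^ D))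
    (fun i => by refine Fin.addCases (fun i => ?_) (fun i => ?_) i <;> simp)
    (fun i k => by
      refine Fin.addCases (fun i => ?_) (fun i => ?_) i
      · rw [Fin.append_left, hξ]; exact c1 k
      · rw [Fin.append_right, Units.val_inv_eq_inv_val, hξ, inv_pow, inv_pow]
        exact fun e => c1 k (inv_eq_one.1 e))
    (fun i => by
      have h1 := t3 f g (fun i => (f1 i).1) (fun i => (g1 i).1) D (fun i => (f1 i).2)
        (fun i => (g1 i).2) i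
      have h2 := (u2 _ _).1 (hι ξ _ _ ((t2 _ _).2 (congrArg Subtype.val h1)))
      refine Subtype.ext (h2.trans (congrArg Subtype.val ?_))
      rw [← map_smul]
      exact congrArg ι (map_smul (Ideal.Quotient.mkₐ ℂ q) _ _))
    (u3 f' g' f4 g4 D f3 g3) _ _ (mul_ne_zero e2 m2) (by rw [e1]) I hI key
    (fun P hP => key' P fun p hp _ _ => hP p hp) b
  have h := mul_right_cancel₀ m2 this
  refine h.trans (Finset.sum_congr rfl fun w _ => ?_)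
  congr 3

theorem exists_pts (p : Cen d →ₐ[ℂ] ℂ) : ∃ P : (W → ℂ) → Cen d →ₐ[ℂ] ℂ,
    (∀ χ ∈ irrF W, ∀ z : Cen d, P χ z = omg χ (Om d z)) ∧
      ∀ χ, χ ∈ family d p ↔ χ ∈ irrF W ∧ P χ = p := by
  classical
  have h : ∀ χ ∈ irrF W, ∀ z : Cen d, (if h : χ ∈ Irr W then (exists_pt d h).choose else p) z =
      omg χ (Om d z) := fun χ hχ z => by
    rw [dif_pos (mem_irrF.1 hχ)]
    exact (exists_pt d (mem_irrF.1 hχ)).choose_spec z
  refine ⟨_, h, fun χ => ?_⟩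
  rw [mem_family_iff, mem_irrF]
  refine and_congr_right fun hχ => ⟨fun e => AlgHom.ext fun z => ?_, fun e z => ?_⟩
  · rw [h χ (mem_irrF.2 hχ), e]
  · rw [← h χ (mem_irrF.2 hχ), e]

omit [DecidableEq W] [FiniteDimensional ℂ V] in
theorem cval_value {τ : V ≃ₗ[ℂ] V} (hτ : τ ∈ Subgroup.normalizer (W : Set (V ≃ₗ[ℂ] V)))
    (hfin : IsOfFinOrder τ) {χ : W → ℂ} {c : ℂ} (h : IsExtValue τ χ c) :
    cval (cj τ hτ) χ = ((‖c‖ ^ 2 : ℝ) : ℂ) := by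
  obtain ⟨E, _, _, _, ρ, h1, rfl, rfl⟩ := h
  obtain ⟨n, hn, hτn⟩ := isOfFinOrder_iff_pow_eq_one.1 hfin
  set t : (W ⊔ Subgroup.zpowers τ : Subgroup (V ≃ₗ[ℂ] V)) :=
    ⟨τ, Subgroup.mem_sup_right (Subgroup.mem_zpowers τ)⟩
  rw [cval_ext _ _ (ρ t) (ρ t⁻¹) fun w => ?_, trace_inv_conj (ρ t) (ρ t⁻¹) n hn ?_ ?_,
    Complex.mul_conj, Complex.normSq_eq_norm_sq]
  · rfl
  · rw [← map_pow, ← map_one ρ]
    exact congrArg ρ (Subtype.ext hτn)
  · rw [← map_mul, inv_mul_cancel, map_one]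
  · change ρ _ = ρ t * ρ _ * ρ t⁻¹
    rw [← map_mul, ← map_mul]
    exact congrArg ρ (Subtype.ext (cj_coe τ hτ w))

theorem main (τ : V ≃ₗ[ℂ] V) (hτ : τ ∈ Subgroup.normalizer (W : Set (V ≃ₗ[ℂ] V)))
    (hfin : IsOfFinOrder τ)
    (hk : ∀ H ∈ hyps W, ∀ j < ord W H, d.k (H.map τ.toLinearMap) j = d.k H j)
    (hreg : ∃ v, τ v = v ∧ ∀ w ∈ W, w v = v → w = 1)
    (q : Ideal (Cen d)) (hq : q ∈ (fixIdeal d τ).minimalPrimes)
    (hmax : ∀ q' ∈ (fixIdeal d τ).minimalPrimes, q' ≠ q →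
      ringKrullDim (Cen d ⧸ q') < ringKrullDim (Cen d ⧸ q))
    [Fintype (centr W τ)] [DecidableEq (centr W τ)]
    (d' : Dt (centr W τ)) (ι : (Cen d ⧸ q) ≃ₐ[ℂ] Cen d')
    (hι : ∀ (ξ : ℂˣ) (z z' : Cen d), Moves d (LinearEquiv.smulOfUnit ξ⁻¹) z z' →
      Moves d' (LinearEquiv.smulOfUnit ξ⁻¹) (ι (Ideal.Quotient.mk q z))
        (ι (Ideal.Quotient.mk q z')))
    (p : (Cen d ⧸ q) →ₐ[ℂ] ℂ) (c : (W → ℂ) → ℂ)
    (hc : ∀ χ ∈ family d (p.comp (Ideal.Quotient.mkₐ ℂ q)), Stable τ χ → IsExtValue τ χ (c χ)) :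
    ∑ᶠ χ ∈ {χ ∈ family d (p.comp (Ideal.Quotient.mkₐ ℂ q)) | Stable τ χ},
      ((‖c χ‖ ^ 2 : ℝ) : ℂ) = ∑ᶠ ψ ∈ family d' (p.comp ι.symm), ψ 1 ^ 2 := by
  classical
  obtain ⟨P, hP, hF⟩ := exists_pts d (p.comp (Ideal.Quotient.mkₐ ℂ q))
  obtain ⟨P', hP', hF'⟩ := exists_pts d' (p.comp ι.symm)
  have h := fibre_sum (irrF W) (irrF (centr W τ)) P
    (fun ψ => (P' ψ).comp (ι.toAlgHom.comp (Ideal.Quotient.mkₐ ℂ q))) (cval (cj τ hτ))
    (cval fun w => w) (fun z => by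
      have := trace_eq d τ hτ hfin hk hreg q hq hmax d' ι hι z
      rw [trace_formula _ _ (Om_class d z), trace_formula (fun w => w) _ (Om_class d' _)] at this
      rw [Finset.sum_congr rfl fun χ hχ => by rw [hP χ hχ], this]
      exact Finset.sum_congr rfl fun ψ hψ => by rw [← hP' ψ hψ]; rfl)
    (p.comp (Ideal.Quotient.mkₐ ℂ q))
  have hs : ∀ χ, Stable τ χ ↔ ∀ w, χ (cj τ hτ w) = χ w := fun χ =>
    ⟨fun h w => h w _ (cj_coe τ hτ w), fun h w w' e => by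
      rw [← h w]; exact congrArg χ (Subtype.ext (e.trans (cj_coe τ hτ w).symm))⟩
  have l1 : {χ ∈ family d (p.comp (Ideal.Quotient.mkₐ ℂ q)) | Stable τ χ} =
      ↑(((irrF W).filter fun χ => P χ = p.comp (Ideal.Quotient.mkₐ ℂ q)).filter (Stable τ)) := by
    ext χ
    simp [hF]
  have l2 : family d' (p.comp ι.symm) = ↑((irrF (centr W τ)).filter fun ψ =>
      (P' ψ).comp (ι.toAlgHom.comp (Ideal.Quotient.mkₐ ℂ q)) = p.comp (Ideal.Quotient.mkₐ ℂ q)) := by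
    ext ψ
    rw [hF', Finset.coe_filter]
    refine and_congr_right fun _ => ⟨fun e => AlgHom.ext fun z => ?_, fun e => AlgHom.ext fun z => ?_⟩
    · rw [e]; simp
    · obtain ⟨z, rfl⟩ := (ι.surjective.comp Ideal.Quotient.mk_surjective) z
      exact (DFunLike.congr_fun e z).trans (congrArg p (ι.symm_apply_apply _).symm)
  rw [l1, l2, finsum_mem_coe_finset, finsum_mem_coe_finset]
  simp only [cval_id] at h
  rw [← h, Finset.sum_filter (Stable τ)]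
  refine Finset.sum_congr rfl fun χ hχ => ?_
  split_ifs with hχ'
  · exact (cval_value hτ hfin (hc χ ((hF χ).2 (Finset.mem_filter.1 hχ)) hχ')).symm
  · exact (cval_unstable (cj τ hτ).toMonoidHom (mem_irrF.1 (Finset.mem_filter.1 hχ).1)
      fun h => hχ' ((hs χ).2 h)).symm

theorem main' (τ : V ≃ₗ[ℂ] V) (hτ : τ ∈ Subgroup.normalizer (W : Set (V ≃ₗ[ℂ] V)))
    (hfin : IsOfFinOrder τ)
    (hk : ∀ H ∈ hyps W, ∀ j < ord W H, d.k (H.map τ.toLinearMap) j = d.k H j)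
    (hreg : ∃ v, τ v = v ∧ ∀ w ∈ W, w v = v → w = 1)
    (q : Ideal (Cen d)) (hq : q ∈ (fixIdeal d τ).minimalPrimes)
    (hmax : ∀ q' ∈ (fixIdeal d τ).minimalPrimes, q' ≠ q →
      ringKrullDim (Cen d ⧸ q') < ringKrullDim (Cen d ⧸ q))
    [Fintype (centr W τ)] [DecidableEq (centr W τ)]
    (d' : Dt (centr W τ)) (π : Cen d →ₐ[ℂ] Cen d') (hπ : Surjective π)
    (hker : ∀ z, π z = 0 ↔ z ∈ q)
    (hι : ∀ (ξ : ℂˣ) (z z' : Cen d), Moves d (LinearEquiv.smulOfUnit ξ⁻¹) z z' →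
      Moves d' (LinearEquiv.smulOfUnit ξ⁻¹) (π z) (π z'))
    (p : Cen d' →ₐ[ℂ] ℂ) (c : (W → ℂ) → ℂ)
    (hc : ∀ χ ∈ family d (p.comp π), Stable τ χ → IsExtValue τ χ (c χ)) :
    ∑ᶠ χ ∈ {χ ∈ family d (p.comp π) | Stable τ χ}, ((‖c χ‖ ^ 2 : ℝ) : ℂ) =
      ∑ᶠ ψ ∈ family d' p, ψ 1 ^ 2 := by
  obtain rfl : RingHom.ker π = q := Ideal.ext hker
  obtain ⟨ι, hι'⟩ : ∃ ι : (Cen d ⧸ RingHom.ker π) ≃ₐ[ℂ] Cen d',
      ∀ z, ι (Ideal.Quotient.mk _ z) = π z := ⟨Ideal.quotientKerAlgEquivOfSurjective hπ, fun _ => rfl⟩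
  have e1 : (p.comp ι.toAlgHom).comp (Ideal.Quotient.mkₐ ℂ (RingHom.ker π)) = p.comp π :=
    AlgHom.ext fun z => congrArg p (hι' z)
  have e2 : (p.comp ι.toAlgHom).comp ι.symm = p :=
    AlgHom.ext fun z => congrArg p (ι.apply_symm_apply z)
  have := main d τ hτ hfin hk hreg _ hq hmax d' ι (by simpa only [hι'] using hι)
    (p.comp ι.toAlgHom) c (by rwa [e1])
  rwa [e1, e2] at this

end Pool.Agent.Lib.MP_c89606_al
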