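import Pool.Agent.Lib.MP_c89606_al.Sy

/-! Graded Noether normalisation by invariants. -/

namespace Pool.Agent.Lib.MP_c89606_al
open Module Function Polynomial

section IntCl
variable {B C : Type} [CommRing B] [Algebra ℂ B] [CommRing C] [Algebra ℂ C]

noncomputable def intCl {d : ℕ} (x : Fin d → B) : Subalgebra ℂ B where
  carrier := {b | (ev x : PR d →+* B).IsIntegralElem b}
  mul_mem' := fun ha hb => RingHom.IsIntegralElem.mul _ ha hb
  add_mem' := fun ha hb => RingHom.IsIntegralElem.add _ ha hb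
  algebraMap_mem' := fun c => by
    have := (ev x : PR d →+* B).isIntegralElem_map (x := algebraMap ℂ _ c)
    simpa using this

theorem self_mem_intCl {d : ℕ} (x : Fin d → B) (i : Fin d) : x i ∈ intCl x := by
  have := (ev x : PR d →+* B).isIntegralElem_map (x := MvPolynomial.X i)
  rw [RingHom.coe_coe, MvPolynomial.aeval_X] at this
  exact this

theorem intF_iff {d : ℕ} {x : Fin d → B} : IntF x ⊥ ↔ ∀ b, b ∈ intCl x := Iff.rfl

theorem intCl_root {d : ℕ} {x : Fin d → B} (P : B[X]) (hP : P.Monic) (b : B) (hb : P.eval b = 0)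
    (hc : ∀ i, P.coeff i ∈ intCl x) : b ∈ intCl x := by
  let := (ev x : PR d →+* B).toAlgebra
  rcases subsingleton_or_nontrivial B with h | h
  · rw [Subsingleton.elim b 0]; exact Subalgebra.zero_mem _
  refine IsIntegral.of_aeval_monic_of_isIntegral_coeff (R := PR d) hP ?_ (hb ▸ isIntegral_zero) hc
  intro h0
  rw [hP.natDegree_eq_zero.1 h0] at hb
  simp at hb

theorem ev_mem {d : ℕ} (x : Fin d → B) (S : Subalgebra ℂ C) (π : B →ₐ[ℂ] C) (h : ∀ i, π (x i) ∈ S)
    (r : PR d) : π (ev x r) ∈ S := by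
  induction r using MvPolynomial.induction_on with
  | C a => simp
  | add p q hp hq => rw [map_add, map_add]; exact S.add_mem hp hq
  | mul_X p i hp => rw [map_mul, map_mul, MvPolynomial.aeval_X]; exact S.mul_mem hp (h i)

theorem intCl_map {d e : ℕ} (π : B →ₐ[ℂ] C) {x : Fin d → B} {y : Fin e → C}
    (h : ∀ i, π (x i) ∈ intCl y) {b : B} (hb : b ∈ intCl x) : π b ∈ intCl y := by
  obtain ⟨Q, hQ, hb⟩ := hb
  refine intCl_root (Q.map ((π : B →+* C).comp (ev x : PR d →+* B))) (hQ.map _) _ ?_ fun i => ?_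
  · rw [eval_map]
    have := hom_eval₂ Q (ev x : PR d →+* B) (π : B →+* C) b
    rw [hb, map_zero] at this
    exact this.symm
  · rw [coeff_map]
    exact ev_mem x _ π h _

theorem lin_subst {σ : Type} (g : σ → B) (l : σ → ℂ) (ρ : MvPolynomial σ ℂ) :
    (MvPolynomial.aeval (fun k => Polynomial.C (g k) + Polynomial.C (algebraMap ℂ B (l k)) * X)
      ρ : B[X]).natDegree ≤ ρ.totalDegree ∧
    (MvPolynomial.aeval (fun k => Polynomial.C (g k) + Polynomial.C (algebraMap ℂ B (l k)) * X)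
      ρ : B[X]).coeff ρ.totalDegree = algebraMap ℂ B
        (MvPolynomial.eval l (MvPolynomial.homogeneousComponent ρ.totalDegree ρ)) := by
  classical
  set lin : σ → B[X] := fun k => Polynomial.C (g k) + Polynomial.C (algebraMap ℂ B (l k)) * X
  have l1 : ∀ k, (lin k).natDegree ≤ 1 := fun k => by
    simp only [lin]; compute_degree
  have l2 : ∀ k, (lin k).coeff 1 = algebraMap ℂ B (l k) := fun k => by simp [lin, coeff_C]
  have key : ∀ (m : σ → ℕ) (s : Finset σ), (∏ k ∈ s, lin k ^ m k).natDegree ≤ ∑ k ∈ s, m k ∧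
      (∏ k ∈ s, lin k ^ m k).coeff (∑ k ∈ s, m k) = algebraMap ℂ B (∏ k ∈ s, l k ^ m k) := by
    intro m s
    induction s using Finset.induction_on with
    | empty => simp
    | insert k s hk ih =>
      have h1 : (lin k ^ m k).natDegree ≤ m k := by simpa using natDegree_pow_le_of_le (m k) (l1 k)
      have h2 := coeff_pow_of_natDegree_le (m := m k) (l1 k)
      rw [mul_one] at h2
      rw [Finset.prod_insert hk, Finset.sum_insert hk, Finset.prod_insert hk]
      refine ⟨natDegree_mul_le_of_le h1 ih.1, ?_⟩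
      rw [coeff_mul_add_eq_of_natDegree_le h1 ih.1, h2, ih.2, l2, map_mul, map_pow]
  have e : MvPolynomial.aeval lin ρ = ∑ m ∈ ρ.support,
      Polynomial.C (algebraMap ℂ B (ρ.coeff m)) * ∏ k ∈ m.support, lin k ^ m k := by
    rw [MvPolynomial.aeval_def, MvPolynomial.eval₂_eq]
    rfl
  have hle : ∀ m ∈ ρ.support, ∑ k ∈ m.support, m k ≤ ρ.totalDegree :=
    fun m hm => MvPolynomial.le_totalDegree hm
  rw [e]
  constructor
  · refine natDegree_sum_le_of_forall_le _ _ fun m hm => ?_
    exact (natDegree_C_mul_le _ _).trans ((key m _).1.trans (hle m hm))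
  · rw [finsetSum_coeff, MvPolynomial.homogeneousComponent_apply, map_sum, map_sum,
      Finset.sum_filter]
    refine Finset.sum_congr rfl fun m hm => ?_
    rw [coeff_C_mul]
    split_ifs with h
    · rw [← h, MvPolynomial.eval_monomial, map_mul]
      congr 1
      exact (key m _).2
    · rw [coeff_eq_zero_of_natDegree_lt ((key m _).1.trans_lt (lt_of_le_of_ne (hle m hm) h)),
        mul_zero]

theorem noether_step [Nontrivial C] (𝒱 : Submodule ℂ B) (π : B →ₐ[ℂ] C) {r : ℕ}
    (f : Fin (r + 1) → B) (hf : ∀ i, f i ∈ 𝒱) (hi : IntF (fun i => π (f i)) ⊥) (ρ : PR (r + 1))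
    (hρ : ρ ≠ 0) (h0 : ev (fun i => π (f i)) ρ = 0) :
    ∃ f' : Fin r → B, (∀ i, f' i ∈ 𝒱) ∧ IntF (fun i => π (f' i)) ⊥ := by
  have ha : ρ.totalDegree ≠ 0 := by
    intro h
    rw [MvPolynomial.totalDegree_eq_zero_iff_eq_C] at h
    rw [h] at h0 hρ
    simp only [MvPolynomial.algHom_C, map_eq_zero] at h0
    simp [h0] at hρ
  have h1 : MvPolynomial.homogeneousComponent ρ.totalDegree ρ ≠ 0 := by
    obtain ⟨m, hm, hm'⟩ := Finset.exists_mem_eq_sup _ (MvPolynomial.support_nonempty.2 hρ)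
      (fun m : Fin (r + 1) →₀ ℕ => m.sum fun _ e => e)
    intro h
    have := congrArg (MvPolynomial.coeff m) h
    rw [MvPolynomial.coeff_homogeneousComponent, if_pos (show m.degree = ρ.totalDegree from hm'.symm)] at this
    exact MvPolynomial.mem_support_iff.1 hm this
  obtain ⟨l, hl⟩ : ∃ l : Fin (r + 1) → ℂ,
      MvPolynomial.eval l (MvPolynomial.homogeneousComponent ρ.totalDegree ρ) ≠ 0 := by
    by_contra h
    push Not at h
    exact h1 (MvPolynomial.funext fun l => by simpa using h l)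
  obtain ⟨i, hli⟩ : ∃ i, l i ≠ 0 := by
    by_contra h
    push Not at h
    rw [show l = 0 from funext h, MvPolynomial.eval_zero, MvPolynomial.constantCoeff_eq,
      MvPolynomial.coeff_homogeneousComponent, if_neg (by simpa using ha.symm)] at hl
    exact hl rfl
  let u : B := (l i)⁻¹ • f i
  let g : Fin (r + 1) → B := fun k => f k - l k • u
  let f' : Fin r → B := fun j => g (i.succAbove j)
  have hg : ∀ k, π (g k) ∈ intCl (fun j => π (f' j)) := by
    intro k
    rcases Fin.eq_self_or_eq_succAbove i k with rfl | ⟨j, rfl⟩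
    · simp [g, u, smul_smul, hli]
    · exact self_mem_intCl (fun j => π (f' j)) j
  refine ⟨f', fun j => 𝒱.sub_mem (hf _) (𝒱.smul_mem _ (𝒱.smul_mem _ (hf i))), ?_⟩
  set S := intCl (fun j => π (f' j))
  have hu : π u ∈ S := by
    obtain ⟨d1, d2⟩ := lin_subst (fun k => (⟨π (g k), hg k⟩ : S)) l ρ
    set Q : S[X] := MvPolynomial.aeval (fun k => Polynomial.C (⟨π (g k), hg k⟩ : S) +
      Polynomial.C (algebraMap ℂ S (l k)) * X) ρ with hQ
    set μ := MvPolynomial.eval l (MvPolynomial.homogeneousComponent ρ.totalDegree ρ)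
    have hm : (Polynomial.C (algebraMap ℂ S μ⁻¹) * Q).Monic := by
      refine monic_of_natDegree_le_of_coeff_eq_one _ ((natDegree_C_mul_le _ _).trans d1) ?_
      rw [coeff_C_mul, d2, ← map_mul, inv_mul_cancel₀ hl, map_one]
    refine intCl_root ((Polynomial.C (algebraMap ℂ S μ⁻¹) * Q).map (S.val : S →+* C)) (hm.map _) _
      ?_ fun i => by rw [coeff_map]; exact Subtype.prop _
    have : eval₂ (S.val : S →+* C) (π u) Q = 0 := by
      have e : (eval₂AlgHom S.val (π u) fun _ => Commute.all _ _).comp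
          (MvPolynomial.aeval (fun k => Polynomial.C (⟨π (g k), hg k⟩ : S) +
            Polynomial.C (algebraMap ℂ S (l k)) * X)) = ev fun i => π (f i) := by
        refine MvPolynomial.algHom_ext fun k => ?_
        simp [g, Algebra.smul_def]
      exact (congr($e ρ)).trans h0
    rw [eval_map, eval₂_mul, this, mul_zero]
  intro b
  refine intCl_map (AlgHom.id ℂ C) (x := fun i => π (f i)) (fun k => ?_) (hi b)
  have : π (f k) = π (g k) + l k • π u := by simp [g]
  rw [AlgHom.id_apply, this]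
  exact S.add_mem (hg k) (S.smul_mem hu _)

theorem noether_reduce [Nontrivial C] (𝒱 : Submodule ℂ B) (π : B →ₐ[ℂ] C) (n : ℕ)
    (hn : ringKrullDim C ≤ n) (r : ℕ) : ∀ f : Fin r → B, (∀ i, f i ∈ 𝒱) →
    IntF (fun i => π (f i)) ⊥ →
    ∃ r' ≤ n, ∃ f' : Fin r' → B, (∀ i, f' i ∈ 𝒱) ∧ IntF (fun i => π (f' i)) ⊥ := by
  induction r with
  | zero => exact fun f h1 h2 => ⟨0, Nat.zero_le _, f, h1, h2⟩
  | succ r ih =>
    intro f h1 h2
    by_cases hi : Injective (ev fun i => π (f i))
    · refine ⟨r + 1, ?_, f, h1, h2⟩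
      have := (dim_ge_of_integral _ (intF_bot.1 h2) hi).trans hn
      rw [dim_PR] at this
      exact_mod_cast this
    · rw [injective_iff_map_eq_zero] at hi
      push Not at hi
      obtain ⟨ρ, h3, h4⟩ := hi
      obtain ⟨f', h5, h6⟩ := noether_step 𝒱 π f h1 h2 ρ h4 h3
      exact ih f' h5 h6

theorem ev_injective {n : ℕ} (y : Fin n → C) (hy : IntF y ⊥) (hn : (n : WithBot ℕ∞) ≤ ringKrullDim C) :
    Injective (ev y) := by
  rw [injective_iff_map_eq_zero]
  intro r hr
  by_contra h0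
  have h1 := dim_le_of_integral (RingHom.kerLift (ev y : PR n →+* C)) (fun b => by
    obtain ⟨Q, hQ, hb⟩ := hy b
    refine ⟨Q.map (Ideal.Quotient.mk _), hQ.map _, ?_⟩
    rw [eval₂_map]
    exact hb)
  have h2 := ringKrullDim_succ_le_of_surjective
    (Ideal.Quotient.mk (RingHom.ker (ev y : PR n →+* C))) Ideal.Quotient.mk_surjective
    (mem_nonZeroDivisors_of_ne_zero h0) (Ideal.Quotient.eq_zero_iff_mem.2 hr)
  rw [dim_PR] at h2
  have h5 : (n : WithBot ℕ∞) + 1 ≤ n := (add_le_add_left (hn.trans h1) 1).trans h2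
  norm_cast at h5
  omega

theorem exists_gens [Algebra.FiniteType ℂ B] {d : ℕ} {x : Fin d → B} (hx : IntF x ⊥) :
    ∃ s : Finset B, ∀ U : Submodule ℂ B, (∀ a ∈ s, a ∈ U) → (∀ i, ∀ u ∈ U, x i * u ∈ U) →
      ∀ b, b ∈ U := by
  let : Algebra (PR d) B := (ev x : PR d →+* B).toAlgebra
  have : IsScalarTower ℂ (PR d) B := IsScalarTower.of_algebraMap_eq fun c => ((ev x).commutes c).symm
  have : Algebra.IsIntegral (PR d) B := ⟨hx⟩
  have : Algebra.FiniteType (PR d) B := Algebra.FiniteType.of_restrictScalars_finiteType ℂ _ _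
  have : Module.Finite (PR d) B := Algebra.IsIntegral.finite
  obtain ⟨s, hs⟩ := Module.Finite.fg_top (R := PR d) (M := B)
  refine ⟨s, fun U h1 h2 b => ?_⟩
  let S : Subalgebra ℂ B :=
    { carrier := {a | ∀ s ∈ U, a * s ∈ U}
      mul_mem' := fun {a b} ha hb s hs => by rw [mul_assoc]; exact ha _ (hb s hs)
      add_mem' := fun {a b} ha hb s hs => by rw [add_mul]; exact U.add_mem (ha s hs) (hb s hs)
      algebraMap_mem' := fun c s hs => by rw [← Algebra.smul_def]; exact U.smul_mem c hs }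
  let U' : Submodule (PR d) B :=
    { carrier := U
      add_mem' := U.add_mem
      zero_mem' := U.zero_mem
      smul_mem' := fun r u hu => ev_mem x S (AlgHom.id ℂ B) h2 r u hu }
  have : ⊤ ≤ U' := hs ▸ Submodule.span_le.2 h1
  exact this Submodule.mem_top

theorem pow_mem_of_weight (θ : B →ₐ[ℂ] B) (I : Ideal B) (hI : ∀ a ∈ I, θ a ∈ I) (u : B)
    (hu : θ u = (2 : ℂ) • u) (q : ℂ[X]) (hq : q.Monic) (h : aeval u q ∈ I) : ∃ k, u ^ k ∈ I := by
  by_contra hc
  push Not at hc
  have := Module.End.eigenvectors_linearIndependent' (qmap I I θ.toLinearMap)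
    (fun k : ℕ => (2 : ℂ) ^ k) (fun a b hab => by
      have : (2 : ℕ) ^ a = 2 ^ b := by
        have h2 : (2 : ℂ) ^ a = 2 ^ b := hab
        exact_mod_cast h2
      exact Nat.pow_right_injective le_rfl this)
    (fun k => Submodule.Quotient.mk (u ^ k)) (fun k => ⟨?_, ?_⟩)
  · rw [linearIndependent_iff'] at this
    have h1 := this (Finset.range (q.natDegree + 1)) q.coeff ?_ q.natDegree (by simp)
    · simp [hq.coeff_natDegree] at h1
    · have h2 := (Submodule.Quotient.mk_eq_zero I).2 h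
      rw [aeval_eq_sum_range] at h2
      rw [← h2]
      have := map_sum (I.mkQ.restrictScalars ℂ) (fun i => q.coeff i • u ^ i)
        (Finset.range (q.natDegree + 1))
      simp only [map_smul] at this
      exact this.symm
  · rw [Module.End.mem_eigenspace_iff, qmap_mk hI, AlgHom.toLinearMap_apply, map_pow, hu,
      _root_.smul_pow]
    rfl
  · exact mt (Submodule.Quotient.mk_eq_zero I).1 (hc k)

end IntCl

variable {L : Type} [AddCommGroup L] [Module ℂ L] {G : Type} [Group G] [Fintype G]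

def IH (φ : G →* Module.End ℂ L) (D : ℕ) : Submodule ℂ (Sy L) where
  carrier := {s | (∀ g, smp (φ g) s = s) ∧ ∀ t : ℂ, smp (t • LinearMap.id) s = t ^ D • s}
  add_mem' := fun ha hb => ⟨fun g => by rw [map_add, ha.1, hb.1],
    fun t => by rw [map_add, ha.2, hb.2, smul_add]⟩
  zero_mem' := ⟨fun _ => map_zero _, fun _ => by simp⟩
  smul_mem' := fun c s hs => ⟨fun g => by rw [map_smul, hs.1],
    fun t => by rw [map_smul, hs.2, smul_comm]⟩

theorem IH.aug {φ : G →* Module.End ℂ L} {D : ℕ} (hD : D ≠ 0) {s : Sy L} (hs : s ∈ IH φ D) :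
    aug s = 0 := by
  have := congrArg Pool.Agent.Lib.MP_c89606_al.aug (hs.2 0)
  rw [aug_smp] at this
  simpa [hD] using this

theorem orbit_poly (φ : G →* Module.End ℂ L) (x : L) : ∃ P : (Sy L)[X], P.Monic ∧
    P.natDegree = Fintype.card G ∧ P.eval (sι x) = 0 ∧
    ∀ i, P.coeff i ∈ IH φ (Fintype.card G - i) := by
  classical
  have hd : (∏ g, (X - C (sι (φ g x))) : (Sy L)[X]).natDegree = Fintype.card G := by
    rw [natDegree_finsetProd_X_sub_C_eq_card]; rfl
  refine ⟨∏ g, (X - C (sι (φ g x))), monic_prod_X_sub_C _ _, hd, ?_, fun i => ⟨fun h => ?_, fun t => ?_⟩⟩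
  · rw [eval_prod]
    exact Finset.prod_eq_zero (Finset.mem_univ 1) (by simp)
  · have : (∏ g, (X - C (sι (φ g x))) : (Sy L)[X]).map (smp (φ h) : Sy L →+* Sy L) =
        ∏ g, (X - C (sι (φ g x))) := by
      rw [Polynomial.map_prod, ← Equiv.prod_comp (Equiv.mulLeft h) (fun g => X - C (sι (φ g x)))]
      simp
    have := congrArg (fun P => coeff P i) this
    simpa using this
  · have : ∀ s : Finset G, (∏ g ∈ s, (X - C (sι (φ g x))) : (Sy L)[X]).map
        (smp (t • LinearMap.id : L →ₗ[ℂ] L) : Sy L →+* Sy L) =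
        (∏ g ∈ s, (X - C (sι (φ g x)))).scaleRoots (algebraMap ℂ _ t) := by
      intro s
      induction s using Finset.induction_on with
      | empty => simp
      | insert g s hg ih =>
        rw [Finset.prod_insert hg, Polynomial.map_mul, ih, mul_scaleRoots_of_noZeroDivisors,
          X_sub_C_scaleRoots]
        simp [Algebra.smul_def, mul_comm]
    have := congrArg (fun P => coeff P i) (this Finset.univ)
    simp only [coeff_map, coeff_scaleRoots, hd, RingHom.coe_coe] at this
    rw [this, Algebra.smul_def, mul_comm, map_pow]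

theorem exists_initial [FiniteDimensional ℂ L] (φ : G →* Module.End ℂ L) :
    ∃ r, ∃ f : Fin r → Sy L, (∀ i, f i ∈ IH φ (Fintype.card G).factorial) ∧ IntF f ⊥ := by
  choose P h1 h2 h3 h4 using orbit_poly φ
  let b := Module.finBasis ℂ L
  let e := Fintype.equivFin (Fin (finrank ℂ L) × Fin (Fintype.card G))
  let c : Fin (finrank ℂ L) × Fin (Fintype.card G) → Sy L := fun p =>
    (P (b p.1)).coeff p.2 ^ ((Fintype.card G).factorial / (Fintype.card G - p.2))
  have hdvd : ∀ i : Fin (Fintype.card G), (Fintype.card G - i) ∣ (Fintype.card G).factorial :=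
    fun i => Nat.dvd_factorial (Nat.sub_pos_of_lt i.2) (Nat.sub_le _ _)
  refine ⟨_, fun i => c (e.symm i), fun i => ⟨fun g => ?_, fun t => ?_⟩, ?_⟩
  · simp only [c, map_pow, (h4 _ _).1]
  · simp only [c, map_pow, (h4 _ _).2, _root_.smul_pow, ← pow_mul, Nat.mul_div_cancel' (hdvd _)]
  · refine sy_top (intCl _) fun x => ?_
    rw [← b.sum_repr x, map_sum]
    refine Subalgebra.sum_mem _ fun a _ => ?_
    rw [map_smul]
    refine Subalgebra.smul_mem _ (intCl_root _ (h1 _) _ (h3 _) fun i => ?_) _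
    rcases lt_trichotomy i (Fintype.card G) with hi | hi | hi
    · have h5 := self_mem_intCl (fun i => c (e.symm i)) (e (a, ⟨i, hi⟩))
      rw [Equiv.symm_apply_apply] at h5
      have h6 : 0 < (Fintype.card G).factorial / (Fintype.card G - i) :=
        Nat.div_pos (Nat.le_of_dvd (Nat.factorial_pos _) (hdvd ⟨i, hi⟩)) (Nat.sub_pos_of_lt hi)
      refine intCl_root (X ^ _ - C (c (a, ⟨i, hi⟩))) (monic_X_pow_sub_C _ h6.ne') _ (by simp [c])
        fun j => ?_
      rw [coeff_sub, coeff_X_pow, coeff_C]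
      refine Subalgebra.sub_mem _ ?_ ?_ <;> split_ifs
      exacts [Subalgebra.one_mem _, Subalgebra.zero_mem _, h5, Subalgebra.zero_mem _]
    · rw [hi.trans (h2 (b a)).symm, (h1 _).coeff_natDegree]; exact Subalgebra.one_mem _
    · rw [coeff_eq_zero_of_natDegree_lt (by rw [h2]; exact hi)]; exact Subalgebra.zero_mem _

theorem exists_params [FiniteDimensional ℂ L] (φ : G →* Module.End ℂ L) {L' : Type}
    [AddCommGroup L'] [Module ℂ L'] [FiniteDimensional ℂ L'] (π : L →ₗ[ℂ] L') (hπ : Surjective π) :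
    ∃ r ≤ finrank ℂ L', ∃ f : Fin r → Sy L, (∀ i, f i ∈ IH φ (Fintype.card G).factorial) ∧
      IntF (fun i => smp π (f i)) ⊥ := by
  obtain ⟨r, f, h1, h2⟩ := exists_initial φ
  refine noether_reduce _ (smp π) _ dim_Sy.le r f h1 (h2.map _ ?_ fun a ha => by
    rw [Ideal.mem_bot.1 ha, map_zero])
  refine sy_top (smp π).range fun x => ?_
  obtain ⟨x, rfl⟩ := hπ x
  exact ⟨sι x, smp_ι _ _⟩

theorem aug_nilp {n : ℕ} (y : Fin n → Sy L) (hy : IntF y ⊥)
    (hw : ∀ i, ∃ c : ℂ, smp ((2 : ℂ) • LinearMap.id) (y i) = c • y i) (a : Sy L) (ha : aug a = 0) :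
    ∃ k, a ^ k ∈ Ideal.span (Set.range y) := by
  have := sub_aug_mem (Ideal.span (Set.range y)).radical (fun x => ?_) a
  · rw [ha, map_zero, sub_zero] at this
    exact this
  obtain ⟨q, hq, h⟩ := hy.okF (sι x)
  rw [bot_sup_eq] at h
  refine pow_mem_of_weight (smp ((2 : ℂ) • LinearMap.id)) _ ?_ _ (by simp) q hq h
  have : Ideal.span (Set.range y) ≤
      (Ideal.span (Set.range y)).comap (smp ((2 : ℂ) • LinearMap.id)) := by
    rw [Ideal.span_le]
    rintro _ ⟨i, rfl⟩
    obtain ⟨c, hc⟩ := hw i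
    rw [SetLike.mem_coe, Ideal.mem_comap, hc]
    exact Submodule.smul_of_tower_mem _ c (Ideal.subset_span ⟨i, rfl⟩)
  exact this

end Pool.Agent.Lib.MP_c89606_al
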