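import Pool.Agent.Lib.MP_c89606_al.Dev

/-! Symmetric algebras. -/

namespace Pool.Agent.Lib.MP_c89606_al
open Module Function

def Sy (L : Type) [AddCommGroup L] [Module ℂ L] : Type := SymmetricAlgebra ℂ L

variable {L L' L'' : Type} [AddCommGroup L] [Module ℂ L] [AddCommGroup L'] [Module ℂ L']
  [AddCommGroup L''] [Module ℂ L'']

noncomputable instance : CommRing (Sy L) := inferInstanceAs (CommRing (SymmetricAlgebra ℂ L))

noncomputable instance : Algebra ℂ (Sy L) := inferInstanceAs (Algebra ℂ (SymmetricAlgebra ℂ L))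

instance : IsDomain (Sy L) := inferInstanceAs (IsDomain (SymmetricAlgebra ℂ L))

noncomputable def sι : L →ₗ[ℂ] Sy L := SymmetricAlgebra.ι ℂ L

theorem sy_top (S : Subalgebra ℂ (Sy L)) (h : ∀ x, sι x ∈ S) (s : Sy L) : s ∈ S :=
  SymmetricAlgebra.induction (R := ℂ) (M := L) (motive := fun s : Sy L => s ∈ S)
    S.algebraMap_mem h (fun _ _ => S.mul_mem) (fun _ _ => S.add_mem) s

theorem sy_ext {A : Type} [Semiring A] [Algebra ℂ A] {f g : Sy L →ₐ[ℂ] A}
    (h : ∀ x, f (sι x) = g (sι x)) : f = g :=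
  AlgHom.ext (sy_top (AlgHom.equalizer f g) h)

theorem sy_ind (U : Submodule ℂ (Sy L)) (h1 : 1 ∈ U) (h : ∀ x, ∀ s ∈ U, sι x * s ∈ U) (s : Sy L) :
    s ∈ U := by
  let S : Subalgebra ℂ (Sy L) :=
    { carrier := {a | ∀ s ∈ U, a * s ∈ U}
      mul_mem' := fun {a b} ha hb s hs => by rw [mul_assoc]; exact ha _ (hb s hs)
      add_mem' := fun {a b} ha hb s hs => by rw [add_mul]; exact U.add_mem (ha s hs) (hb s hs)
      algebraMap_mem' := fun c s hs => by rw [← Algebra.smul_def]; exact U.smul_mem c hs }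
  simpa using sy_top S h s 1 h1

theorem sy_lin {M : Type} [AddCommGroup M] [Module ℂ M] {f g : Sy L →ₗ[ℂ] M} (h1 : f 1 = g 1)
    (h : ∀ x s, f s = g s → f (sι x * s) = g (sι x * s)) (s : Sy L) : f s = g s :=
  sy_ind (LinearMap.eqLocus f g) h1 h s

open scoped IsMulCommutative in
theorem exists_liftC {A : Type} [Ring A] [Algebra ℂ A] (f : L →ₗ[ℂ] A)
    (h : ∀ a b, f a * f b = f b * f a) : ∃ F : Sy L →ₐ[ℂ] A, ∀ x, F (sι x) = f x := by
  have := Algebra.isMulCommutative_adjoin ℂ (s := Set.range f) (by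
    rintro _ ⟨a, rfl⟩ _ ⟨b, rfl⟩; exact h a b)
  let f' : L →ₗ[ℂ] Algebra.adjoin ℂ (Set.range f) :=
    f.codRestrict (Subalgebra.toSubmodule (Algebra.adjoin ℂ (Set.range f)))
      fun a => Algebra.subset_adjoin ⟨a, rfl⟩
  refine ⟨(Algebra.adjoin ℂ (Set.range f)).val.comp (SymmetricAlgebra.lift f'), fun x => ?_⟩
  exact congrArg Subtype.val (SymmetricAlgebra.lift_ι_apply f' x)

noncomputable def liftC {A : Type} [Ring A] [Algebra ℂ A] (f : L →ₗ[ℂ] A)
    (h : ∀ a b, f a * f b = f b * f a) : Sy L →ₐ[ℂ] A := (exists_liftC f h).choose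

@[simp] theorem liftC_ι {A : Type} [Ring A] [Algebra ℂ A] (f : L →ₗ[ℂ] A)
    (h : ∀ a b, f a * f b = f b * f a) (x : L) : liftC f h (sι x) = f x :=
  (exists_liftC f h).choose_spec x

noncomputable def smp (f : L →ₗ[ℂ] L') : Sy L →ₐ[ℂ] Sy L' :=
  liftC (sι ∘ₗ f) fun _ _ => mul_comm _ _

@[simp] theorem smp_ι (f : L →ₗ[ℂ] L') (x : L) : smp f (sι x) = sι (f x) := liftC_ι _ _ _

theorem smp_smp (f : L →ₗ[ℂ] L') (g : L' →ₗ[ℂ] L'') (s : Sy L) :
    smp g (smp f s) = smp (g ∘ₗ f) s :=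
  congr($(sy_ext (f := (smp g).comp (smp f)) (g := smp (g ∘ₗ f)) fun x => by simp) s)

theorem smp_id (s : Sy L) : smp LinearMap.id s = s :=
  congr($(sy_ext (f := smp LinearMap.id) (g := AlgHom.id ℂ _) fun x => by simp) s)

noncomputable def aug : Sy L →ₐ[ℂ] ℂ := liftC 0 fun _ _ => rfl

@[simp] theorem aug_ι (x : L) : aug (sι x) = 0 := liftC_ι _ _ _

theorem aug_smp (f : L →ₗ[ℂ] L') (s : Sy L) : aug (smp f s) = aug s :=
  congr($(sy_ext (f := aug.comp (smp f)) (g := aug) fun x => by simp) s)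

theorem sι_ne {a : L} (h : a ≠ 0) : sι a ≠ 0 := by
  obtain ⟨φ, hφ⟩ := (Module.forall_dual_apply_eq_zero_iff ℂ a).not.2 h |> not_forall.1
  intro e
  have := liftC_ι φ (fun _ _ => mul_comm _ _) a
  rw [e, map_zero] at this
  exact hφ this.symm

theorem sub_aug_mem (I : Ideal (Sy L)) (h : ∀ x, sι x ∈ I) (s : Sy L) :
    s - algebraMap ℂ _ (aug s) ∈ I := by
  rw [← Ideal.Quotient.eq]
  have : Ideal.Quotient.mkₐ ℂ I = (Algebra.ofId ℂ _).comp aug := sy_ext fun x => by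
    simp [Ideal.Quotient.eq_zero_iff_mem, h]
  exact congr($this s)

noncomputable def syEquiv (L : Type) [AddCommGroup L] [Module ℂ L] [FiniteDimensional ℂ L] :
    Sy L ≃ₐ[ℂ] PR (finrank ℂ L) := SymmetricAlgebra.equivMvPolynomial (Module.finBasis ℂ L)

instance [FiniteDimensional ℂ L] : Algebra.FiniteType ℂ (Sy L) :=
  Algebra.FiniteType.equiv inferInstance (syEquiv L).symm

theorem dim_Sy [FiniteDimensional ℂ L] : ringKrullDim (Sy L) = finrank ℂ L := by
  rw [ringKrullDim_eq_of_ringEquiv (syEquiv L).toRingEquiv, dim_PR]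

end Pool.Agent.Lib.MP_c89606_al
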