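import Pool.Agent.Lib.MP_c89606_al.Basic
import Pool.Agent.Lib.MP_c89606_al.Sy

/-! Induced modules and the PBW structure. -/

namespace Pool.Agent.Lib.MP_c89606_al
open Module Function TensorProduct

theorem sy_intertwine {L A : Type} [AddCommGroup L] [Module ℂ L] [Ring A] [Algebra ℂ A]
    (a b : Sy L →ₐ[ℂ] A) (u : A) (h : ∀ x, u * a (sι x) = b (sι x) * u) (s : Sy L) :
    u * a s = b s * u := by
  let S : Subalgebra ℂ (Sy L) :=
    { carrier := {s | u * a s = b s * u}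
      mul_mem' := fun {s t} hs ht => by
        simp only [Set.mem_ofPred_eq, map_mul] at hs ht ⊢
        rw [← mul_assoc, hs, mul_assoc, ht, mul_assoc]
      add_mem' := fun {s t} hs ht => by
        simp only [Set.mem_ofPred_eq, map_add] at hs ht ⊢
        rw [mul_add, add_mul, hs, ht]
      algebraMap_mem' := fun c => by
        simp only [Set.mem_ofPred_eq, AlgHom.commutes]
        exact (Algebra.commutes c u).symm }
  exact sy_top S h s

variable {V : Type} [AddCommGroup V] [Module ℂ V] {W : Subgroup (V ≃ₗ[ℂ] V)} [Fintype W]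
variable (d : Dt W)

noncomputable def XS : Sy (Dual ℂ V) →ₐ[ℂ] Cher d := liftC (cR d).X (cR d).xx

noncomputable def YT : Sy V →ₐ[ℂ] Cher d := liftC (cR d).Y (cR d).yy

@[simp] theorem XS_ι (x : Dual ℂ V) : XS d (sι x) = (cR d).X x := liftC_ι _ _ _

@[simp] theorem YT_ι (y : V) : YT d (sι y) = (cR d).Y y := liftC_ι _ _ _

theorem G_XS (w : W) (s : Sy (Dual ℂ V)) :
    (cR d).G w * XS d s = XS d (smp (dl w) s) * (cR d).G w :=
  sy_intertwine (XS d) ((XS d).comp (smp (dl w))) _ (fun x => by simp [(cR d).wx]) s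

theorem G_YT (w : W) (t : Sy V) :
    (cR d).G w * YT d t = YT d (smp (w : V ≃ₗ[ℂ] V).toLinearMap t) * (cR d).G w :=
  sy_intertwine (YT d) ((YT d).comp (smp (w : V ≃ₗ[ℂ] V).toLinearMap)) _
    (fun x => by simp [(cR d).wy]) t

theorem YT_G (w : W) (t : Sy V) :
    YT d t * (cR d).G w = (cR d).G w * YT d (smp (w : V ≃ₗ[ℂ] V).symm.toLinearMap t) := by
  rw [G_YT, smp_smp]
  simp [smp_id]

variable [FiniteDimensional ℂ V]

theorem cond1 (r : W) (y : V) (x x' : Dual ℂ V) :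
    x' (bb d r y) • (x - dl r x) = x (bb d r y) • (x' - dl r x') := by
  rcases good d r with h | ⟨α, β, γ, c, c', -, -, -, -, h1, -, h3⟩
  · simp [h]
  · ext v
    have e : ∀ x : Dual ℂ V, (x - dl r x) v = c' * α v * x β := fun x => by
      have := congrArg x (h3 v)
      rw [map_sub, map_smul] at this
      exact this
    simp only [LinearMap.smul_apply, e, h1, map_smul, smul_eq_mul]
    ring

theorem cond2 (r : W) (y y' : V) (x : Dual ℂ V) :
    x (bb d r y') • (y - (r : V ≃ₗ[ℂ] V) y) = x (bb d r y) • (y' - (r : V ≃ₗ[ℂ] V) y') := by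
  rcases good d r with h | ⟨α, β, γ, c, c', -, -, -, -, h1, h2, -⟩
  · simp [h]
  · simp only [h1, h2, map_smul, smul_eq_mul, smul_smul]
    congr 1
    ring

section Abstract
variable {A : Type} [Ring A] [Algebra ℂ A] (G : W →* A)

noncomputable def KK (y : V) : Dual ℂ V →ₗ[ℂ] A where
  toFun := fun x => ∑ r : W, x (bb d r y) • G r
  map_add' := fun a b => by simp [add_smul, Finset.sum_add_distrib]
  map_smul' := fun c a => by simp [Finset.smul_sum, smul_smul]

omit [FiniteDimensional ℂ V] in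
theorem KK_apply (y : V) (x : Dual ℂ V) : KK d G y x = ∑ r : W, x (bb d r y) • G r := rfl

theorem KK_key1 (X : Dual ℂ V →ₗ[ℂ] A) (GX : ∀ w x, G w * X x = X (dl w x) * G w) (y : V)
    (x x' : Dual ℂ V) :
    X x * KK d G y x' + KK d G y x * X x' = X x' * KK d G y x + KK d G y x' * X x := by
  simp only [KK_apply, Finset.mul_sum, Finset.sum_mul, ← Finset.sum_add_distrib, mul_smul_comm,
    smul_mul_assoc, GX]
  refine Finset.sum_congr rfl fun r _ => ?_
  have := congrArg (fun u => X u * G r) (cond1 d r y x x')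
  simp only [map_smul, map_sub, smul_mul_assoc, sub_mul, smul_sub] at this
  linear_combination (norm := abel) this

theorem KK_key2 (Y : V →ₗ[ℂ] A) (GY : ∀ w y, G w * Y y = Y ((w : V ≃ₗ[ℂ] V) y) * G w) (y y' : V)
    (x : Dual ℂ V) :
    Y y * KK d G y' x + KK d G y x * Y y' = Y y' * KK d G y x + KK d G y' x * Y y := by
  simp only [KK_apply, Finset.mul_sum, Finset.sum_mul, ← Finset.sum_add_distrib, mul_smul_comm,
    smul_mul_assoc, GY]
  refine Finset.sum_congr rfl fun r _ => ?_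
  have := congrArg (fun u => Y u * G r) (cond2 d r y y' x)
  simp only [map_smul, map_sub, smul_mul_assoc, sub_mul, smul_sub] at this
  linear_combination (norm := abel) this

theorem KK_equiv (w : W) (y : V) (x : Dual ℂ V) :
    G w * KK d G y x = KK d G ((w : V ≃ₗ[ℂ] V) y) (dl w x) * G w := by
  rw [KK_apply, KK_apply, Finset.mul_sum, Finset.sum_mul, ← Equiv.sum_comp (MulAut.conj w).toEquiv
    (fun r => ((dl w x) (bb d r ((w : V ≃ₗ[ℂ] V) y)) • G r) * G w)]
  refine Finset.sum_congr rfl fun r _ => ?_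
  have := bb_conj d w r y
  simp [this, ← map_mul]

end Abstract

theorem exists_deriv {M : Type} [AddCommGroup M] [Module ℂ M] {L : Type} [AddCommGroup L]
    [Module ℂ L] (Xs : Sy L →ₐ[ℂ] Module.End ℂ M) (K : L →ₗ[ℂ] Module.End ℂ M)
    (key : ∀ x x', Xs (sι x) * K x' + K x * Xs (sι x') = Xs (sι x') * K x + K x' * Xs (sι x)) :
    ∃ F : Sy L →ₗ[ℂ] (M × M) →ₗ[ℂ] M, (∀ m, F 1 m = m.1) ∧
      ∀ x s m, F (sι x * s) m = Xs (sι x) (F s m) + K x (Xs s m.2) := by
  let Ψ : L →ₗ[ℂ] Module.End ℂ (M × M) :=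
    { toFun := fun x => LinearMap.prod
        (Xs (sι x) ∘ₗ LinearMap.fst ℂ M M + K x ∘ₗ LinearMap.snd ℂ M M)
        (Xs (sι x) ∘ₗ LinearMap.snd ℂ M M)
      map_add' := fun a b => LinearMap.ext fun m => by
        refine Prod.ext ?_ (by simp)
        simp only [map_add, LinearMap.prod_apply, LinearMap.add_apply, Function.prod,
          LinearMap.comp_apply, Prod.mk_add_mk]
        abel
      map_smul' := fun c a => LinearMap.ext fun m => by simp }
  have hΨ : ∀ x m, Ψ x m = (Xs (sι x) m.1 + K x m.2, Xs (sι x) m.2) := fun _ _ => rfl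
  have XX : ∀ x x' m, Xs (sι x) (Xs (sι x') m) = Xs (sι x') (Xs (sι x) m) := fun x x' m => by
    change (Xs (sι x) * Xs (sι x')) m = (Xs (sι x') * Xs (sι x)) m
    rw [← map_mul Xs, ← map_mul Xs, mul_comm]
  have ΨΨ : ∀ x x', Ψ x * Ψ x' = Ψ x' * Ψ x := fun x x' => LinearMap.ext fun m => by
    have e1 := congr($(key x x') m.2)
    simp only [LinearMap.add_apply, Module.End.mul_apply] at e1
    simp only [Module.End.mul_apply, hΨ, map_add, XX x x', add_assoc, e1]
  let F : Sy L →ₐ[ℂ] Module.End ℂ (M × M) := liftC Ψ ΨΨ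
  have hF : ∀ s m, (F s m).2 = Xs s m.2 := by
    intro s m
    refine sy_lin (f := LinearMap.snd ℂ M M ∘ₗ LinearMap.applyₗ m ∘ₗ F.toLinearMap)
      (g := LinearMap.applyₗ m.2 ∘ₗ Xs.toLinearMap) (by simp) (fun x s h => ?_) s
    simp only [LinearMap.comp_apply, AlgHom.toLinearMap_apply, LinearMap.applyₗ_apply_apply,
      LinearMap.snd_apply, map_mul, Module.End.mul_apply] at h ⊢
    rw [liftC_ι, hΨ, h]
  refine ⟨LinearMap.llcomp ℂ _ _ _ (LinearMap.fst ℂ M M) ∘ₗ F.toLinearMap, fun m => by simp,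
    fun x s m => ?_⟩
  simp only [LinearMap.comp_apply, AlgHom.toLinearMap_apply, LinearMap.llcomp_apply, map_mul,
    Module.End.mul_apply, LinearMap.fst_apply]
  rw [liftC_ι, hΨ, hF]

theorem exists_rp {M E : Type} [AddCommGroup M] [Module ℂ M] [AddCommGroup E] [Module ℂ E]
    (ρ : W →* Module.End ℂ E) (η : V →ₗ[ℂ] Module.End ℂ E)
    (h1 : ∀ w y, ρ w * η y = η ((w : V ≃ₗ[ℂ] V) y) * ρ w) (h2 : ∀ y y', η y * η y' = η y' * η y)
    (X : Dual ℂ V →ₗ[ℂ] Module.End ℂ M) (G : W →* Module.End ℂ M) (j : E →ₗ[ℂ] M)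
    (GX : ∀ w x, G w * X x = X (dl w x) * G w) (XX : ∀ x x', X x * X x' = X x' * X x)
    (hG : ∀ w e, G w (j e) = j (ρ w e)) (Y0 : V → Module.End ℂ M)
    (hY1 : ∀ y e, Y0 y (j e) = j (η y e)) (hYX : ∀ y x, Y0 y * X x = X x * Y0 y + KK d G y x)
    (uniq : ∀ D : Module.End ℂ M, (∀ x, ∃ x', D * X x = X x' * D) → (∀ e, D (j e) = 0) → D = 0) :
    ∃ A : Cher d →ₐ[ℂ] Module.End ℂ M, (∀ y, A ((cR d).Y y) = Y0 y) ∧
      (∀ x, A ((cR d).X x) = X x) ∧ ∀ w, A ((cR d).G w) = G w := by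
  let Y : V →ₗ[ℂ] Module.End ℂ M :=
    { toFun := Y0
      map_add' := fun a b => by
        rw [← sub_eq_zero]
        refine uniq _ (fun x => ⟨x, ?_⟩) fun e => by simp [hY1]
        have : KK d G (a + b) x = KK d G a x + KK d G b x := by
          simp [KK_apply, add_smul, Finset.sum_add_distrib]
        simp only [sub_mul, add_mul, mul_sub, mul_add, hYX, this]
        abel
      map_smul' := fun c a => by
        rw [← sub_eq_zero]
        refine uniq _ (fun x => ⟨x, ?_⟩) fun e => by simp [hY1]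
        have : KK d G (c • a) x = c • KK d G a x := by
          simp [KK_apply, Finset.smul_sum, smul_smul]
        simp only [sub_mul, mul_sub, hYX, this, RingHom.id_apply, smul_mul_assoc, mul_smul_comm,
          smul_add]
        abel }
  have hY : ∀ y, Y y = Y0 y := fun _ => rfl
  have GY : ∀ w y, G w * Y y = Y ((w : V ≃ₗ[ℂ] V) y) * G w := by
    intro w y
    rw [← sub_eq_zero]
    refine uniq _ (fun x => ⟨dl w x, ?_⟩) fun e => ?_
    · rw [sub_mul, mul_sub, mul_assoc, hY, hY, hYX, mul_assoc, GX, ← mul_assoc (Y0 _), hYX, mul_add,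
        ← mul_assoc, GX, KK_equiv, add_mul]
      simp only [mul_assoc]
      abel
    · have := congr($(h1 w y) e)
      simp only [Module.End.mul_apply] at this
      simp [hY, hY1, hG, this]
  have YY : ∀ y y', Y y * Y y' = Y y' * Y y := by
    intro y y'
    rw [← sub_eq_zero]
    refine uniq _ (fun x => ⟨x, ?_⟩) fun e => ?_
    · have := KK_key2 d G Y GY y y' x
      have e : ∀ y, Y y * X x = X x * Y y + KK d G y x := fun y => hYX y x
      rw [sub_mul, mul_sub, mul_assoc, mul_assoc, e, e, mul_add, mul_add, ← mul_assoc, ← mul_assoc,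
        e, e, add_mul, add_mul]
      simp only [mul_assoc]
      linear_combination (norm := abel) this
    · have := congr($(h2 y y') e)
      simp only [Module.End.mul_apply] at this
      simp [hY, hY1, this]
  let R : Rp d (Module.End ℂ M) :=
    { Y := Y, X := X, G := G, wy := GY, wx := GX, xx := XX, yy := YY
      yx := fun y x => by rw [hY, hYX, KK_apply]; abel }
  exact R.exists_lift

theorem exists_verma {E : Type} [AddCommGroup E] [Module ℂ E] (ρ : W →* Module.End ℂ E)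
    (η : V →ₗ[ℂ] Module.End ℂ E) (h1 : ∀ w y, ρ w * η y = η ((w : V ≃ₗ[ℂ] V) y) * ρ w)
    (h2 : ∀ y y', η y * η y' = η y' * η y) :
    ∃ A : Cher d →ₐ[ℂ] Module.End ℂ (Sy (Dual ℂ V) ⊗[ℂ] E), (∀ s m, A (XS d s) m = s • m) ∧
      (∀ w s e, A ((cR d).G w) (s ⊗ₜ e) = smp (dl w) s ⊗ₜ ρ w e) ∧
      ∀ y e, A ((cR d).Y y) (1 ⊗ₜ e) = 1 ⊗ₜ η y e := by
  obtain ⟨Xs, hXs'⟩ : ∃ Xs : Sy (Dual ℂ V) →ₐ[ℂ] Module.End ℂ (Sy (Dual ℂ V) ⊗[ℂ] E),
    ∀ s m, Xs s m = s • m := ⟨Algebra.lsmul ℂ ℂ _, fun _ _ => rfl⟩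
  have hXs : ∀ s s' e, Xs s (s' ⊗ₜ e) = (s * s') ⊗ₜ e := fun s s' e => hXs' _ _
  obtain ⟨G, hG⟩ : ∃ G : W →* Module.End ℂ (Sy (Dual ℂ V) ⊗[ℂ] E),
      ∀ w s e, G w (s ⊗ₜ e) = smp (dl w) s ⊗ₜ ρ w e :=
    ⟨{ toFun := fun w => TensorProduct.map (smp (dl w)).toLinearMap (ρ w)
       map_one' := TensorProduct.ext' fun s e => by
        have : dl ((1 : W) : V ≃ₗ[ℂ] V) = LinearMap.id := rfl
        rw [this, map_tmul, AlgHom.toLinearMap_apply, smp_id, map_one]
        rfl
       map_mul' := fun a b => TensorProduct.ext' fun s e => by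
        have : dl ((a * b : W) : V ≃ₗ[ℂ] V) = dl a ∘ₗ dl b := rfl
        simp only [this, map_mul, map_tmul, AlgHom.toLinearMap_apply, Module.End.mul_apply,
          smp_smp] }, fun _ _ _ => rfl⟩
  have GX : ∀ w x, G w * Xs (sι x) = Xs (sι (dl w x)) * G w :=
    fun w x => TensorProduct.ext' fun s e => by
      simp only [Module.End.mul_apply, hXs, hG, map_mul, smp_ι]
  have key0 := KK_key1 (A := Module.End ℂ (Sy (Dual ℂ V) ⊗[ℂ] E)) d G (Xs.toLinearMap ∘ₗ sι) GX
  have key := fun y => exists_deriv (M := Sy (Dual ℂ V) ⊗[ℂ] E) Xs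
    (KK (A := Module.End ℂ (Sy (Dual ℂ V) ⊗[ℂ] E)) d G y) (key0 y)
  choose F F1 F2 using key
  let j : E →ₗ[ℂ] Sy (Dual ℂ V) ⊗[ℂ] E := TensorProduct.mk ℂ _ E 1
  have hj : ∀ e, j e = 1 ⊗ₜ e := fun _ => rfl
  obtain ⟨Y0, hY0⟩ : ∃ Y0 : V → Module.End ℂ (Sy (Dual ℂ V) ⊗[ℂ] E),
      ∀ y s e, Y0 y (s ⊗ₜ e) = F y s (j (η y e), j e) :=
    ⟨fun y => TensorProduct.lift ((F y).compl₂ ((j ∘ₗ η y).prod j)), fun _ _ _ => rfl⟩
  obtain ⟨A, a1, a2, a3⟩ := exists_rp d ρ η h1 h2 (Xs.toLinearMap ∘ₗ sι) G j GX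
    (fun x x' => by
      simp only [LinearMap.comp_apply, AlgHom.toLinearMap_apply, ← map_mul, mul_comm])
    (fun w e => by rw [hj, hj, hG, map_one]) Y0 (fun y e => by rw [hj, hY0, F1])
    (fun y x => TensorProduct.ext' fun s e => by
      simp only [Module.End.mul_apply, LinearMap.add_apply, LinearMap.comp_apply,
        AlgHom.toLinearMap_apply, hXs, hY0, F2, hj, mul_one])
    (fun D hD h0 => TensorProduct.ext' fun s e => by
      refine sy_lin (f := D ∘ₗ (TensorProduct.mk ℂ _ E).flip e) (g := 0) (h0 e) (fun x s h => ?_) s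
      obtain ⟨x', hx'⟩ := hD x
      have h' : D (s ⊗ₜ e) = 0 := h
      have := congr($hx' (s ⊗ₜ e))
      rw [Module.End.mul_apply, Module.End.mul_apply, h', map_zero] at this
      exact (congrArg D (hXs _ _ _)).symm.trans this)
  refine ⟨A, fun s m => ?_, fun w s e => ?_, fun y e => ?_⟩
  · have : A.comp (XS d) = Xs := sy_ext fun x => by rw [AlgHom.comp_apply, XS_ι, a2]; rfl
    exact (congr($this s m)).trans (hXs' s m)
  · rw [a3, hG]
  · rw [a1, hY0, F1]; rfl

end Pool.Agent.Lib.MP_c89606_al
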