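import Pool.Agent.Lib.MP_c89606_al.PBW
import Pool.Agent.Lib.MP_c89606_al.Noeth
import Pool.Agent.Lib.MP_c89606_al.Char

/-! PBW coordinates, central elements, baby Verma modules. -/

namespace Pool.Agent.Lib.MP_c89606_al
open Module Function TensorProduct

variable {V : Type} [AddCommGroup V] [Module ℂ V] {W : Subgroup (V ≃ₗ[ℂ] V)}

def dlM (W : Subgroup (V ≃ₗ[ℂ] V)) : W →* Module.End ℂ (Dual ℂ V) where
  toFun w := dl w
  map_one' := rfl
  map_mul' _ _ := rfl

def vM (W : Subgroup (V ≃ₗ[ℂ] V)) : W →* Module.End ℂ V where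
  toFun w := (w : V ≃ₗ[ℂ] V).toLinearMap
  map_one' := rfl
  map_mul' _ _ := rfl

variable [Fintype W] (d : Dt W)

theorem cher_span (U : Submodule ℂ (Cher d))
    (h : ∀ s w t, XS d s * (cR d).G w * YT d t ∈ U) (z : Cher d) : z ∈ U := by
  let U0 := Submodule.span ℂ {z | ∃ s w t, z = XS d s * (cR d).G w * YT d t}
  have h0 : ∀ s w t, XS d s * (cR d).G w * YT d t ∈ U0 :=
    fun s w t => Submodule.subset_span ⟨s, w, t, rfl⟩
  have hle : U0 ≤ U := Submodule.span_le.2 (by rintro _ ⟨s, w, t, rfl⟩; exact h s w t)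
  let S : Subalgebra ℂ (Cher d) :=
    { carrier := {a | ∀ s ∈ U0, a * s ∈ U0}
      mul_mem' := fun {a b} ha hb s hs => by rw [mul_assoc]; exact ha _ (hb s hs)
      add_mem' := fun {a b} ha hb s hs => by rw [add_mul]; exact U0.add_mem (ha s hs) (hb s hs)
      algebraMap_mem' := fun c s hs => by rw [← Algebra.smul_def]; exact U0.smul_mem c hs }
  have key : ∀ a, (∀ s w t, a * (XS d s * (cR d).G w * YT d t) ∈ U0) → a ∈ S := by
    intro a ha u hu
    have : U0 ≤ U0.comap (LinearMap.mulLeft ℂ a) :=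
      Submodule.span_le.2 (by rintro _ ⟨s, w, t, rfl⟩; exact ha s w t)
    exact this hu
  have hX : ∀ x, (cR d).X x ∈ S := fun x => key _ fun s w t => by
    have := h0 (sι x * s) w t
    rwa [map_mul, XS_ι, mul_assoc, mul_assoc, ← mul_assoc (XS d s)] at this
  have hG : ∀ w, (cR d).G w ∈ S := fun w' => key _ fun s w t => by
    rw [← mul_assoc, ← mul_assoc, G_XS, mul_assoc (XS d _), ← map_mul]
    exact h0 _ _ _
  have hY : ∀ y, (cR d).Y y ∈ S := fun y => key _ fun s w t => by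
    refine sy_ind (U0.comap (LinearMap.mulLeft ℂ ((cR d).Y y) ∘ₗ
      LinearMap.mulRight ℂ (YT d t) ∘ₗ LinearMap.mulRight ℂ ((cR d).G w) ∘ₗ (XS d).toLinearMap))
      ?_ (fun x s hs => ?_) s
    · have := h0 1 w (smp (w : V ≃ₗ[ℂ] V).symm.toLinearMap (sι y) * t)
      rw [map_mul, map_one, one_mul, ← mul_assoc, ← YT_G, YT_ι] at this
      simpa [mul_assoc] using this
    · have e : (cR d).Y y * (XS d (sι x * s) * (cR d).G w * YT d t) =
          (cR d).X x * ((cR d).Y y * (XS d s * (cR d).G w * YT d t)) +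
          (∑ r : W, x (bb d r y) • (cR d).G r) * (XS d s * (cR d).G w * YT d t) := by
        rw [← (cR d).yx, map_mul, XS_ι]
        noncomm_ring
      change (cR d).Y y * (XS d (sι x * s) * (cR d).G w * YT d t) ∈ U0
      rw [e]
      exact U0.add_mem (hX x _ hs)
        (S.sum_mem (fun r _ => S.smul_mem (hG r) _) _ (h0 s w t))
  have := cher_top S hY hX hG z 1 (by simpa using h0 1 1 1)
  exact hle (by simpa using this)

theorem cher_lin {M : Type} [AddCommGroup M] [Module ℂ M] {f g : Cher d →ₗ[ℂ] M}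
    (h : ∀ s w t, f (XS d s * (cR d).G w * YT d t) = g (XS d s * (cR d).G w * YT d t)) (z : Cher d) :
    f z = g z := cher_span d (LinearMap.eqLocus f g) h z

theorem central_of_inv {L A : Type} [AddCommGroup L] [Module ℂ L] [Ring A] [Algebra ℂ A]
    {ι : Type} [Fintype ι] (Φ : Sy L →ₐ[ℂ] A) (G : ι → A) (φ : ι → L →ₗ[ℂ] L)
    (hG : ∀ r s, G r * Φ s = Φ (smp (φ r) s) * G r) (u : A) (β : ι → L → ℂ)
    (hu : ∀ x, u * Φ (sι x) - Φ (sι x) * u = ∑ r, β r x • G r)
    (hβ : ∀ r, ∃ a : Sy L, a ≠ 0 ∧ ∃ l : ℂ, ∀ x, β r x • a = l • (sι x - sι (φ r x)))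
    (s : Sy L) (hs : ∀ r, smp (φ r) s = s) : u * Φ s = Φ s * u := by
  choose a ha l hl using hβ
  let U : Submodule ℂ (Sy L) :=
    { carrier := {s | ∃ D : ι → Sy L, u * Φ s - Φ s * u = ∑ r, Φ (D r) * G r ∧
        ∀ r, a r * D r = l r • (s - smp (φ r) s)}
      add_mem' := by
        rintro s t ⟨D, h1, h2⟩ ⟨D', h1', h2'⟩
        refine ⟨D + D', ?_, fun r => ?_⟩
        · simp only [map_add, Pi.add_apply, add_mul, mul_add, Finset.sum_add_distrib, ← h1, ← h1']
          abel
        · simp only [map_add, Pi.add_apply, mul_add, h2, h2']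
          module
      zero_mem' := ⟨0, by simp, by simp⟩
      smul_mem' := by
        rintro c s ⟨D, h1, h2⟩
        refine ⟨c • D, ?_, fun r => ?_⟩
        · simp only [map_smul, Pi.smul_apply, smul_mul_assoc, mul_smul_comm, ← Finset.smul_sum, ← h1,
            smul_sub]
        · simp only [map_smul, Pi.smul_apply, mul_smul_comm, h2]
          module }
  obtain ⟨D, h1, h2⟩ := sy_ind U ⟨0, by simp, by simp⟩ (by
    rintro x s ⟨D, h1, h2⟩
    refine ⟨fun r => β r x • smp (φ r) s + sι x * D r, ?_, fun r => ?_⟩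
    · have e : u * Φ (sι x * s) - Φ (sι x * s) * u = (u * Φ (sι x) - Φ (sι x) * u) * Φ s +
          Φ (sι x) * (u * Φ s - Φ s * u) := by
        rw [map_mul]; noncomm_ring
      rw [e, hu, h1]
      simp only [Finset.sum_mul, Finset.mul_sum, ← Finset.sum_add_distrib, smul_mul_assoc, hG,
        map_add, map_smul, map_mul, add_mul, mul_assoc]
    · rw [mul_add, mul_smul_comm, ← smul_mul_assoc, hl, mul_left_comm, h2, map_mul, smp_ι]
      simp only [Algebra.smul_def]
      ring) s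
  have : ∀ r, D r = 0 := fun r => by
    have := h2 r
    rw [hs, sub_self, smul_zero] at this
    exact (mul_eq_zero.1 this).resolve_left (ha r)
  rw [← sub_eq_zero, h1]
  simp [this]

variable [FiniteDimensional ℂ V]

theorem XS_central {s : Sy (Dual ℂ V)} (hs : ∀ w, smp (dlM W w) s = s) :
    XS d s ∈ Subalgebra.center ℂ (Cher d) := by
  refine cher_comm (fun y => ?_) (fun x => ?_) (fun w => ?_)
  · refine central_of_inv (XS d) (cR d).G (fun r => dl r) (G_XS d) _ (fun r x => x (bb d r y))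
      (fun x => by rw [XS_ι]; exact (cR d).yx y x) (fun r => ?_) s hs
    rcases good d r with h | ⟨α, β, γ, c, c', h1, -, -, h2, h3, -, h4⟩
    · exact ⟨1, one_ne_zero, 0, by simp [h]⟩
    · refine ⟨sι (c' • α), sι_ne (smul_ne_zero h2 h1), γ * α y, fun x => ?_⟩
      have e : x - dl r x = (c' * x β) • α := by
        ext v
        have := congrArg x (h4 v)
        rw [map_sub, map_smul] at this
        refine this.trans ?_
        simp only [smul_eq_mul, LinearMap.smul_apply]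
        ring
      rw [← map_sub, e, h3]
      simp only [map_smul, smul_eq_mul, smul_smul]
      congr 1
      ring
  · rw [← XS_ι, ← map_mul, ← map_mul, mul_comm]
  · rw [G_XS]
    exact congrArg (fun u => XS d u * _) (hs w)

theorem YT_central {t : Sy V} (ht : ∀ w, smp (vM W w) t = t) :
    YT d t ∈ Subalgebra.center ℂ (Cher d) := by
  refine cher_comm (fun y => ?_) (fun x => ?_) (fun w => ?_)
  · rw [← YT_ι, ← map_mul, ← map_mul, mul_comm]
  · refine central_of_inv (YT d) (cR d).G (fun r => (r : V ≃ₗ[ℂ] V).toLinearMap) (G_YT d) _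
      (fun r y => - x (bb d r y)) (fun y => ?_) (fun r => ?_) t ht
    · rw [YT_ι, ← neg_sub, (cR d).yx]
      simp
    rcases good d r with h | ⟨α, β, γ, c, c', -, h1, h2, -, h3, h4, -⟩
    · exact ⟨1, one_ne_zero, 0, by simp [h]⟩
    · refine ⟨sι (c • β), sι_ne (smul_ne_zero h2 h1), -(γ * x β), fun y => ?_⟩
      rw [← map_sub, LinearEquiv.coe_coe, h4, h3]
      simp only [map_smul, smul_eq_mul, smul_smul]
      congr 1
      ring
  · rw [G_YT]
    exact congrArg (fun u => YT d u * _) (ht w)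

variable [DecidableEq W]

section Rho
variable {C : Type} [CommRing C] [Algebra ℂ C] (rS : Sy (Dual ℂ V) →ₐ[ℂ] C) (rT : Sy V →ₐ[ℂ] C)

theorem exists_rho : ∃ ρ : Cher d →ₗ[ℂ] (W → C),
    ∀ s w t, ρ (XS d s * (cR d).G w * YT d t) = Pi.single w (rS s * rT t) := by
  let ρ : W →* Module.End ℂ (W → C) :=
    { toFun := fun w => LinearMap.funLeft ℂ C (fun u => w⁻¹ * u)
      map_one' := by ext; simp
      map_mul' := fun a b => LinearMap.ext fun e => funext fun u => by simp [mul_assoc] }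
  have hρ : ∀ w e u, ρ w e u = e (w⁻¹ * u) := fun _ _ _ => rfl
  let η : V →ₗ[ℂ] Module.End ℂ (W → C) :=
    { toFun := fun y =>
        { toFun := fun e u => rT (sι ((u : V ≃ₗ[ℂ] V).symm y)) * e u
          map_add' := fun a b => by ext; simp [mul_add]
          map_smul' := fun c a => by ext; simp }
      map_add' := fun a b => LinearMap.ext fun e => funext fun u => by simp [add_mul]
      map_smul' := fun a b => LinearMap.ext fun e => funext fun u => by simp }
  have hη : ∀ y e u, η y e u = rT (sι ((u : V ≃ₗ[ℂ] V).symm y)) * e u := fun _ _ _ => rfl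
  obtain ⟨A, a1, a2, a3⟩ := exists_verma d ρ η
    (fun w y => LinearMap.ext fun e => funext fun u => by
      simp only [Module.End.mul_apply, hρ, hη]
      rfl)
    (fun y y' => LinearMap.ext fun e => funext fun u => by
      simp only [Module.End.mul_apply, hη, mul_left_comm])
  let m : Sy (Dual ℂ V) ⊗[ℂ] (W → C) →ₗ[ℂ] (W → C) := TensorProduct.lift
    (LinearMap.mk₂ ℂ (fun s e => rS s • e) (fun _ _ _ => by simp [add_smul])
      (fun _ _ _ => by simp) (fun _ _ _ => by simp) (fun c s e => smul_comm _ _ _))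
  have hm : ∀ s e, m (s ⊗ₜ e) = rS s • e := fun _ _ => rfl
  have hT : ∀ t, A (YT d t) (1 ⊗ₜ Pi.single 1 1) = 1 ⊗ₜ Pi.single 1 (rT t) := by
    intro t
    refine sy_lin (f := LinearMap.applyₗ (1 ⊗ₜ Pi.single 1 1) ∘ₗ A.toLinearMap ∘ₗ (YT d).toLinearMap)
      (g := TensorProduct.mk ℂ _ _ 1 ∘ₗ LinearMap.single ℂ (fun _ : W => C) 1 ∘ₗ rT.toLinearMap)
      (by simp) (fun y t h => ?_) t
    have h' : A (YT d t) (1 ⊗ₜ Pi.single 1 1) = 1 ⊗ₜ Pi.single 1 (rT t) := h
    change A (YT d (sι y * t)) (1 ⊗ₜ Pi.single 1 1) = 1 ⊗ₜ Pi.single 1 (rT (sι y * t))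
    rw [map_mul, map_mul, Module.End.mul_apply, h', YT_ι, a3]
    congr 1
    funext u
    rw [hη]
    by_cases hu : u = 1
    · subst hu; simp; rfl
    · simp [hu]
  refine ⟨m ∘ₗ LinearMap.applyₗ (1 ⊗ₜ Pi.single 1 1) ∘ₗ A.toLinearMap, fun s w t => ?_⟩
  change m (A (XS d s * (cR d).G w * YT d t) (1 ⊗ₜ Pi.single 1 1)) = _
  rw [map_mul, map_mul, Module.End.mul_apply, Module.End.mul_apply, hT, a2, a1, map_one,
    TensorProduct.smul_tmul', hm]
  funext u
  rw [Pi.smul_apply, hρ]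
  by_cases hu : u = w
  · subst hu; simp
  · rw [Pi.single_eq_of_ne hu, Pi.single_eq_of_ne (by rwa [Ne, inv_mul_eq_one, eq_comm])]
    simp

noncomputable def rho : Cher d →ₗ[ℂ] (W → C) := (exists_rho d rS rT).choose

theorem rho_apply (s w t) :
    rho d rS rT (XS d s * (cR d).G w * YT d t) = Pi.single w (rS s * rT t) :=
  (exists_rho d rS rT).choose_spec s w t

theorem rho_G (w : W) : rho d rS rT ((cR d).G w) = Pi.single w 1 := by
  simpa using rho_apply d rS rT 1 w 1

theorem rho_XY (s t) (h : Cher d) :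
    rho d rS rT (XS d s * h * YT d t) = (rS s * rT t) • rho d rS rT h := by
  refine cher_lin d (f := rho d rS rT ∘ₗ LinearMap.mulRight ℂ (YT d t) ∘ₗ
    LinearMap.mulLeft ℂ (XS d s)) (g := (rS s * rT t) • rho d rS rT) (fun s' w t' => ?_) h
  change rho d rS rT (XS d s * (XS d s' * (cR d).G w * YT d t') * YT d t) = _
  rw [LinearMap.smul_apply, rho_apply, ← Pi.single_smul', ← mul_assoc, ← mul_assoc, ← map_mul,
    mul_assoc _ (YT d t'), ← map_mul, rho_apply, map_mul, map_mul]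
  congr 1
  simp only [smul_eq_mul]
  ring

end Rho

theorem XS_injective : Injective (XS d) := by
  intro a b h
  have h1 := rho_apply d (AlgHom.id ℂ _) ((Algebra.ofId ℂ _).comp aug) a 1 1
  rw [h, rho_apply] at h1
  simpa using (congrFun h1 1).symm

noncomputable def Om : Cher d →ₗ[ℂ] (W → ℂ) := rho d aug aug

theorem eps_rho {C : Type} [CommRing C] [Algebra ℂ C] (rS : Sy (Dual ℂ V) →ₐ[ℂ] C)
    (rT : Sy V →ₐ[ℂ] C) (ε : C →ₐ[ℂ] ℂ) (h1 : ∀ s, ε (rS s) = aug s) (h2 : ∀ s, ε (rT s) = aug s)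
    (h : Cher d) (w : W) : ε (rho d rS rT h w) = Om d h w := by
  refine cher_lin d (f := ε.toLinearMap ∘ₗ LinearMap.proj w ∘ₗ rho d rS rT)
    (g := LinearMap.proj w ∘ₗ Om d) (fun s u t => ?_) h
  simp only [LinearMap.comp_apply, Om, rho_apply, LinearMap.proj_apply, AlgHom.toLinearMap_apply,
    Pi.single_apply]
  split_ifs <;> simp [h1, h2]

theorem Om_left (w u : W) (h : Cher d) : Om d ((cR d).G w * h) u = Om d h (w⁻¹ * u) := by
  refine cher_lin d (f := LinearMap.proj u ∘ₗ Om d ∘ₗ LinearMap.mulLeft ℂ ((cR d).G w))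
    (g := LinearMap.proj (w⁻¹ * u) ∘ₗ Om d) (fun s v t => ?_) h
  change Om d ((cR d).G w * (XS d s * (cR d).G v * YT d t)) u = Om d _ _
  rw [← mul_assoc, ← mul_assoc, G_XS, mul_assoc (XS d _), ← map_mul, Om, rho_apply, rho_apply,
    aug_smp]
  simp only [Pi.single_apply, inv_mul_eq_iff_eq_mul]

theorem Om_right (w u : W) (h : Cher d) : Om d (h * (cR d).G w) u = Om d h (u * w⁻¹) := by
  refine cher_lin d (f := LinearMap.proj u ∘ₗ Om d ∘ₗ LinearMap.mulRight ℂ ((cR d).G w))
    (g := LinearMap.proj (u * w⁻¹) ∘ₗ Om d) (fun s v t => ?_) h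
  change Om d ((XS d s * (cR d).G v * YT d t) * (cR d).G w) u = Om d _ _
  rw [mul_assoc, YT_G, ← mul_assoc, mul_assoc (XS d _), ← map_mul, Om, rho_apply, rho_apply,
    aug_smp]
  simp only [Pi.single_apply, mul_inv_eq_iff_eq_mul]

theorem Om_class (z : Cen d) (g h : W) : Om d z (h * g * h⁻¹) = Om d z g := by
  rw [← Om_right, ← Subalgebra.mem_center_iff.1 z.2, Om_left, inv_mul_cancel_left]

section Ev
variable {E : Type} [AddCommGroup E] [Module ℂ E] (ρ : Representation ℂ W E)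

noncomputable def Ev : Cher d →ₗ[ℂ] Module.End ℂ E :=
  Fintype.linearCombination ℂ (fun w => ρ w) ∘ₗ Om d

theorem Ev_apply (h : Cher d) : Ev d ρ h = ∑ w, Om d h w • ρ w := rfl

theorem Ev_XY (s t) (h : Cher d) : Ev d ρ (XS d s * h * YT d t) = (aug s * aug t) • Ev d ρ h := by
  rw [Ev, LinearMap.comp_apply, LinearMap.comp_apply, Om, rho_XY, map_smul]

theorem Ev_right (h : Cher d) (w : W) : Ev d ρ (h * (cR d).G w) = Ev d ρ h * ρ w := by
  rw [Ev_apply, Ev_apply, Finset.sum_mul, ← Equiv.sum_comp (Equiv.mulRight w)]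
  simp [Om_right]

theorem Ev_one : Ev d ρ 1 = 1 := by
  have := rho_G d aug aug 1
  rw [map_one] at this
  simp [Ev_apply, Om, this, Pi.single_apply]

variable [FiniteDimensional ℂ E] [ρ.IsIrreducible]

theorem Ev_cen (z : Cen d) : Ev d ρ z = omg ρ.character (Om d z) • (1 : Module.End ℂ E) :=
  class_scalar ρ _ (Om_class d z)

theorem Ev_cen_mul (z : Cen d) (h : Cher d) :
    Ev d ρ (z * h) = omg ρ.character (Om d z) • Ev d ρ h := by
  refine cher_lin d (f := Ev d ρ ∘ₗ LinearMap.mulLeft ℂ (z : Cher d))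
    (g := omg ρ.character (Om d z) • Ev d ρ) (fun s w t => ?_) h
  change Ev d ρ (z * (XS d s * (cR d).G w * YT d t)) = _
  rw [← mul_assoc, ← mul_assoc, ← Subalgebra.mem_center_iff.1 z.2, mul_assoc (XS d s), Ev_XY,
    Ev_right, Ev_cen, LinearMap.smul_apply, Ev_XY, ← one_mul ((cR d).G w), Ev_right, Ev_one,
    smul_mul_assoc, smul_comm]

end Ev

theorem exists_pt {χ : W → ℂ} (hχ : χ ∈ Irr W) :
    ∃ P : Cen d →ₐ[ℂ] ℂ, ∀ z, P z = omg χ (Om d z) := by
  obtain ⟨E, _, _, _, ρ, hρ, rfl⟩ := hχ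
  have := irr_nontrivial ρ
  have inj : ∀ a b : ℂ, a • (1 : Module.End ℂ E) = b • 1 → a = b :=
    fun a b h => smul_left_injective ℂ one_ne_zero h
  let f : Cen d →ₗ[ℂ] ℂ :=
    { toFun := fun z => omg ρ.character (Om d z)
      map_add' := fun a b => by simp [omg, add_mul, Finset.sum_add_distrib, mul_add]
      map_smul' := fun c a => by simp [omg, mul_assoc, ← Finset.mul_sum, mul_left_comm] }
  refine ⟨AlgHom.ofLinearMap f (inj _ _ ?_) (fun a b => inj _ _ ?_), fun _ => rfl⟩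
  · rw [one_smul]
    exact (Ev_cen d ρ 1).symm.trans (Ev_one d ρ)
  · refine (Ev_cen d ρ (a * b)).symm.trans ((Ev_cen_mul d ρ a b).trans ?_)
    rw [Ev_cen, smul_smul]
    rfl

end Pool.Agent.Lib.MP_c89606_al
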