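import Pool.Agent.Lib.MP_c89606_al.Glue

/-! The two traces in terms of characters. -/

namespace Pool.Agent.Lib.MP_c89606_al
open Module Function

noncomputable def ypar {U : Type} [AddCommGroup U] [Module ℂ U] {r r' : ℕ}
    (f : Fin r → Sy (Dual ℂ U)) (g : Fin r' → Sy U) : Fin (r + r') → Sy (Dual ℂ U × U) :=
  Fin.append (fun i => smp (LinearMap.inl ℂ _ _) (f i)) (fun i => smp (LinearMap.inr ℂ _ _) (g i))

theorem model {U : Type} [AddCommGroup U] [Module ℂ U] [FiniteDimensional ℂ U] {r r' : ℕ}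
    (f : Fin r → Sy (Dual ℂ U)) (g : Fin r' → Sy U) (hf : IntF f ⊥) (hg : IntF g ⊥)
    (hr : r ≤ finrank ℂ (Dual ℂ U)) (hr' : r' ≤ finrank ℂ U) (D : ℕ)
    (h1 : ∀ i (t : ℂ), smp (t • LinearMap.id) (f i) = t ^ D • f i)
    (h2 : ∀ i (t : ℂ), smp (t • LinearMap.id) (g i) = t ^ D • g i) :
    IntF (ypar f g) ⊥ ∧ sym (unt (ypar f g)) (Sy (Dual ℂ U × U)) LinearMap.id ≠ 0 ∧
      ∀ c, aug c = 0 → ∃ k, c ^ k ∈ Ideal.span (Set.range (ypar f g)) := by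
  have a1 : IntF (ypar f g) ⊥ := by
    rw [intF_iff] at hf hg ⊢
    refine sy_top _ fun ⟨x, u⟩ => ?_
    have : (sι (x, u) : Sy (Dual ℂ U × U)) =
        smp (LinearMap.inl ℂ _ _) (sι x) + smp (LinearMap.inr ℂ _ _) (sι u) := by
      rw [smp_ι, smp_ι, ← map_add]; simp
    rw [this]
    refine Subalgebra.add_mem _ (intCl_map _ (fun i => ?_) (hf _)) (intCl_map _ (fun i => ?_) (hg _))
    · simpa [ypar] using self_mem_intCl (ypar f g) (Fin.castAdd r' i)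
    · simpa [ypar] using self_mem_intCl (ypar f g) (Fin.natAdd r i)
  refine ⟨a1, sym_rank _ a1 (ev_injective _ a1 ?_), aug_nilp _ a1 fun i => ⟨2 ^ D, ?_⟩⟩
  · rw [dim_Sy, finrank_prod]
    exact_mod_cast Nat.add_le_add hr hr'
  · refine Fin.addCases (fun i => ?_) (fun i => ?_) i
    · simp only [ypar, Fin.append_left]
      rw [← map_smul, ← h1, smp_smp, smp_smp]
      congr 2
      ext <;> simp
    · simp only [ypar, Fin.append_right]
      rw [← map_smul, ← h2, smp_smp, smp_smp]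
      congr 2
      ext <;> simp

variable {V : Type} [AddCommGroup V] [Module ℂ V] {W : Subgroup (V ≃ₗ[ℂ] V)} [Fintype W]
  [FiniteDimensional ℂ V] [DecidableEq W] (d : Dt W)

theorem side {τ : V ≃ₗ[ℂ] V} {hτ : τ ∈ Subgroup.normalizer (W : Set (V ≃ₗ[ℂ] V))}
    {a : Cher d →ₐ[ℂ] Cher d} (ha : IsAct d τ hτ a) (n : ℕ) (hn : 0 < n) (hτn : τ ^ n = 1)
    {U : Type} [AddCommGroup U] [Module ℂ U] [FiniteDimensional ℂ U]
    (π : Dual ℂ V →ₗ[ℂ] Dual ℂ U) (hπ : Surjective π) (π' : V →ₗ[ℂ] U) (hπ' : Surjective π')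
    (e1 : π ∘ₗ dl τ = π) (e2 : π' ∘ₗ τ.toLinearMap = π') {r r' : ℕ}
    (f : Fin r → Sy (Dual ℂ V)) (g : Fin r' → Sy V) (hf) (hg)
    (f' : Fin r → Sy (Dual ℂ U)) (g' : Fin r' → Sy U) (hf' : ∀ i, smp π (f i) = f' i)
    (hg' : ∀ i, smp π' (g i) = g' i) (hy : IntF (ypar f' g') ⊥)
    (hε : ∀ c, aug c = 0 → ∃ k, c ^ k ∈ Ideal.span (Set.range (ypar f' g'))) :
    ∃ I : Ideal (Cen d), IntF (apar d f g hf hg) I ∧ ∀ P : Submodule ℂ (Cen d → ℂ),
      (∀ p : Ideal (Cen d), p.IsPrime → I ≤ p → fixIdeal d τ ≤ p →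
        (fun b => sym (unt (apar d f g hf hg)) (Cen d ⧸ p) (mulB _ b)) ∈ P) →
      (fun b : Cen d => (∑ w, Om d b (w * (cj τ hτ w)⁻¹)) *
        sym (unt (ypar f' g')) (Sy (Dual ℂ U × U)) LinearMap.id) ∈ P := by
  obtain ⟨r1, f1, a1, a2⟩ := exists_initial (dlM W)
  obtain ⟨r2, g1, a3, a4⟩ := exists_initial (vM W)
  obtain ⟨i1, i2, -⟩ := apar_finite d f1 g1 (fun i => (a1 i).1) (fun i => (a3 i).1) a2 a4
  have hsurj : ∀ Z : Submodule ℂ (Sy (Dual ℂ U × U)), (∀ s t, smp (LinearMap.inl ℂ _ U) (smp π s) *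
      smp (LinearMap.inr ℂ (Dual ℂ U) _) (smp π' t) ∈ Z) → ∀ c, c ∈ Z := by
    intro Z hZ c
    let Z' : Submodule ℂ (Sy (Dual ℂ U × U)) := Submodule.span ℂ
      {c | ∃ s t, c = smp (LinearMap.inl ℂ _ U) (smp π s) *
        smp (LinearMap.inr ℂ (Dual ℂ U) _) (smp π' t)}
    have h1 : Z' ≤ Z := Submodule.span_le.2 (by rintro _ ⟨s, t, rfl⟩; exact hZ s t)
    refine h1 (sy_ind Z' (Submodule.subset_span ⟨1, 1, by simp⟩) (fun ⟨x, u⟩ s hs => ?_) c)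
    obtain ⟨x, rfl⟩ := hπ x
    obtain ⟨u, rfl⟩ := hπ' u
    have : Z' ≤ Z'.comap (LinearMap.mulLeft ℂ (sι (π x, π' u))) := by
      refine Submodule.span_le.2 ?_
      rintro _ ⟨s, t, rfl⟩
      have e : (sι (π x, π' u) : Sy (Dual ℂ U × U)) = smp (LinearMap.inl ℂ _ _) (smp π (sι x)) +
          smp (LinearMap.inr ℂ _ _) (smp π' (sι u)) := by
        rw [smp_ι, smp_ι, smp_ι, smp_ι, ← map_add]; simp
      change _ * _ ∈ Z'
      rw [e, add_mul]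
      refine Z'.add_mem (Submodule.subset_span ⟨sι x * s, t, ?_⟩)
        (Submodule.subset_span ⟨s, sι u * t, ?_⟩)
      · simp only [map_mul]; ring
      · simp only [map_mul]; ring
    exact this hs
  obtain ⟨rS, hS⟩ : ∃ rS : Sy (Dual ℂ V) →ₐ[ℂ] Sy (Dual ℂ U × U),
      ∀ s, rS s = smp (LinearMap.inl ℂ _ U) (smp π s) :=
    ⟨(smp (LinearMap.inl ℂ _ U)).comp (smp π), fun _ => rfl⟩
  obtain ⟨rT, hT⟩ : ∃ rT : Sy V →ₐ[ℂ] Sy (Dual ℂ U × U),
      ∀ s, rT s = smp (LinearMap.inr ℂ (Dual ℂ U) U) (smp π' s) :=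
    ⟨(smp (LinearMap.inr ℂ (Dual ℂ U) U)).comp (smp π'), fun s => AlgHom.comp_apply _ _ s⟩
  have b1 : ∀ s, aug (rS s) = aug s := fun s => by rw [hS, aug_smp, aug_smp]
  have b2 : ∀ s, aug (rT s) = aug s := fun s => by rw [hT, aug_smp, aug_smp]
  have b3 : ∀ s, rS (smp (dl τ) s) = rS s := fun s => by rw [hS, hS, smp_smp (dl τ), e1]
  have b4 : ∀ s, rT (smp τ.toLinearMap s) = rT s := fun s => by
    rw [hT, hT, smp_smp τ.toLinearMap, e2]
  have b5 : ∀ i, (∃ s, (apar d f g hf hg i : Cher d) = XS d s ∧ ypar f' g' i = rS s) ∨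
      ∃ t, (apar d f g hf hg i : Cher d) = YT d t ∧ ypar f' g' i = rT t := fun i => by
    refine Fin.addCases (fun i => Or.inl ⟨f i, ?_, ?_⟩) (fun i => Or.inr ⟨g i, ?_, ?_⟩) i
    · rw [apar, Fin.append_left]
    · rw [ypar, Fin.append_left, hS, hf']
    · rw [apar, Fin.append_right]
    · rw [ypar, Fin.append_right, hT, hg']
  obtain ⟨I, hI, key⟩ := core d rS rT ha n hn hτn aug b1 b2 b3 b4
    (fun Z hZ => hsurj Z fun s t => by rw [← hS, ← hT]; exact hZ s t) _ _ b5 hy hε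
  refine ⟨I, hI, fun P hP => key P fun p hp h1 h2 => hP p hp h1 ?_⟩
  refine Ideal.span_le.2 ?_
  rintro _ ⟨z, z', h, rfl⟩
  have : z' = cenMap a ha.surj z := Subtype.ext ((ha.moves _ _).1 h).symm
  rw [this]
  exact h2 z

end Pool.Agent.Lib.MP_c89606_al
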