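import Mathlib

/-! Multiplicity symbols with traces. -/

namespace Pool.Agent.Lib.MP_c89606_al
open Function

section Maps
variable {B B' : Type} [CommRing B] [Algebra ℂ B] [CommRing B'] [Algebra ℂ B']
variable {N : Type} [AddCommGroup N] [Module B N] [Module ℂ N] [IsScalarTower ℂ B N]
variable {N' : Type} [AddCommGroup N'] [Module B' N'] [Module ℂ N'] [IsScalarTower ℂ B' N']

open Classical in
noncomputable def qmap (U : Submodule B N) (U' : Submodule B' N') (u : N →ₗ[ℂ] N') :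
    (N ⧸ U) →ₗ[ℂ] (N' ⧸ U') :=
  if h : ∀ n ∈ U, u n ∈ U' then
    (Submodule.Quotient.restrictScalarsEquiv ℂ U').toLinearMap ∘ₗ
      (U.restrictScalars ℂ).mapQ (U'.restrictScalars ℂ) u (fun n hn => h n hn) ∘ₗ
      (Submodule.Quotient.restrictScalarsEquiv ℂ U).symm.toLinearMap
  else 0

theorem qmap_mk {U : Submodule B N} {U' : Submodule B' N'} {u : N →ₗ[ℂ] N'}
    (h : ∀ n ∈ U, u n ∈ U') (n : N) :
    qmap U U' u (Submodule.Quotient.mk n) = Submodule.Quotient.mk (u n) := by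
  simp [qmap, dif_pos h]

open Classical in
noncomputable def smap (U : Submodule B N) (U' : Submodule B' N') (u : N →ₗ[ℂ] N') :
    U →ₗ[ℂ] U' :=
  if h : ∀ n ∈ U, u n ∈ U' then
    { toFun := fun n => ⟨u n, h n n.2⟩
      map_add' := fun a b => by ext; simp
      map_smul' := fun c a => by ext; simp }
  else 0

theorem smap_coe {U : Submodule B N} {U' : Submodule B' N'} {u : N →ₗ[ℂ] N'}
    (h : ∀ n ∈ U, u n ∈ U') (n : U) : (smap U U' u n : N') = u n := by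
  simp [smap, dif_pos h]

end Maps

section Def
variable {B : Type} [CommRing B]

abbrev xq (x : B) (N : Type) [AddCommGroup N] [Module B N] : Submodule B N :=
  LinearMap.range (LinearMap.lsmul B N x)

abbrev xk (x : B) (N : Type) [AddCommGroup N] [Module B N] : Submodule B N :=
  LinearMap.ker (LinearMap.lsmul B N x)

theorem mem_xq {x : B} {N : Type} [AddCommGroup N] [Module B N] {n : N} :
    n ∈ xq x N ↔ ∃ m, x • m = n := by simp [xq]

theorem mem_xk {x : B} {N : Type} [AddCommGroup N] [Module B N] {n : N} :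
    n ∈ xk x N ↔ x • n = 0 := by simp [xk]

variable [Algebra ℂ B]

noncomputable def sym : List (B × ℂ) → (N : Type) → [AddCommGroup N] → [Module B N] →
    [Module ℂ N] → [IsScalarTower ℂ B N] → (N →ₗ[ℂ] N) → ℂ
  | [], N, _, _, _, _, φ => LinearMap.trace ℂ N φ
  | p :: l, N, _, _, _, _, φ =>
      sym l (N ⧸ xq p.1 N) (qmap _ _ φ) - p.2 * sym l (xk p.1 N) (smap _ _ φ)

variable {N : Type} [AddCommGroup N] [Module B N] [Module ℂ N] [IsScalarTower ℂ B N]
variable {N' : Type} [AddCommGroup N'] [Module B N'] [Module ℂ N'] [IsScalarTower ℂ B N']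

theorem sym_nil (φ : N →ₗ[ℂ] N) : sym ([] : List (B × ℂ)) N φ = LinearMap.trace ℂ N φ := rfl

theorem sym_cons (p : B × ℂ) (l : List (B × ℂ)) (φ : N →ₗ[ℂ] N) :
    sym (p :: l) N φ = sym l (N ⧸ xq p.1 N) (qmap _ _ φ) - p.2 * sym l (xk p.1 N) (smap _ _ φ) :=
  rfl

def Cmp (l : List (B × ℂ)) (φ : N →ₗ[ℂ] N) : Prop :=
  ∀ p ∈ l, p.2 ≠ 0 ∧ ∀ n, φ (p.1 • n) = p.2 • p.1 • φ n

omit [Algebra ℂ B] [IsScalarTower ℂ B N] in
theorem Cmp.tail {p : B × ℂ} {l : List (B × ℂ)} {φ : N →ₗ[ℂ] N} (h : Cmp (p :: l) φ) : Cmp l φ :=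
  fun q hq => h q (List.mem_cons_of_mem _ hq)

theorem Cmp.xq_st {p : B × ℂ} {l : List (B × ℂ)} {φ : N →ₗ[ℂ] N} (h : Cmp (p :: l) φ) :
    ∀ n ∈ xq p.1 N, φ n ∈ xq p.1 N := by
  intro n hn
  obtain ⟨m, rfl⟩ := mem_xq.1 hn
  refine mem_xq.2 ⟨p.2 • φ m, ?_⟩
  rw [(h p List.mem_cons_self).2, smul_comm]

omit [Algebra ℂ B] [IsScalarTower ℂ B N] in
theorem Cmp.xk_st {p : B × ℂ} {l : List (B × ℂ)} {φ : N →ₗ[ℂ] N} (h : Cmp (p :: l) φ) :
    ∀ n ∈ xk p.1 N, φ n ∈ xk p.1 N := by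
  intro n hn
  have h1 := (h p List.mem_cons_self).2 n
  rw [mem_xk.1 hn, map_zero] at h1
  exact mem_xk.2 ((smul_eq_zero.1 h1.symm).resolve_left (h p List.mem_cons_self).1)

theorem Cmp.of_surj {l : List (B × ℂ)} {φ : N →ₗ[ℂ] N} {φ' : N' →ₗ[ℂ] N'} (h : Cmp l φ)
    (g : N →ₗ[B] N') (hg : Surjective g) (hφ : ∀ n, φ' (g n) = g (φ n)) : Cmp l φ' := by
  intro p hp
  refine ⟨(h p hp).1, fun n => ?_⟩
  obtain ⟨m, rfl⟩ := hg n
  rw [← map_smul, hφ, hφ, (h p hp).2, LinearMap.map_smul_of_tower, map_smul]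

theorem Cmp.of_inj {l : List (B × ℂ)} {φ : N →ₗ[ℂ] N} {φ' : N' →ₗ[ℂ] N'} (h : Cmp l φ)
    (g : N' →ₗ[B] N) (hg : Injective g) (hφ : ∀ n, φ (g n) = g (φ' n)) : Cmp l φ' := by
  intro p hp
  refine ⟨(h p hp).1, fun n => hg ?_⟩
  rw [← hφ, map_smul, (h p hp).2, LinearMap.map_smul_of_tower, map_smul, hφ]

theorem Cmp.quo {l : List (B × ℂ)} {φ : N →ₗ[ℂ] N} (h : Cmp l φ) (U : Submodule B N)
    (hU : ∀ n ∈ U, φ n ∈ U) : Cmp l (qmap U U φ) :=
  h.of_surj U.mkQ U.mkQ_surjective (fun n => qmap_mk hU n)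

theorem Cmp.sub {l : List (B × ℂ)} {φ : N →ₗ[ℂ] N} (h : Cmp l φ) (U : Submodule B N)
    (hU : ∀ n ∈ U, φ n ∈ U) : Cmp l (smap U U φ) :=
  h.of_inj U.subtype U.subtype_injective (fun n => (smap_coe hU n).symm)

theorem Cmp.hq {p : B × ℂ} {l : List (B × ℂ)} {φ : N →ₗ[ℂ] N} (h : Cmp (p :: l) φ) :
    Cmp l (qmap (xq p.1 N) (xq p.1 N) φ) := h.tail.quo _ h.xq_st

theorem Cmp.hk {p : B × ℂ} {l : List (B × ℂ)} {φ : N →ₗ[ℂ] N} (h : Cmp (p :: l) φ) :
    Cmp l (smap (xk p.1 N) (xk p.1 N) φ) := h.tail.sub _ h.xk_st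

theorem Cmp.smul {l : List (B × ℂ)} {φ : N →ₗ[ℂ] N} (h : Cmp l φ) (c : ℂ) : Cmp l (c • φ) := by
  intro p hp
  refine ⟨(h p hp).1, fun n => ?_⟩
  simp only [LinearMap.smul_apply, (h p hp).2]
  rw [smul_comm c, smul_comm c]

omit [Algebra ℂ B] [IsScalarTower ℂ B N] in
theorem Cmp.add {l : List (B × ℂ)} {φ ψ : N →ₗ[ℂ] N} (h : Cmp l φ) (h' : Cmp l ψ) :
    Cmp l (φ + ψ) := by
  intro p hp
  refine ⟨(h p hp).1, fun n => ?_⟩
  simp only [LinearMap.add_apply, (h p hp).2, (h' p hp).2, smul_add]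

end Def

section Lin
variable {B : Type} [CommRing B] [Algebra ℂ B]

theorem sym_zero (l : List (B × ℂ)) : ∀ (N : Type) [AddCommGroup N] [Module B N] [Module ℂ N]
    [IsScalarTower ℂ B N], sym l N 0 = 0 := by
  induction l with
  | nil => intro N _ _ _ _; simp [sym_nil]
  | cons p l ih =>
    intro N _ _ _ _
    have h1 : qmap (xq p.1 N) (xq p.1 N) (0 : N →ₗ[ℂ] N) = 0 := by
      refine LinearMap.ext fun n => ?_
      obtain ⟨m, rfl⟩ := Submodule.Quotient.mk_surjective _ n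
      rw [qmap_mk (by simp)]; simp
    have h2 : smap (xk p.1 N) (xk p.1 N) (0 : N →ₗ[ℂ] N) = 0 := by
      ext n
      rw [smap_coe (by simp)]; simp
    rw [sym_cons, h1, h2, ih, ih]; simp

theorem sym_subsingleton (l : List (B × ℂ)) (N : Type) [AddCommGroup N] [Module B N] [Module ℂ N]
    [IsScalarTower ℂ B N] [Subsingleton N] (φ : N →ₗ[ℂ] N) : sym l N φ = 0 := by
  rw [Subsingleton.elim φ 0, sym_zero]

theorem sym_smul (l : List (B × ℂ)) (c : ℂ) : ∀ (N : Type) [AddCommGroup N] [Module B N]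
    [Module ℂ N] [IsScalarTower ℂ B N] (φ : N →ₗ[ℂ] N), Cmp l φ →
    sym l N (c • φ) = c * sym l N φ := by
  induction l with
  | nil => intro N _ _ _ _ φ _; simp [sym_nil]
  | cons p l ih =>
    intro N _ _ _ _ φ h
    have h1 : qmap (xq p.1 N) (xq p.1 N) (c • φ) = c • qmap (xq p.1 N) (xq p.1 N) φ := by
      refine LinearMap.ext fun n => ?_
      obtain ⟨m, rfl⟩ := Submodule.Quotient.mk_surjective _ n
      rw [qmap_mk (h.smul c).xq_st, LinearMap.smul_apply, LinearMap.smul_apply, qmap_mk h.xq_st]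
      rfl
    have h2 : smap (xk p.1 N) (xk p.1 N) (c • φ) = c • smap (xk p.1 N) (xk p.1 N) φ := by
      ext n
      rw [smap_coe (h.smul c).xk_st, LinearMap.smul_apply, LinearMap.smul_apply,
        Submodule.coe_smul_of_tower, smap_coe h.xk_st]
    rw [sym_cons, sym_cons, h1, h2, ih _ _ h.hq, ih _ _ h.hk]; ring

theorem sym_add_op (l : List (B × ℂ)) : ∀ (N : Type) [AddCommGroup N] [Module B N]
    [Module ℂ N] [IsScalarTower ℂ B N] (φ ψ : N →ₗ[ℂ] N), Cmp l φ → Cmp l ψ →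
    sym l N (φ + ψ) = sym l N φ + sym l N ψ := by
  induction l with
  | nil => intro N _ _ _ _ φ ψ _ _; simp [sym_nil]
  | cons p l ih =>
    intro N _ _ _ _ φ ψ h h'
    have h1 : qmap (xq p.1 N) (xq p.1 N) (φ + ψ) =
        qmap (xq p.1 N) (xq p.1 N) φ + qmap (xq p.1 N) (xq p.1 N) ψ := by
      refine LinearMap.ext fun n => ?_
      obtain ⟨m, rfl⟩ := Submodule.Quotient.mk_surjective _ n
      rw [qmap_mk (h.add h').xq_st, LinearMap.add_apply, LinearMap.add_apply, qmap_mk h.xq_st,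
        qmap_mk h'.xq_st]
      rfl
    have h2 : smap (xk p.1 N) (xk p.1 N) (φ + ψ) =
        smap (xk p.1 N) (xk p.1 N) φ + smap (xk p.1 N) (xk p.1 N) ψ := by
      ext n
      rw [smap_coe (h.add h').xk_st, LinearMap.add_apply, LinearMap.add_apply,
        Submodule.coe_add, smap_coe h.xk_st, smap_coe h'.xk_st]
    rw [sym_cons, sym_cons, sym_cons, h1, h2, ih _ _ _ h.hq h'.hq, ih _ _ _ h.hk h'.hk]; ring

end Lin

section Iso
variable {B B' : Type} [CommRing B] [Algebra ℂ B] [CommRing B'] [Algebra ℂ B']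

theorem sym_iso (l : List (B × ℂ)) : ∀ (l' : List (B' × ℂ))
    (N : Type) [AddCommGroup N] [Module B N] [Module ℂ N] [IsScalarTower ℂ B N]
    (N' : Type) [AddCommGroup N'] [Module B' N'] [Module ℂ N'] [IsScalarTower ℂ B' N']
    (e : N ≃ₗ[ℂ] N') (φ : N →ₗ[ℂ] N) (φ' : N' →ₗ[ℂ] N'),
    List.Forall₂ (fun p p' => p.2 = p'.2 ∧ ∀ n, e (p.1 • n) = p'.1 • e n) l l' →
    (∀ n, φ' (e n) = e (φ n)) → Cmp l φ → sym l N φ = sym l' N' φ' := by
  induction l with
  | nil =>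
    intro l' N _ _ _ _ N' _ _ _ _ e φ φ' h hφ _
    rw [List.forall₂_nil_left_iff] at h
    subst h
    rw [sym_nil, sym_nil, ← LinearMap.trace_conj' φ e]
    congr 1
    ext n
    obtain ⟨m, rfl⟩ := e.surjective n
    simp [hφ, LinearEquiv.conj_apply]
  | cons p l ih =>
    intro l' N _ _ _ _ N' _ _ _ _ e φ φ' h hφ hc
    obtain ⟨p', l', ⟨h2, hx⟩, hl, rfl⟩ := List.forall₂_cons_left_iff.1 h
    have hx' : ∀ n, e.symm (p'.1 • n) = p.1 • e.symm n := by
      intro n; apply e.injective; simp [hx]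
    have hc' : Cmp [p'] φ' := by
      intro q hq
      rw [List.mem_singleton] at hq
      subst hq
      refine ⟨h2 ▸ (hc p List.mem_cons_self).1, fun n => ?_⟩
      obtain ⟨m, rfl⟩ := e.surjective n
      rw [← hx, hφ, hφ, (hc p List.mem_cons_self).2, map_smul, hx, h2]
    have q1 : ∀ n ∈ xq p.1 N, e.toLinearMap n ∈ xq p'.1 N' := by
      intro n hn
      obtain ⟨m, rfl⟩ := mem_xq.1 hn
      exact mem_xq.2 ⟨e m, (hx m).symm⟩
    have q2 : ∀ n ∈ xq p'.1 N', e.symm.toLinearMap n ∈ xq p.1 N := by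
      intro n hn
      obtain ⟨m, rfl⟩ := mem_xq.1 hn
      exact mem_xq.2 ⟨e.symm m, (hx' m).symm⟩
    have k1 : ∀ n ∈ xk p.1 N, e.toLinearMap n ∈ xk p'.1 N' := by
      intro n hn
      refine mem_xk.2 ?_
      have := hx n
      rw [mem_xk.1 hn, map_zero] at this
      exact this.symm
    have k2 : ∀ n ∈ xk p'.1 N', e.symm.toLinearMap n ∈ xk p.1 N := by
      intro n hn
      refine mem_xk.2 ?_
      have := hx' n
      rw [mem_xk.1 hn, map_zero] at this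
      exact this.symm
    let eq : (N ⧸ xq p.1 N) ≃ₗ[ℂ] (N' ⧸ xq p'.1 N') :=
      LinearEquiv.ofLinearMap (qmap _ _ e.toLinearMap) (qmap _ _ e.symm.toLinearMap)
        (by
          refine LinearMap.ext fun n => ?_
          obtain ⟨m, rfl⟩ := Submodule.Quotient.mk_surjective _ n
          simp [qmap_mk q1, qmap_mk q2])
        (by
          refine LinearMap.ext fun n => ?_
          obtain ⟨m, rfl⟩ := Submodule.Quotient.mk_surjective _ n
          simp [qmap_mk q1, qmap_mk q2])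
    have heq : ∀ n, eq (Submodule.Quotient.mk n) = Submodule.Quotient.mk (e n) :=
      fun n => qmap_mk q1 n
    let ek : (xk p.1 N) ≃ₗ[ℂ] (xk p'.1 N') :=
      LinearEquiv.ofLinearMap (smap _ _ e.toLinearMap) (smap _ _ e.symm.toLinearMap)
        (by ext n; simp [smap_coe k1, smap_coe k2])
        (by ext n; simp [smap_coe k1, smap_coe k2])
    have hek : ∀ n, (ek n : N') = e n := fun n => smap_coe k1 n
    rw [sym_cons, sym_cons, ih l' _ _ eq _ (qmap _ _ φ') _ _ hc.hq,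
      ih l' _ _ ek _ (smap _ _ φ') _ _ hc.hk, h2]
    · refine hl.imp ?_
      rintro a b ⟨h3, h4⟩
      refine ⟨h3, fun n => Subtype.ext ?_⟩
      rw [hek, Submodule.coe_smul, Submodule.coe_smul, hek, h4]
    · intro n
      apply Subtype.ext
      rw [smap_coe hc'.xk_st, hek, hek, smap_coe hc.xk_st, hφ]
    · refine hl.imp ?_
      rintro a b ⟨h3, h4⟩
      refine ⟨h3, fun n => ?_⟩
      obtain ⟨m, rfl⟩ := Submodule.Quotient.mk_surjective _ n
      rw [← Submodule.Quotient.mk_smul, heq, heq, h4, Submodule.Quotient.mk_smul]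
    · intro n
      obtain ⟨m, rfl⟩ := Submodule.Quotient.mk_surjective _ n
      rw [heq, qmap_mk hc'.xq_st, qmap_mk hc.xq_st, heq, hφ]

theorem sym_iso_map (l : List (B × ℂ)) (f : B → B')
    {N : Type} [AddCommGroup N] [Module B N] [Module ℂ N] [IsScalarTower ℂ B N]
    {N' : Type} [AddCommGroup N'] [Module B' N'] [Module ℂ N'] [IsScalarTower ℂ B' N']
    (e : N ≃ₗ[ℂ] N') (φ : N →ₗ[ℂ] N) (φ' : N' →ₗ[ℂ] N')
    (h : ∀ p ∈ l, ∀ n, e (p.1 • n) = f p.1 • e n)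
    (hφ : ∀ n, φ' (e n) = e (φ n)) (hc : Cmp l φ) :
    sym l N φ = sym (l.map fun p => (f p.1, p.2)) N' φ' := by
  refine sym_iso l _ N N' e φ φ' ?_ hφ hc
  rw [List.forall₂_map_right_iff, List.forall₂_same]
  exact fun p hp => ⟨rfl, h p hp⟩

theorem sym_equiv (l : List (B × ℂ))
    {N : Type} [AddCommGroup N] [Module B N] [Module ℂ N] [IsScalarTower ℂ B N]
    {N' : Type} [AddCommGroup N'] [Module B N'] [Module ℂ N'] [IsScalarTower ℂ B N']
    (e : N ≃ₗ[B] N') (φ : N →ₗ[ℂ] N) (φ' : N' →ₗ[ℂ] N')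
    (hφ : ∀ n, φ' (e n) = e (φ n)) (hc : Cmp l φ) : sym l N φ = sym l N' φ' := by
  refine sym_iso l _ N N' (e.restrictScalars ℂ) φ φ' ?_ hφ hc
  rw [List.forall₂_same]
  exact fun p _ => ⟨rfl, fun n => by simp⟩

end Iso

end Pool.Agent.Lib.MP_c89606_al
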