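import Pool.Agent.Lib.MP_c89606_al.Add

/-! Matrix lemma and independence of the symbol from the system of parameters. -/

namespace Pool.Agent.Lib.MP_c89606_al
open Function Polynomial

variable {B : Type} [CommRing B] [Algebra ℂ B]

def par {d : ℕ} (x : Fin d → B) (χ : Fin d → ℂ) : List (B × ℂ) := List.ofFn fun i => (x i, χ i)

abbrev unt {d : ℕ} (x : Fin d → B) : List (B × ℂ) := par x fun _ => 1

omit [CommRing B] [Algebra ℂ B] in
theorem par_succ {d : ℕ} (x : Fin (d + 1) → B) (χ : Fin (d + 1) → ℂ) :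
    par x χ = (x 0, χ 0) :: par (fun i => x i.succ) (fun i => χ i.succ) := by
  simp [par, List.ofFn_succ]

omit [CommRing B] [Algebra ℂ B] in
theorem mem_par {d : ℕ} {x : Fin d → B} {χ : Fin d → ℂ} {p : B × ℂ} :
    p ∈ par x χ ↔ ∃ i, (x i, χ i) = p := by simp [par, List.mem_ofFn]

omit [Algebra ℂ B] in
theorem ofList_par {d : ℕ} (x : Fin d → B) (χ : Fin d → ℂ) :
    Ideal.ofList ((par x χ).map Prod.fst) = Ideal.span (Set.range x) := by
  unfold Ideal.ofList
  congr 1
  ext a
  simp [par, List.mem_ofFn]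

omit [CommRing B] [Algebra ℂ B] in
theorem par_map {B' : Type} {d : ℕ} (x : Fin d → B) (χ : Fin d → ℂ) (f : B → B') :
    ((par x χ).map fun p => (f p.1, p.2)) = par (fun i => f (x i)) χ := by
  simp [par, List.map_ofFn, Function.comp_def]

def OkF {d : ℕ} (x : Fin d → B) (I : Ideal B) : Prop :=
  ∀ b : B, ∃ q : Polynomial ℂ, q.Monic ∧ Polynomial.aeval b q ∈ I ⊔ Ideal.span (Set.range x)

theorem OkF.ok {d : ℕ} {x : Fin d → B} {I : Ideal B} (h : OkF x I) (χ : Fin d → ℂ) {N : Type}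
    [AddCommGroup N] [Module B N] (hI : I ≤ Module.annihilator B N) : Ok (par x χ) N := by
  intro b
  obtain ⟨q, hq, hb⟩ := h b
  refine ⟨q, hq, ?_⟩
  rw [ofList_par]
  exact sup_le_sup_right hI _ hb

theorem Ok.okF {d : ℕ} {x : Fin d → B} {χ : Fin d → ℂ} {N : Type}
    [AddCommGroup N] [Module B N] (h : Ok (par x χ) N) : OkF x (Module.annihilator B N) := by
  intro b
  obtain ⟨q, hq, hb⟩ := h b
  rw [ofList_par] at hb
  exact ⟨q, hq, hb⟩

section
variable {N : Type} [AddCommGroup N] [Module B N] [Module ℂ N] [IsScalarTower ℂ B N]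

noncomputable def mulB (N : Type) [AddCommGroup N] [Module B N] [Module ℂ N] [IsScalarTower ℂ B N]
    (b : B) : N →ₗ[ℂ] N := (LinearMap.lsmul B N b).restrictScalars ℂ

@[simp] theorem mulB_apply (b : B) (n : N) : mulB N b n = b • n := rfl

omit [Algebra ℂ B] [IsScalarTower ℂ B N] in
theorem cmp_unt {d : ℕ} (x : Fin d → B) (φ : N →ₗ[ℂ] N) (h : ∀ i n, φ (x i • n) = x i • φ n) :
    Cmp (unt x) φ := by
  intro p hp
  obtain ⟨i, rfl⟩ := mem_par.1 hp
  exact ⟨one_ne_zero, fun n => by simp [h]⟩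

theorem cmp_mulB {d : ℕ} (x : Fin d → B) (b : B) : Cmp (unt x) (mulB N b) :=
  cmp_unt x _ fun i n => by simp [smul_comm b]

end

theorem sym_comm [Algebra.FiniteType ℂ B] (l : List (B × ℂ)) :
    ∀ (N N' : Type) [AddCommGroup N] [Module B N] [Module ℂ N] [IsScalarTower ℂ B N]
      [AddCommGroup N'] [Module B N'] [Module ℂ N'] [IsScalarTower ℂ B N'] [Module.Finite B N]
      [Module.Finite B N'] (u : N →ₗ[B] N') (v : N' →ₗ[B] N) (φ : N →ₗ[ℂ] N) (φ' : N' →ₗ[ℂ] N'),
      (∀ n, φ n = v (u n)) → (∀ n, φ' n = u (v n)) → Ok l N → Ok l N' →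
      sym l N φ = sym l N' φ' := by
  have : IsNoetherianRing B := Algebra.FiniteType.isNoetherianRing ℂ B
  induction l with
  | nil =>
    intro N N' _ _ _ _ _ _ _ _ _ _ u v φ φ' h h' ho ho'
    have := ho.fin
    have := ho'.fin
    have e1 : φ = v.restrictScalars ℂ ∘ₗ u.restrictScalars ℂ := LinearMap.ext h
    have e2 : φ' = u.restrictScalars ℂ ∘ₗ v.restrictScalars ℂ := LinearMap.ext h'
    rw [sym_nil, sym_nil, e1, e2, LinearMap.trace_comp_comm']
  | cons p l ih =>
    intro N N' _ _ _ _ _ _ _ _ _ _ u v φ φ' h h' ho ho'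
    have q1 : ∀ n ∈ xq p.1 N, φ n ∈ xq p.1 N := fun n hn => h n ▸ xq_map _ v (xq_map _ u hn)
    have q2 : ∀ n ∈ xq p.1 N', φ' n ∈ xq p.1 N' := fun n hn => h' n ▸ xq_map _ u (xq_map _ v hn)
    have k1 : ∀ n ∈ xk p.1 N, φ n ∈ xk p.1 N := fun n hn => h n ▸ xk_map _ v _ (xk_map _ u _ hn)
    have k2 : ∀ n ∈ xk p.1 N', φ' n ∈ xk p.1 N' :=
      fun n hn => h' n ▸ xk_map _ u _ (xk_map _ v _ hn)
    rw [sym_cons, sym_cons,
      ih _ _ ((xq p.1 N).mapQ _ u (xq_map _ u)) ((xq p.1 N').mapQ _ v (xq_map _ v)) _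
        (qmap _ _ φ') _ _ ho.hq ho'.hq,
      ih _ _ (u.restrict (xk_map p.1 u)) (v.restrict (xk_map p.1 v)) _
        (smap _ _ φ') _ _ ho.hk ho'.hk]
    · intro n
      apply Subtype.ext
      rw [smap_coe k1, h]; rfl
    · intro n
      apply Subtype.ext
      rw [smap_coe k2, h']; rfl
    · intro n
      obtain ⟨m, rfl⟩ := Submodule.Quotient.mk_surjective _ n
      rw [qmap_mk q1, h]; rfl
    · intro n
      obtain ⟨m, rfl⟩ := Submodule.Quotient.mk_surjective _ n
      rw [qmap_mk q2, h']; rfl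

theorem qmap_mulB {N : Type} [AddCommGroup N] [Module B N] [Module ℂ N] [IsScalarTower ℂ B N]
    (U : Submodule B N) (a : B) : qmap U U (mulB N a) = mulB (N ⧸ U) a := by
  refine LinearMap.ext fun n => ?_
  obtain ⟨m, rfl⟩ := Submodule.Quotient.mk_surjective _ n
  rw [qmap_mk (fun n hn => U.smul_mem a hn)]; rfl

theorem smap_mulB {N : Type} [AddCommGroup N] [Module B N] [Module ℂ N] [IsScalarTower ℂ B N]
    (U : Submodule B N) (a : B) : smap U U (mulB N a) = mulB U a := by
  ext n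
  rw [smap_coe (fun n hn => U.smul_mem a hn)]; rfl

theorem sym_nilp (a : B) (k : ℕ) (l : List (B × ℂ)) :
    ∀ (N : Type) [AddCommGroup N] [Module B N] [Module ℂ N] [IsScalarTower ℂ B N],
      a ^ k ∈ Module.annihilator B N ⊔ Ideal.ofList (l.map Prod.fst) → sym l N (mulB N a) = 0 := by
  induction l with
  | nil =>
    intro N _ _ _ _ h
    have h1 : a ^ k ∈ Module.annihilator B N := by simpa using h
    refine (LinearMap.isNilpotent_trace_of_isNilpotent ⟨k, ?_⟩).eq_zero
    have : ∀ j n, (mulB N a ^ j) n = a ^ j • n := by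
      intro j
      induction j with
      | zero => simp
      | succ j ih => intro n; rw [pow_succ', pow_succ', mul_smul, ← ih]; rfl
    ext n
    rw [this]
    exact Module.mem_annihilator.1 h1 n
  | cons p l ih =>
    intro N _ _ _ _ h
    rw [List.map_cons, Ideal.ofList_cons, ← sup_assoc] at h
    rw [sym_cons, qmap_mulB, smap_mulB, ih, ih]
    · simp
    · refine sup_le_sup_right (sup_le (ann_le_of_inj _ (xk p.1 N).subtype_injective) ?_) _ h
      rw [Ideal.span_singleton_le_iff_mem]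
      exact mem_ann_xk _
    · refine sup_le_sup_right (sup_le (ann_le_of_surj _ (xq p.1 N).mkQ_surjective) ?_) _ h
      rw [Ideal.span_singleton_le_iff_mem]
      exact mem_ann_xq _

theorem sym_sum {N : Type} [AddCommGroup N] [Module B N] [Module ℂ N] [IsScalarTower ℂ B N]
    {d : ℕ} (x : Fin d → B) {ι : Type} (s : Finset ι) (φ : ι → N →ₗ[B] N) :
    sym (unt x) N ((∑ i ∈ s, φ i).restrictScalars ℂ) =
      ∑ i ∈ s, sym (unt x) N ((φ i).restrictScalars ℂ) := by
  classical
  induction s using Finset.induction_on with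
  | empty => simpa using sym_zero _ N
  | insert i s hi ih =>
    rw [Finset.sum_insert hi, Finset.sum_insert hi, ← ih, ← sym_add_op]
    · rfl
    · exact cmp_unt _ _ fun i n => by simp
    · exact cmp_unt _ _ fun i n => by simp

theorem sym_matrix [Algebra.FiniteType ℂ B] {d : ℕ} (x : Fin d → B) (hx : OkF x ⊥) (ε : B →ₐ[ℂ] ℂ)
    (hε : ∀ a, ε a = 0 → ∃ k, a ^ k ∈ Ideal.span (Set.range x)) {W : Type} [Fintype W]
    [DecidableEq W] (Φ : (W → B) →ₗ[B] (W → B)) :
    sym (unt x) (W → B) (Φ.restrictScalars ℂ) =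
      (∑ w, ε (Φ (Pi.single w 1) w)) * sym (unt x) B LinearMap.id := by
  have e1 : Φ = ∑ w, (Φ ∘ₗ LinearMap.single B (fun _ => B) w) ∘ₗ LinearMap.proj w := by
    refine LinearMap.ext fun n => ?_
    simp only [LinearMap.sum_apply, LinearMap.comp_apply, LinearMap.coe_single, LinearMap.coe_proj,
      Function.eval]
    rw [← map_sum, Finset.univ_sum_single]
  conv_lhs => rw [e1]
  rw [sym_sum, Finset.sum_mul]
  refine Finset.sum_congr rfl fun w _ => ?_
  set a := Φ (Pi.single w 1) w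
  rw [sym_comm (unt x) (W → B) B (LinearMap.proj w) (Φ ∘ₗ LinearMap.single B (fun _ => B) w) _
    (mulB B a) (fun _ => rfl) _ (hx.ok _ bot_le) (hx.ok _ bot_le)]
  · have e2 : mulB B a = ε a • LinearMap.id + mulB B (a - algebraMap ℂ B (ε a)) := by
      ext n; simp [sub_mul, Algebra.smul_def]
    have c1 : Cmp (unt x) (LinearMap.id : B →ₗ[ℂ] B) := cmp_unt _ _ fun _ _ => rfl
    obtain ⟨k, hk⟩ := hε (a - algebraMap ℂ B (ε a)) (by simp)
    rw [e2, sym_add_op _ _ _ _ (c1.smul _) (cmp_mulB _ _), sym_smul _ _ _ _ c1,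
      sym_nilp _ k _ _ (by rw [ofList_par]; exact Ideal.mem_sup_right hk), add_zero]
  · intro n
    have : (Pi.single w n : W → B) = n • Pi.single w 1 := by
      rw [← Pi.single_smul', smul_eq_mul, mul_one]
    simp [this, a, mul_comm]

theorem aeval_intertwine {M M' : Type} [AddCommGroup M] [Module ℂ M] [AddCommGroup M']
    [Module ℂ M'] (g : M →ₗ[ℂ] M') (T : Module.End ℂ M) (T' : Module.End ℂ M')
    (h : ∀ n, T' (g n) = g (T n)) (P : ℂ[X]) (n : M) : aeval T' P (g n) = g (aeval T P n) := by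
  induction P using Polynomial.induction_on' generalizing n with
  | add p q hp hq => simp [hp, hq]
  | monomial k a =>
    have : ∀ n, (T' ^ k) (g n) = g ((T ^ k) n) := by
      induction k with
      | zero => simp
      | succ k ih => intro n; rw [pow_succ, pow_succ, Module.End.mul_apply, h, ih]; rfl
    simp [this]

noncomputable def shift : Module.End ℂ (ℕ → ℂ) := LinearMap.funLeft ℂ ℂ (· + 1)

def Rec (s : ℕ → ℂ) : Prop := ∃ P : ℂ[X], P.coeff 0 ≠ 0 ∧ aeval shift P s = 0

theorem Rec.sub {s t : ℕ → ℂ} (hs : Rec s) (ht : Rec t) : Rec (s - t) := by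
  obtain ⟨P, hP, hs⟩ := hs
  obtain ⟨Q, hQ, ht⟩ := ht
  refine ⟨P * Q, by simp [hP, hQ], ?_⟩
  rw [map_sub, map_mul, Module.End.mul_apply _ _ t, ht, ← map_mul, mul_comm, map_mul,
    Module.End.mul_apply, hs]
  simp

theorem Rec.zero {s : ℕ → ℂ} (hs : Rec s) (h : ∀ m, s (m + 1) = 0) : s 0 = 0 := by
  obtain ⟨P, hP, hs⟩ := hs
  have h1 : shift s = 0 := funext h
  rw [← P.divX_mul_X_add, map_add, map_mul, LinearMap.add_apply, Module.End.mul_apply, aeval_X,
    h1] at hs
  have := congrFun hs 0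
  simpa [hP] using this

theorem rec_trace {N : Type} [AddCommGroup N] [Module ℂ N] [Module.Finite ℂ N]
    (a U : Module.End ℂ N) (hU : Bijective U) : Rec fun m => LinearMap.trace ℂ N (a * U ^ m) := by
  let F : Module.End ℂ N →ₗ[ℂ] (ℕ → ℂ) :=
    { toFun := fun Y m => LinearMap.trace ℂ N (a * U ^ m * Y)
      map_add' := fun Y Y' => by ext m; simp [mul_add]
      map_smul' := fun c Y => by ext m; simp }
  refine ⟨U.charpoly, ?_, ?_⟩
  · intro h
    have h1 := U.det_eq_sign_charpoly_coeff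
    rw [h, mul_zero] at h1
    exact (LinearEquiv.ofBijective U hU).isUnit_det'.ne_zero h1
  · have h1 := aeval_intertwine F (LinearMap.mulLeft ℂ U) shift (fun Y => by
      ext m; simp [F, shift, pow_succ, mul_assoc]) U.charpoly 1
    have h2 : (fun m => LinearMap.trace ℂ N (a * U ^ m)) = F 1 := by ext m; simp [F]
    have h3 : aeval (LinearMap.mulLeft ℂ U) U.charpoly = 0 := by
      have := aeval_algHom_apply (Algebra.lmul ℂ (Module.End ℂ N)) U U.charpoly
      rw [LinearMap.aeval_self_charpoly, map_zero] at this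
      exact this
    rw [h2, h1, h3]; simp

def tw (m : ℕ) (l : List (B × ℂ)) : List (B × ℂ) := l.map fun p => (p.1, p.2 ^ m)

theorem Cmp.pow {N : Type} [AddCommGroup N] [Module B N] [Module ℂ N] [IsScalarTower ℂ B N]
    {l : List (B × ℂ)} {θ : Module.End ℂ N} (h : Cmp l θ) (b : B) (m : ℕ) :
    Cmp (tw m l) (mulB N b * θ ^ m : Module.End ℂ N) := by
  intro p hp
  obtain ⟨q, hq, rfl⟩ := List.mem_map.1 hp
  refine ⟨pow_ne_zero _ (h q hq).1, fun n => ?_⟩
  have : ∀ n, (θ ^ m) (q.1 • n) = q.2 ^ m • q.1 • (θ ^ m) n := by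
    induction m with
    | zero => simp
    | succ m ih =>
      intro n
      rw [pow_succ', Module.End.mul_apply, ih (List.mem_map.2 ⟨q, hq, rfl⟩), map_smul, (h q hq).2,
        smul_smul, ← pow_succ]
      rfl
  simp only [Module.End.mul_apply, mulB_apply, this]
  rw [smul_comm b, smul_comm b]

theorem rec_sym [Algebra.FiniteType ℂ B] (b : B) (l : List (B × ℂ)) :
    ∀ (N : Type) [AddCommGroup N] [Module B N] [Module ℂ N] [IsScalarTower ℂ B N]
      [Module.Finite B N] (θ : Module.End ℂ N) (κ : ℂ), κ ≠ 0 → Bijective θ → Cmp l θ → Ok l N →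
      Rec fun m => κ ^ m * sym (tw m l) N (mulB N b * θ ^ m : Module.End ℂ N) := by
  have : IsNoetherianRing B := Algebra.FiniteType.isNoetherianRing ℂ B
  induction l with
  | nil =>
    intro N _ _ _ _ _ θ κ hκ hθ _ ho
    have := ho.fin
    have h1 := rec_trace (mulB N b) (κ • θ) (by
      have : ⇑(κ • θ) = (fun n => κ • n) ∘ θ := rfl
      rw [this]
      exact (MulAction.bijective (Units.mk0 κ hκ)).comp hθ)
    simpa [_root_.smul_pow, tw, sym_nil] using h1
  | cons p l ih =>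
    intro N _ _ _ _ _ θ κ hκ hθ hc ho
    have hp := hc p List.mem_cons_self
    have h1 := ih _ (qmap _ _ θ) κ hκ (by
      constructor
      · rw [injective_iff_map_eq_zero]
        intro n hn
        obtain ⟨n, rfl⟩ := Submodule.Quotient.mk_surjective _ n
        rw [qmap_mk hc.xq_st, Submodule.Quotient.mk_eq_zero] at hn
        obtain ⟨m, hm⟩ := mem_xq.1 hn
        obtain ⟨m, rfl⟩ := hθ.2 m
        rw [Submodule.Quotient.mk_eq_zero]
        refine mem_xq.2 ⟨p.2⁻¹ • m, hθ.1 ?_⟩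
        rw [hp.2, map_smul, ← hm, smul_comm p.1, smul_smul, mul_inv_cancel₀ hp.1, one_smul]
      · intro n
        obtain ⟨n, rfl⟩ := Submodule.Quotient.mk_surjective _ n
        obtain ⟨n, rfl⟩ := hθ.2 n
        exact ⟨_, qmap_mk hc.xq_st n⟩) hc.hq ho.hq
    have h2 := ih _ (smap _ _ θ) (κ * p.2) (mul_ne_zero hκ hp.1) (by
      constructor
      · intro a c hac
        have := congrArg Subtype.val hac
        rw [smap_coe hc.xk_st, smap_coe hc.xk_st] at this
        exact Subtype.ext (hθ.1 this)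
      · intro n
        obtain ⟨m, hm⟩ := hθ.2 n
        refine ⟨⟨m, mem_xk.2 (hθ.1 ?_)⟩, Subtype.ext ?_⟩
        · rw [hp.2, hm, mem_xk.1 n.2]; simp
        · rw [smap_coe hc.xk_st]; exact hm) hc.hk ho.hk
    have h3 := h1.sub h2
    have e : ∀ m, κ ^ m * sym (tw m (p :: l)) N (mulB N b * θ ^ m : Module.End ℂ N) =
        κ ^ m * sym (tw m l) _ (mulB _ b * qmap (xq p.1 N) (xq p.1 N) θ ^ m : Module.End ℂ _) -
        (κ * p.2) ^ m * sym (tw m l) _
          (mulB _ b * smap (xk p.1 N) (xk p.1 N) θ ^ m : Module.End ℂ _) := by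
      intro m
      have hm := hc.pow b m
      have t1 : tw m (p :: l) = (p.1, p.2 ^ m) :: tw m l := rfl
      rw [t1] at hm ⊢
      have e1 : qmap (xq p.1 N) (xq p.1 N) (mulB N b * θ ^ m : Module.End ℂ N) =
          (mulB _ b * qmap (xq p.1 N) (xq p.1 N) θ ^ m : Module.End ℂ _) := by
        refine LinearMap.ext fun n => ?_
        obtain ⟨n, rfl⟩ := Submodule.Quotient.mk_surjective _ n
        have := aeval_intertwine ((xq p.1 N).mkQ.restrictScalars ℂ) θ (qmap _ _ θ)
          (fun n => qmap_mk hc.xq_st n) (X ^ m) n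
        simp only [map_pow, aeval_X] at this
        rw [qmap_mk hm.xq_st, Module.End.mul_apply, Module.End.mul_apply]
        exact (congrArg (b • ·) this).symm
      have e2 : smap (xk p.1 N) (xk p.1 N) (mulB N b * θ ^ m : Module.End ℂ N) =
          (mulB _ b * smap (xk p.1 N) (xk p.1 N) θ ^ m : Module.End ℂ _) := by
        ext n
        have := aeval_intertwine ((xk p.1 N).subtype.restrictScalars ℂ) (smap _ _ θ) θ
          (fun n => (smap_coe hc.xk_st n).symm) (X ^ m) n
        simp only [map_pow, aeval_X] at this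
        rw [smap_coe hm.xk_st, Module.End.mul_apply, Module.End.mul_apply]
        exact congrArg (b • ·) this
      rw [sym_cons, e1, e2, mul_pow]
      ring
    simp only [e]
    exact h3

theorem sym_intrinsic [Algebra.FiniteType ℂ B] (θ : B →ₐ[ℂ] B) (hθ : Bijective θ) {d : ℕ}
    (x x' : Fin d → B) (χ : Fin d → ℂ) (h0 : ∀ i, χ i ≠ 0) (h1 : ∀ i m, χ i ^ (m + 1) ≠ 1)
    (hx : ∀ i, θ (x i) = χ i • x i) (hx' : ∀ i, θ (x' i) = χ i • x' i) (ho : OkF x ⊥)
    (ho' : OkF x' ⊥) (b : B) : sym (unt x) B (mulB B b) = sym (unt x') B (mulB B b) := by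
  have cm : ∀ y : Fin d → B, (∀ i, θ (y i) = χ i • y i) → Cmp (par y χ) θ.toLinearMap := by
    intro y hy p hp
    obtain ⟨i, rfl⟩ := mem_par.1 hp
    exact ⟨h0 i, fun n => by simp [hy]⟩
  have tp : ∀ (y : Fin d → B) m, tw m (par y χ) = par y fun i => χ i ^ m := by
    intro y m; simp [tw, par, List.map_ofFn, Function.comp_def]
  have r1 := rec_sym b _ B θ.toLinearMap 1 one_ne_zero hθ (cm x hx) (ho.ok _ bot_le)
  have r2 := rec_sym b _ B θ.toLinearMap 1 one_ne_zero hθ (cm x' hx') (ho'.ok _ bot_le)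
  have r3 := (r1.sub r2).zero (fun m => by
    have c1 := (cm x hx).pow b (m + 1)
    have c2 := (cm x' hx').pow b (m + 1)
    have c3 : Cmp (tw (m + 1) (par x χ) ++ tw (m + 1) (par x' χ))
        (mulB B b * θ.toLinearMap ^ (m + 1) : Module.End ℂ B) :=
      fun p hp => (List.mem_append.1 hp).elim (c1 p) (c2 p)
    simp only [tp] at c3
    have a1 := sym_append_front _ _ _ c3 (ho'.ok _ bot_le)
    have a2 := sym_append_back _ _ _ _ c3 (ho.ok _ bot_le)
    have a3 : ∀ y : Fin d → B, ((par y fun i => χ i ^ (m + 1)).map fun p => 1 - p.2).prod =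
        ∏ i, (1 - χ i ^ (m + 1)) := by
      intro y; simp [par, List.map_ofFn, Function.comp_def, List.prod_ofFn]
    rw [a3] at a1 a2
    have a4 : ∏ i, (1 - χ i ^ (m + 1)) ≠ 0 :=
      Finset.prod_ne_zero_iff.2 fun i _ => sub_ne_zero.2 (h1 i m).symm
    simp only [Pi.sub_apply, tp, one_pow, one_mul]
    rw [sub_eq_zero]
    exact mul_left_cancel₀ a4 (a2.symm.trans a1))
  simpa [tp, sub_eq_zero] using r3

end Pool.Agent.Lib.MP_c89606_al
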